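import Mathlib

/-!
# Functor categories: exactness, projectives, restriction
-/

set_option autoImplicit false
set_option linter.all false

namespace Pool.Agent.X317.GD

open CategoryTheory CategoryTheory.Limits

/-- rational functors -/
abbrev FC (J : Type) [SmallCategory J] := J ⥤ ModuleCat.{0} ℚ

section
variable {J : Type} [SmallCategory J]

theorem exact_of_ev (S : ShortComplex (FC J))
    (h : ∀ j, (S.map ((evaluation J (ModuleCat.{0} ℚ)).obj j)).Exact) : S.Exact := by
  rw [ShortComplex.exact_iff_isZero_homology]
  apply Functor.isZero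
  intro j
  have h1 := (ShortComplex.exact_iff_isZero_homology _).1 (h j)
  exact h1.of_iso (S.mapHomologyIso ((evaluation J (ModuleCat.{0} ℚ)).obj j)).symm

theorem projQ (M : ModuleCat.{0} ℚ) : Projective M := by
  rw [← IsProjective.iff_projective]
  haveI : Module.Free ℚ M := Module.Free.of_divisionRing ℚ M
  exact Module.Projective.of_free

theorem enough (X : FC J) : ∃ (P : FC J) (_ : Projective P) (π : P ⟶ X), Epi π := by
  have hP : ∀ c : J, Projective ((evaluationLeftAdjoint (ModuleCat.{0} ℚ) c).obj (X.obj c)) := by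
    intro c
    haveI := projQ (X.obj c)
    exact (evaluationAdjunctionRight (ModuleCat.{0} ℚ) c).map_projective (X.obj c) inferInstance
  refine ⟨∐ fun c : J => (evaluationLeftAdjoint (ModuleCat.{0} ℚ) c).obj (X.obj c), inferInstance,
    Sigma.desc (fun c => (evaluationAdjunctionRight (ModuleCat.{0} ℚ) c).counit.app X), ?_⟩
  rw [NatTrans.epi_iff_epi_app]
  intro c
  have h1 := (evaluationAdjunctionRight (ModuleCat.{0} ℚ) c).right_triangle_components X
  have h2 : Sigma.ι (fun c : J => (evaluationLeftAdjoint (ModuleCat.{0} ℚ) c).obj (X.obj c)) c ≫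
      Sigma.desc (fun c => (evaluationAdjunctionRight (ModuleCat.{0} ℚ) c).counit.app X) =
      (evaluationAdjunctionRight (ModuleCat.{0} ℚ) c).counit.app X := by
    rw [Sigma.ι_desc]
  have h3 := congrArg (fun f => NatTrans.app f c) h2
  haveI : Epi (((evaluationAdjunctionRight (ModuleCat.{0} ℚ) c).counit.app X).app c) := by
    apply (SplitEpi.mk ((evaluationAdjunctionRight (ModuleCat.{0} ℚ) c).unit.app (X.obj c)) h1).epi
  rw [← h3] at this
  exact @epi_of_epi _ _ _ _ _ ((Sigma.ι (fun c : J => (evaluationLeftAdjoint (ModuleCat.{0} ℚ) c).obj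
    (X.obj c)) c).app c) _ this

end

section restr
variable {J K : Type} [SmallCategory J] [SmallCategory K] (Φ : K ⥤ J)

/-- restriction -/
abbrev rst : FC J ⥤ FC K := (Functor.whiskeringLeft K J (ModuleCat.{0} ℚ)).obj Φ

theorem rst_shortExact (S : ShortComplex (FC J)) (hS : S.ShortExact) :
    (S.map (rst Φ)).ShortExact := by
  exact hS.map_of_exact (rst Φ)

theorem pd_rst (hproj : ∀ P : FC J, Projective P → Projective ((rst Φ).obj P)) (n : ℕ) :
    ∀ X : FC J, HasProjectiveDimensionLT X n → HasProjectiveDimensionLT ((rst Φ).obj X) n := by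
  induction n with
  | zero =>
    intro X hX
    rw [hasProjectiveDimensionLT_zero_iff_isZero] at hX ⊢
    exact (rst Φ).map_isZero hX
  | succ n ih =>
    intro X hX
    rcases Nat.eq_zero_or_pos n with rfl | hn
    · rw [← projective_iff_hasProjectiveDimensionLT_one] at hX ⊢
      exact hproj X hX
    · obtain ⟨P, hP, π, hπ⟩ := enough X
      obtain ⟨m, rfl⟩ : ∃ m, n = m + 1 := ⟨n - 1, by omega⟩
      let S : ShortComplex (FC J) := ShortComplex.mk (kernel.ι π) π (kernel.condition π)
      have hS : S.ShortExact :=
        { exact := ShortComplex.exact_of_f_is_kernel _ (kernelIsKernel π)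
          mono_f := inferInstance
          epi_g := hπ }
      have h1 : HasProjectiveDimensionLT S.X₁ (m + 1) :=
        (hS.hasProjectiveDimensionLT_X₃_iff m hP).1 hX
      have h2 := ih S.X₁ h1
      have hS' := rst_shortExact Φ S hS
      exact (hS'.hasProjectiveDimensionLT_X₃_iff m (hproj P hP)).2 h2

end restr

end Pool.Agent.X317.GD
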