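import Mathlib

/-!
# Modules over an incidence algebra
-/

set_option autoImplicit false
set_option linter.all false

namespace Pool.Agent.X317.GD

open CategoryTheory

section ring
variable {P : Type} [PartialOrder P] [Fintype P] [DecidableEq P] [LocallyFiniteOrder P]

theorem mul_app (r s : IncidenceAlgebra ℚ P) (x z : P) : (r * s) x z = ∑ y, r x y * s y z := by
  rw [IncidenceAlgebra.mul_apply]
  apply Finset.sum_subset (Finset.subset_univ _)
  intro y _ hy
  rw [Finset.mem_Icc, not_and_or] at hy
  rcases hy with hy | hy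
  · rw [IncidenceAlgebra.apply_eq_zero_of_not_le hy, zero_mul]
  · rw [IncidenceAlgebra.apply_eq_zero_of_not_le hy, mul_zero]

open Classical in
/-- the basis elements (zero when `x ≤ y` fails) -/
noncomputable def E (x y : P) : IncidenceAlgebra ℚ P :=
  ⟨fun a b => if a = x ∧ b = y ∧ x ≤ y then 1 else 0, by
    intro a b h
    rw [if_neg]
    rintro ⟨rfl, rfl, h'⟩
    exact h h'⟩

open Classical in
theorem E_apply (x y a b : P) : (E x y) a b = if a = x ∧ b = y ∧ x ≤ y then 1 else 0 := rfl

theorem sum_apply {ι : Type} (s : Finset ι) (f : ι → IncidenceAlgebra ℚ P) (a b : P) :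
    (∑ i ∈ s, f i) a b = ∑ i ∈ s, f i a b := by
  classical
  induction s using Finset.induction_on with
  | empty => rfl
  | insert i s hi ih => rw [Finset.sum_insert hi, Finset.sum_insert hi, IncidenceAlgebra.add_apply, ih]

theorem E_zero (x y : P) (h : ¬ x ≤ y) : (E x y : IncidenceAlgebra ℚ P) = 0 := by
  apply IncidenceAlgebra.ext
  intro a b _
  rw [E_apply, if_neg (fun h' => h h'.2.2)]
  rfl

theorem one_eq : (1 : IncidenceAlgebra ℚ P) = ∑ x, E x x := by
  apply IncidenceAlgebra.ext
  intro a b hab
  rw [sum_apply, IncidenceAlgebra.one_apply, Finset.sum_eq_single a]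
  · rw [E_apply]
    by_cases h : a = b
    · rw [if_pos h, if_pos ⟨rfl, h.symm, le_rfl⟩]
    · rw [if_neg h, if_neg (fun h' => h h'.2.1.symm)]
  · intro x _ hx
    rw [E_apply, if_neg (fun h' => hx h'.1.symm)]
  · intro h
    exact absurd (Finset.mem_univ _) h

theorem mul_E (r : IncidenceAlgebra ℚ P) (z y : P) (h : z ≤ y) :
    r * E z y = ∑ x, r x z • E x y := by
  apply IncidenceAlgebra.ext
  intro a b hab
  rw [sum_apply, mul_app, Finset.sum_eq_single z, Finset.sum_eq_single a]
  · rw [IncidenceAlgebra.constSMul_apply, E_apply, E_apply, smul_eq_mul]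
    by_cases hb : b = y
    · subst hb
      rw [if_pos ⟨rfl, rfl, h⟩, if_pos ⟨rfl, rfl, hab⟩]
    · rw [if_neg (fun h' => hb h'.2.1), if_neg (fun h' => hb h'.2.1)]
  · intro x _ hx
    rw [IncidenceAlgebra.constSMul_apply, E_apply, if_neg (fun h' => hx h'.1.symm), smul_zero]
  · intro h
    exact absurd (Finset.mem_univ _) h
  · intro x _ hx
    rw [E_apply, if_neg (fun h' => hx h'.1), mul_zero]
  · intro h
    exact absurd (Finset.mem_univ _) h

theorem E_mul (r : IncidenceAlgebra ℚ P) (y : P) :
    E y y * r = ∑ z, r y z • E y z := by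
  apply IncidenceAlgebra.ext
  intro a b hab
  rw [sum_apply, mul_app, Finset.sum_eq_single y, Finset.sum_eq_single b]
  · rw [IncidenceAlgebra.constSMul_apply, E_apply, E_apply, smul_eq_mul]
    by_cases ha : a = y
    · subst ha
      rw [if_pos ⟨rfl, rfl, le_rfl⟩, if_pos ⟨rfl, rfl, hab⟩, one_mul, mul_one]
    · rw [if_neg (fun h' => ha h'.1), if_neg (fun h' => ha h'.1), zero_mul, mul_zero]
  · intro x _ hx
    rw [IncidenceAlgebra.constSMul_apply, E_apply, if_neg (fun h' => hx h'.2.1.symm), smul_zero]
  · intro h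
    exact absurd (Finset.mem_univ _) h
  · intro x _ hx
    rw [E_apply, if_neg (fun h' => hx h'.2.1), zero_mul]
  · intro h
    exact absurd (Finset.mem_univ _) h

theorem E_mul_E (x y : P) : (E x x * E x y : IncidenceAlgebra ℚ P) = E x y := by
  by_cases h : x ≤ y
  · rw [mul_E _ _ _ h, Finset.sum_eq_single x]
    · rw [E_apply, if_pos ⟨rfl, rfl, le_rfl⟩, one_smul]
    · intro z _ hz
      rw [E_apply, if_neg (fun h' => hz h'.1), zero_smul]
    · intro h
      exact absurd (Finset.mem_univ _) h
  · rw [E_zero x y h, mul_zero]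

theorem E_mul_E' (x y : P) : (E x y * E y y : IncidenceAlgebra ℚ P) = E x y := by
  by_cases h : x ≤ y
  · rw [mul_E _ _ _ le_rfl, Finset.sum_eq_single x]
    · rw [E_apply, if_pos ⟨rfl, rfl, h⟩, one_smul]
    · intro z _ hz
      rw [E_apply, if_neg (fun h' => hz h'.1), zero_smul]
    · intro h
      exact absurd (Finset.mem_univ _) h
  · rw [E_zero x y h, zero_mul]

theorem E_mul_ne (x y : P) (h : x ≠ y) : (E x x * E y y : IncidenceAlgebra ℚ P) = 0 := by
  rw [mul_E _ _ _ le_rfl]
  apply Finset.sum_eq_zero
  intro z _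
  rw [E_apply, if_neg (fun h' => h h'.2.1.symm), zero_smul]

end ring

section col
variable {P : Type} [PartialOrder P] [Fintype P] [DecidableEq P] [LocallyFiniteOrder P]

/-- the functions supported in a lower set -/
def ColS (D : LowerSet P) (W : Type) [AddCommGroup W] [Module ℚ W] : Submodule ℚ (P → W) where
  carrier := {f | ∀ x, x ∉ D → f x = 0}
  zero_mem' := fun x _ => rfl
  add_mem' := by
    intro a b ha hb x hx
    show a x + b x = 0
    rw [ha x hx, hb x hx, add_zero]
  smul_mem' := by
    intro c a ha x hx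
    show c • a x = 0
    rw [ha x hx, smul_zero]

/-- the functions supported in a lower set -/
def Col (D : LowerSet P) (W : Type) [AddCommGroup W] [Module ℚ W] : Type := ColS D W

variable (D : LowerSet P) (W : Type) [AddCommGroup W] [Module ℚ W]

instance : AddCommGroup (Col D W) := inferInstanceAs (AddCommGroup (ColS D W))

/-- the value -/
def Col.v {D : LowerSet P} {W : Type} [AddCommGroup W] [Module ℚ W] (f : Col D W) : P → W := f.1

theorem Col.ext {D : LowerSet P} {W : Type} [AddCommGroup W] [Module ℚ W] {f g : Col D W}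
    (h : ∀ x, f.v x = g.v x) : f = g := Subtype.ext (funext h)

theorem Col.zero_of {D : LowerSet P} {W : Type} [AddCommGroup W] [Module ℚ W] (f : Col D W) (x : P)
    (h : x ∉ D) : f.v x = 0 := f.2 x h

theorem Col.v_add {D : LowerSet P} {W : Type} [AddCommGroup W] [Module ℚ W] (f g : Col D W) (x : P) :
    (f + g).v x = f.v x + g.v x := rfl

instance : SMul (IncidenceAlgebra ℚ P) (Col D W) where
  smul r f := ⟨fun x => ∑ z, r x z • f.v z, by
    intro x hx
    apply Finset.sum_eq_zero
    intro z _
    by_cases hz : x ≤ z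
    · rw [f.zero_of z (fun h => hx (D.lower hz h)), smul_zero]
    · rw [IncidenceAlgebra.apply_eq_zero_of_not_le hz, zero_smul]⟩

theorem Col.v_smul {D : LowerSet P} {W : Type} [AddCommGroup W] [Module ℚ W]
    (r : IncidenceAlgebra ℚ P) (f : Col D W) (x : P) :
    (r • f).v x = ∑ z, r x z • f.v z := rfl

instance : Module (IncidenceAlgebra ℚ P) (Col D W) where
  one_smul f := by
    apply Col.ext
    intro x
    rw [Col.v_smul, Finset.sum_eq_single x]
    · rw [IncidenceAlgebra.one_apply, if_pos rfl, one_smul]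
    · intro z _ hz
      rw [IncidenceAlgebra.one_apply, if_neg (fun h => hz h.symm), zero_smul]
    · intro h
      exact absurd (Finset.mem_univ _) h
  mul_smul r s f := by
    apply Col.ext
    intro x
    rw [Col.v_smul, Col.v_smul]
    simp only [Col.v_smul, mul_app, Finset.sum_smul, Finset.smul_sum, mul_smul]
    exact Finset.sum_comm
  smul_zero r := by
    apply Col.ext
    intro x
    rw [Col.v_smul]
    apply Finset.sum_eq_zero
    intro z _
    exact smul_zero _
  smul_add r f g := by
    apply Col.ext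
    intro x
    rw [Col.v_add, Col.v_smul, Col.v_smul, Col.v_smul, ← Finset.sum_add_distrib]
    apply Finset.sum_congr rfl
    intro z _
    rw [Col.v_add, smul_add]
  add_smul r s f := by
    apply Col.ext
    intro x
    rw [Col.v_add, Col.v_smul, Col.v_smul, Col.v_smul, ← Finset.sum_add_distrib]
    apply Finset.sum_congr rfl
    intro z _
    rw [IncidenceAlgebra.add_apply, add_smul]
  zero_smul f := by
    apply Col.ext
    intro x
    rw [Col.v_smul]
    apply Finset.sum_eq_zero
    intro z _
    rw [IncidenceAlgebra.zero_apply, zero_smul]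

/-- enlarging the lower set -/
def inc {D D' : LowerSet P} (h : D ≤ D') : Col D W →ₗ[IncidenceAlgebra ℚ P] Col D' W where
  toFun f := ⟨f.v, fun x hx => f.zero_of x (fun h' => hx (h h'))⟩
  map_add' _ _ := rfl
  map_smul' _ _ := rfl

theorem inc_inj {D D' : LowerSet P} (h : D ≤ D') : Function.Injective (inc W h) := by
  intro f g hfg
  apply Col.ext
  intro x
  exact congrArg (fun k : Col D' W => k.v x) hfg

variable {W}

/-- the delta function -/
def dl (y : P) (w : W) : Col (LowerSet.Iic y) W :=
  ⟨fun x => if x = y then w else 0, by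
    intro x hx
    show (if x = y then w else 0) = 0
    rw [if_neg]
    rintro rfl
    exact hx (LowerSet.mem_Iic_iff.2 le_rfl)⟩

theorem dl_v (y : P) (w : W) (x : P) : (dl y w).v x = if x = y then w else 0 := rfl

theorem dl_add (y : P) (w w' : W) : dl y (w + w') = dl y w + dl y w' := by
  apply Col.ext
  intro x
  rw [Col.v_add, dl_v, dl_v, dl_v]
  split_ifs
  · rfl
  · rw [add_zero]

theorem E_dl (x y : P) (h : x ≤ y) (w : W) (a : P) :
    ((E x y : IncidenceAlgebra ℚ P) • dl y w).v a = if a = x then w else 0 := by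
  rw [Col.v_smul, Finset.sum_eq_single y]
  · rw [dl_v, if_pos rfl, E_apply]
    by_cases ha : a = x
    · rw [if_pos ⟨ha, rfl, h⟩, if_pos ha, one_smul]
    · rw [if_neg (fun h' => ha h'.1), if_neg ha, zero_smul]
  · intro z _ hz
    rw [dl_v, if_neg hz, smul_zero]
  · intro h
    exact absurd (Finset.mem_univ _) h

theorem v_sum {ι : Type} (s : Finset ι) (f : ι → Col D W) (x : P) :
    (∑ i ∈ s, f i).v x = ∑ i ∈ s, (f i).v x := by
  classical
  induction s using Finset.induction_on with
  | empty => rfl
  | insert i s hi ih => rw [Finset.sum_insert hi, Finset.sum_insert hi, Col.v_add, ih]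

theorem eq_sum (y : P) (f : Col (LowerSet.Iic y) W) :
    f = ∑ x, (E x y : IncidenceAlgebra ℚ P) • dl y (f.v x) := by
  apply Col.ext
  intro a
  rw [v_sum, Finset.sum_eq_single a]
  · by_cases h : a ≤ y
    · rw [E_dl a y h, if_pos rfl]
    · rw [E_zero a y h, zero_smul]
      exact f.zero_of a (fun h' => h (LowerSet.mem_Iic_iff.1 h'))
  · intro x _ hx
    by_cases h : x ≤ y
    · rw [E_dl x y h, if_neg (fun h' => hx h'.symm)]
    · rw [E_zero x y h, zero_smul]
      rfl
  · intro h
    exact absurd (Finset.mem_univ _) h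

end col

end Pool.Agent.X317.GD
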