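import Mathlib
import Pool.Agent.X317.GD.IA

/-!
# Projective dimensions over an incidence algebra
-/

set_option autoImplicit false
set_option linter.all false

namespace Pool.Agent.X317.GD

open CategoryTheory

section proj
variable {P : Type} [PartialOrder P] [Fintype P] [DecidableEq P] [LocallyFiniteOrder P]
variable (W : Type) [AddCommGroup W] [Module ℚ W]

theorem col_proj (y : P) :
    Module.Projective (IncidenceAlgebra ℚ P) (Col (LowerSet.Iic y) W) := by
  apply Module.Projective.of_lifting_property''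
  intro f hf
  letI : Module ℚ (Col (LowerSet.Iic y) W) := inferInstanceAs (Module ℚ (ColS (LowerSet.Iic y) W))
  obtain ⟨g, hg⟩ := (f.toAddMonoidHom.toRatLinearMap).exists_rightInverse_of_surjective
    (LinearMap.range_eq_top.2 hf)
  have hg' : ∀ c, f (g c) = c := fun c => congrArg (fun k => k c) hg
  let G : W →+ (Col (LowerSet.Iic y) W →₀ IncidenceAlgebra ℚ P) :=
    { toFun := fun w => g (dl y w)
      map_zero' := by
        have h0 : dl y (0 : W) = 0 := by
          apply Col.ext
          intro x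
          rw [dl_v, ite_self]
          rfl
        rw [h0, map_zero]
      map_add' := fun a b => by rw [dl_add, map_add] }
  have hG : ∀ w, f (G w) = dl y w := fun w => hg' _
  have hGq : ∀ (q : ℚ) (w : W), G (q • w) = q • G w := fun q w => map_rat_smul G q w
  have hcomm : ∀ (q : ℚ) (e : IncidenceAlgebra ℚ P) (m : Col (LowerSet.Iic y) W →₀ IncidenceAlgebra ℚ P),
      e • (q • m) = (q • e) • m := by
    intro q e m
    rw [smul_assoc]
    exact map_rat_smul (DistribSMul.toAddMonoidHom _ e) q m
  refine ⟨{ toFun := fun c => ∑ x, (E x y : IncidenceAlgebra ℚ P) • G (c.v x)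
            map_add' := ?_
            map_smul' := ?_ }, ?_⟩
  · intro a b
    rw [← Finset.sum_add_distrib]
    apply Finset.sum_congr rfl
    intro x _
    rw [Col.v_add, map_add, smul_add]
  · intro r c
    rw [RingHom.id_apply, Finset.smul_sum]
    have h1 : ∀ z, r • ((E z y : IncidenceAlgebra ℚ P) • G (c.v z)) =
        ∑ x, (E x y : IncidenceAlgebra ℚ P) • (r x z • G (c.v z)) := by
      intro z
      by_cases hz : z ≤ y
      · rw [← mul_smul, mul_E r z y hz, Finset.sum_smul]
        apply Finset.sum_congr rfl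
        intro x _
        rw [hcomm]
      · rw [c.zero_of z (fun h => hz (LowerSet.mem_Iic_iff.1 h)), map_zero, smul_zero, smul_zero]
        symm
        apply Finset.sum_eq_zero
        intro x _
        rw [smul_zero, smul_zero]
    rw [Finset.sum_congr rfl (fun z _ => h1 z), Finset.sum_comm]
    apply Finset.sum_congr rfl
    intro x _
    rw [Col.v_smul, map_sum, Finset.smul_sum]
    apply Finset.sum_congr rfl
    intro z _
    rw [hGq]
  · apply LinearMap.ext
    intro c
    show f (∑ x, (E x y : IncidenceAlgebra ℚ P) • G (c.v x)) = c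
    rw [map_sum]
    conv_rhs => rw [eq_sum y c]
    apply Finset.sum_congr rfl
    intro x _
    rw [map_smul, hG]

end proj

section pd
variable {P : Type} [PartialOrder P] [Fintype P] [DecidableEq P] [LocallyFiniteOrder P]

/-- the module is supported in `D` -/
def Sp (D : Set P) (M : Type) [AddCommGroup M] [Module (IncidenceAlgebra ℚ P) M] : Prop :=
  ∀ x, x ∉ D → ∀ m : M, (E x x : IncidenceAlgebra ℚ P) • m = 0

theorem Sp_E {D : Set P} {M : Type} [AddCommGroup M] [Module (IncidenceAlgebra ℚ P) M]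
    (h : Sp D M) (x y : P) (hx : x ∉ D) (m : M) : (E x y : IncidenceAlgebra ℚ P) • m = 0 := by
  rw [← E_mul_E, mul_smul, h x hx]

theorem Sp_E' {D : Set P} {M : Type} [AddCommGroup M] [Module (IncidenceAlgebra ℚ P) M]
    (h : Sp D M) (x y : P) (hy : y ∉ D) (m : M) : (E x y : IncidenceAlgebra ℚ P) • m = 0 := by
  rw [← E_mul_E', mul_smul, h y hy, smul_zero]

/-- evaluation on a module concentrated at `y` -/
theorem conc_smul (y : P) (N : Type) [AddCommGroup N] [Module (IncidenceAlgebra ℚ P) N]
    [Module ℚ N] [IsScalarTower ℚ (IncidenceAlgebra ℚ P) N]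
    (hN : Sp {y} N) (r : IncidenceAlgebra ℚ P) (n : N) : r • n = r y y • n := by
  have h1 : (E y y : IncidenceAlgebra ℚ P) • n = n := by
    conv_rhs => rw [← one_smul (IncidenceAlgebra ℚ P) n, one_eq, Finset.sum_smul]
    rw [Finset.sum_eq_single y]
    · intro x _ hx
      exact hN x hx n
    · intro h
      exact absurd (Finset.mem_univ _) h
  conv_lhs => rw [← h1, ← mul_smul, mul_E _ _ _ le_rfl, Finset.sum_smul]
  rw [Finset.sum_eq_single y]
  · rw [smul_assoc, h1]
  · intro x _ hx
    rw [smul_assoc, Sp_E hN x y hx, smul_zero]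
  · intro h
    exact absurd (Finset.mem_univ _) h

/-- evaluation on a module concentrated at `y` -/
def ev (y : P) (N : Type) [AddCommGroup N] [Module (IncidenceAlgebra ℚ P) N]
    [Module ℚ N] [IsScalarTower ℚ (IncidenceAlgebra ℚ P) N]
    (hN : Sp {y} N) : Col (LowerSet.Iic y) N →ₗ[IncidenceAlgebra ℚ P] N where
  toFun f := f.v y
  map_add' _ _ := rfl
  map_smul' r f := by
    rw [RingHom.id_apply, conc_smul y N hN, Col.v_smul, Finset.sum_eq_single y]
    · intro z _ hz
      by_cases h : z ≤ y
      · rw [IncidenceAlgebra.apply_eq_zero_of_not_le (fun h' => hz (le_antisymm h h')), zero_smul]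
      · rw [f.zero_of z (fun h' => h (LowerSet.mem_Iic_iff.1 h')), smul_zero]
    · intro h
      exact absurd (Finset.mem_univ _) h

theorem Iio_le (y : P) : LowerSet.Iio y ≤ LowerSet.Iic y := by
  intro x hx
  exact le_of_lt (LowerSet.mem_Iio_iff.1 hx)

theorem short_of {A B C : Type} [AddCommGroup A] [Module (IncidenceAlgebra ℚ P) A]
    [AddCommGroup B] [Module (IncidenceAlgebra ℚ P) B] [AddCommGroup C]
    [Module (IncidenceAlgebra ℚ P) C] (f : A →ₗ[IncidenceAlgebra ℚ P] B)
    (g : B →ₗ[IncidenceAlgebra ℚ P] C) (hf : Function.Injective f) (hg : Function.Surjective g)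
    (hfg : ∀ b, g b = 0 ↔ ∃ a, f a = b) :
    ∃ hz : ModuleCat.ofHom f ≫ ModuleCat.ofHom g = 0,
      (ShortComplex.mk (ModuleCat.ofHom f) (ModuleCat.ofHom g) hz).ShortExact := by
  have hz : ModuleCat.ofHom f ≫ ModuleCat.ofHom g = 0 := by
    ext a
    exact (hfg (f a)).2 ⟨a, rfl⟩
  refine ⟨hz, ?_⟩
  have he : (ShortComplex.mk (ModuleCat.ofHom f) (ModuleCat.ofHom g) hz).Exact := by
    rw [ShortComplex.moduleCat_exact_iff]
    intro b hb
    obtain ⟨a, ha⟩ := (hfg b).1 hb
    exact ⟨a, ha⟩
  exact { exact := he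
          mono_f := (ModuleCat.mono_iff_injective _).2 hf
          epi_g := (ModuleCat.epi_iff_surjective _).2 hg }

theorem pd_conc (y : P) (N : Type) [AddCommGroup N] [Module (IncidenceAlgebra ℚ P) N]
    [Module ℚ N] [IsScalarTower ℚ (IncidenceAlgebra ℚ P) N] (hN : Sp {y} N) (n : ℕ)
    (h : HasProjectiveDimensionLT (ModuleCat.of (IncidenceAlgebra ℚ P) (Col (LowerSet.Iio y) N))
      (n + 1)) :
    HasProjectiveDimensionLT (ModuleCat.of (IncidenceAlgebra ℚ P) N) (n + 2) := by
  obtain ⟨hz, hS⟩ := short_of (inc N (Iio_le y)) (ev y N hN) (inc_inj N (Iio_le y))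
    (by
      intro m
      refine ⟨dl y m, ?_⟩
      show (dl y m).v y = m
      rw [dl_v, if_pos rfl])
    (by
      intro f
      constructor
      · intro hf
        refine ⟨⟨f.v, ?_⟩, rfl⟩
        intro x hx
        by_cases h : x = y
        · subst h
          exact hf
        · apply f.zero_of
          intro h'
          exact hx (LowerSet.mem_Iio_iff.2 (lt_of_le_of_ne (LowerSet.mem_Iic_iff.1 h') h))
      · rintro ⟨a, rfl⟩
        exact a.zero_of y (fun h' => lt_irrefl _ (LowerSet.mem_Iio_iff.1 h')))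
  have hp : Projective (ModuleCat.of (IncidenceAlgebra ℚ P) (Col (LowerSet.Iic y) N)) := by
    rw [← IsProjective.iff_projective]
    exact col_proj N y
  exact (hS.hasProjectiveDimensionLT_X₃_iff n hp).2 h

theorem pd_zero (M : Type) [AddCommGroup M] [Module (IncidenceAlgebra ℚ P) M]
    (h : ∀ m : M, m = 0) (n : ℕ) :
    HasProjectiveDimensionLT (ModuleCat.of (IncidenceAlgebra ℚ P) M) n := by
  haveI : Subsingleton M := ⟨fun a b => (h a).trans (h b).symm⟩
  have h0 : HasProjectiveDimensionLT (ModuleCat.of (IncidenceAlgebra ℚ P) M) 0 := by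
    rw [hasProjectiveDimensionLT_zero_iff_isZero]
    exact ModuleCat.isZero_of_subsingleton _
  exact hasProjectiveDimensionLT_of_ge _ 0 n (Nat.zero_le n)

theorem pd_conc2 (y : P)
    (hy : (∀ x : P, ¬ x < y) ∨ ∃ y' : P, ∀ x, x < y ↔ x ≤ y')
    (N : Type) [AddCommGroup N] [Module (IncidenceAlgebra ℚ P) N]
    [Module ℚ N] [IsScalarTower ℚ (IncidenceAlgebra ℚ P) N] (hN : Sp {y} N) :
    HasProjectiveDimensionLT (ModuleCat.of (IncidenceAlgebra ℚ P) N) 2 := by
  apply pd_conc y N hN 0
  rcases hy with hy | ⟨y', hy⟩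
  · apply pd_zero
    intro f
    apply Col.ext
    intro x
    exact f.zero_of x (fun h => hy x (LowerSet.mem_Iio_iff.1 h))
  · have h1 : LowerSet.Iio y = LowerSet.Iic y' := by
      ext x
      exact hy x
    rw [h1]
    have hp : Projective (ModuleCat.of (IncidenceAlgebra ℚ P) (Col (LowerSet.Iic y') N)) := by
      rw [← IsProjective.iff_projective]
      exact col_proj N y'
    infer_instance

theorem pd_ext (M : Type) [AddCommGroup M] [Module (IncidenceAlgebra ℚ P) M]
    (S : Submodule (IncidenceAlgebra ℚ P) M) (n : ℕ)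
    (h1 : HasProjectiveDimensionLT (ModuleCat.of (IncidenceAlgebra ℚ P) S) n)
    (h2 : HasProjectiveDimensionLT (ModuleCat.of (IncidenceAlgebra ℚ P) (M ⧸ S)) n) :
    HasProjectiveDimensionLT (ModuleCat.of (IncidenceAlgebra ℚ P) M) n := by
  obtain ⟨hz, hS⟩ := short_of S.subtype S.mkQ S.injective_subtype S.mkQ_surjective
    (by
      intro b
      constructor
      · intro hb
        exact ⟨⟨b, (Submodule.Quotient.mk_eq_zero S).1 hb⟩, rfl⟩
      · rintro ⟨a, rfl⟩
        exact (Submodule.Quotient.mk_eq_zero S).2 a.2)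
  exact hS.hasProjectiveDimensionLT_X₂ n h1 h2

/-- the part of `M` killed by the idempotent of a maximal vertex -/
def kl (D : Set P) (M : Type) [AddCommGroup M] [Module (IncidenceAlgebra ℚ P) M]
    (hM : Sp D M) (y : P) (hy : ∀ z ∈ D, y ≤ z → z = y) : Submodule (IncidenceAlgebra ℚ P) M where
  carrier := {m | (E y y : IncidenceAlgebra ℚ P) • m = 0}
  zero_mem' := smul_zero _
  add_mem' := by
    intro a b ha hb
    show (E y y : IncidenceAlgebra ℚ P) • (a + b) = 0
    rw [smul_add, show (E y y : IncidenceAlgebra ℚ P) • a = 0 from ha,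
      show (E y y : IncidenceAlgebra ℚ P) • b = 0 from hb, add_zero]
  smul_mem' := by
    intro r m hm
    show (E y y : IncidenceAlgebra ℚ P) • (r • m) = 0
    rw [← mul_smul, E_mul, Finset.sum_smul]
    apply Finset.sum_eq_zero
    intro z _
    have h1 : (r y z • (E y z : IncidenceAlgebra ℚ P)) • m =
        (r y z • (1 : IncidenceAlgebra ℚ P)) • ((E y z : IncidenceAlgebra ℚ P) • m) := by
      rw [← mul_smul, smul_mul_assoc, one_mul]
    rw [h1]
    by_cases hz : y ≤ z
    · by_cases hzD : z ∈ D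
      · rw [hy z hzD hz, show (E y y : IncidenceAlgebra ℚ P) • m = 0 from hm, smul_zero]
      · rw [Sp_E' hM y z hzD, smul_zero]
    · rw [E_zero y z hz, zero_smul, smul_zero]

theorem kl_Sp (D : Set P) (M : Type) [AddCommGroup M] [Module (IncidenceAlgebra ℚ P) M]
    (hM : Sp D M) (y : P) (hy : ∀ z ∈ D, y ≤ z → z = y) :
    Sp (D \ {y}) (kl D M hM y hy) := by
  intro x hx m
  apply Subtype.ext
  by_cases h : x = y
  · subst h
    exact m.2
  · have hx' : x ∉ D := fun h' => hx ⟨h', h⟩
    exact hM x hx' m.1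

theorem kl_quot (D : Set P) (M : Type) [AddCommGroup M] [Module (IncidenceAlgebra ℚ P) M]
    (hM : Sp D M) (y : P) (hy : ∀ z ∈ D, y ≤ z → z = y) :
    Sp {y} (M ⧸ (kl D M hM y hy)) := by
  intro x hx m
  obtain ⟨m, rfl⟩ := Submodule.Quotient.mk_surjective _ m
  rw [← Submodule.Quotient.mk_smul, Submodule.Quotient.mk_eq_zero]
  show (E y y : IncidenceAlgebra ℚ P) • ((E x x : IncidenceAlgebra ℚ P) • m) = 0
  rw [← mul_smul, E_mul_ne y x (fun h => hx h.symm), zero_smul]

theorem tower (M : Type) [AddCommGroup M] [Module (IncidenceAlgebra ℚ P) M] :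
    ∃ _ : Module ℚ M, IsScalarTower ℚ (IncidenceAlgebra ℚ P) M := by
  refine ⟨Module.compHom M (algebraMap ℚ (IncidenceAlgebra ℚ P)), ?_⟩
  letI : Module ℚ M := Module.compHom M (algebraMap ℚ (IncidenceAlgebra ℚ P))
  constructor
  intro q r m
  show (q • r) • m = algebraMap ℚ (IncidenceAlgebra ℚ P) q • (r • m)
  rw [← mul_smul, Algebra.smul_def]

theorem pd_low (D : Finset P) : ∀ (hD : ∀ y ∈ D, (∀ x : P, ¬ x < y) ∨ ∃ y' : P, ∀ x, x < y ↔ x ≤ y')
    (M : Type) [AddCommGroup M] [Module (IncidenceAlgebra ℚ P) M] (hM : Sp (D : Set P) M),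
    HasProjectiveDimensionLT (ModuleCat.of (IncidenceAlgebra ℚ P) M) 2 := by
  induction D using Finset.strongInduction with
  | H D ih =>
    intro hD M _ _ hM
    rcases D.eq_empty_or_nonempty with rfl | hne
    · apply pd_zero
      intro m
      rw [← one_smul (IncidenceAlgebra ℚ P) m, one_eq, Finset.sum_smul]
      apply Finset.sum_eq_zero
      intro x _
      exact hM x (by simp) m
    · obtain ⟨y, hyD, hy⟩ := D.exists_maximal hne
      have hy' : ∀ z ∈ (D : Set P), y ≤ z → z = y := by
        intro z hz hyz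
        exact le_antisymm (hy hz hyz) hyz
      apply pd_ext M (kl (D : Set P) M hM y hy')
      · apply ih (D.erase y) (Finset.erase_ssubset hyD)
        · intro z hz
          exact hD z (Finset.mem_of_mem_erase hz)
        · rw [Finset.coe_erase]
          exact kl_Sp _ _ _ _ _
      · obtain ⟨i1, i2⟩ := tower (P := P) (M ⧸ (kl (D : Set P) M hM y hy'))
        exact pd_conc2 y (hD y hyD) _ (kl_quot _ _ _ _ _)

/-- if every element other than the top has at most one lower cover (in the strong sense), then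
all projective dimensions are at most two -/
theorem pd_all [OrderTop P]
    (hP : ∀ y : P, y ≠ ⊤ → (∀ x : P, ¬ x < y) ∨ ∃ y' : P, ∀ x, x < y ↔ x ≤ y')
    (M : Type) [AddCommGroup M] [Module (IncidenceAlgebra ℚ P) M] :
    HasProjectiveDimensionLT (ModuleCat.of (IncidenceAlgebra ℚ P) M) 3 := by
  have hlow : ∀ (N : Type) [AddCommGroup N] [Module (IncidenceAlgebra ℚ P) N],
      Sp ({⊤}ᶜ : Set P) N → HasProjectiveDimensionLT (ModuleCat.of (IncidenceAlgebra ℚ P) N) 2 := by
    intro N _ _ hN
    apply pd_low (Finset.univ.erase ⊤)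
    · intro y hy
      exact hP y (Finset.ne_of_mem_erase hy)
    · intro x hx m
      apply hN x
      intro h
      apply hx
      simp only [Finset.coe_erase, Finset.coe_univ, Set.mem_diff, Set.mem_univ, true_and]
      exact h
  have hM : Sp (Set.univ : Set P) M := fun x hx => absurd (Set.mem_univ x) hx
  have hy' : ∀ z ∈ (Set.univ : Set P), (⊤ : P) ≤ z → z = ⊤ := fun z _ h => top_le_iff.1 h
  apply pd_ext M (kl Set.univ M hM ⊤ hy')
  · have h1 := hlow (kl Set.univ M hM ⊤ hy') (by
      have h2 := kl_Sp Set.univ M hM ⊤ hy'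
      intro x hx
      exact h2 x (fun h => hx h.2))
    exact hasProjectiveDimensionLT_of_ge _ 2 3 (by norm_num)
  · obtain ⟨i1, i2⟩ := tower (P := P) (M ⧸ (kl Set.univ M hM ⊤ hy'))
    apply pd_conc ⊤ _ (kl_quot _ _ _ _ _) 1
    apply hlow
    intro x hx f
    have hx' : x = ⊤ := by
      by_contra h
      exact hx h
    subst hx'
    apply Col.ext
    intro a
    rw [Col.v_smul]
    apply Finset.sum_eq_zero
    intro z _
    rw [E_apply]
    by_cases hz : z = ⊤
    · rw [f.zero_of z (fun h => absurd hz (ne_of_lt (LowerSet.mem_Iio_iff.1 h))), smul_zero]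
    · rw [if_neg (fun h => hz h.2.1), zero_smul]

end pd

end Pool.Agent.X317.GD
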