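import Mathlib
import Pool.Agent.X317.GD.IA2

/-!
# Vanishing of Ext over an incidence algebra
-/

set_option autoImplicit false
set_option linter.all false

namespace Pool.Agent.X317.GD

open CategoryTheory CategoryTheory.Abelian

section les
variable {R : Type} [Ring R]

/-- `Ext^n(A, B) = 0` -/
def VE (R : Type) [Ring R] (A B : Type) [AddCommGroup A] [Module R A] [AddCommGroup B] [Module R B]
    (n : ℕ) : Prop :=
  Subsingleton (Ext (ModuleCat.of R A) (ModuleCat.of R B) n)

variable {A B C X : Type} [AddCommGroup A] [Module R A] [AddCommGroup B] [Module R B]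
  [AddCommGroup C] [Module R C] [AddCommGroup X] [Module R X]

theorem VE_iff (n : ℕ) : VE R A B n ↔ ∀ e : Ext (ModuleCat.of R A) (ModuleCat.of R B) n, e = 0 :=
  ⟨fun h e => @Subsingleton.elim _ h _ _, fun h => ⟨fun a b => (h a).trans (h b).symm⟩⟩

theorem VE_proj (h : Module.Projective R A) (n : ℕ) : VE R A B (n + 1) := by
  haveI : Projective (ModuleCat.of R A) := by
    rw [← IsProjective.iff_projective]
    exact h
  exact Ext.subsingleton_of_projective _ _ _

variable (f : A →ₗ[R] B) (g : B →ₗ[R] C) (hf : Function.Injective f) (hg : Function.Surjective g)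
    (hfg : ∀ b, g b = 0 ↔ ∃ a, f a = b)

include hf hg hfg in
theorem short_ofR :
    ∃ hz : ModuleCat.ofHom f ≫ ModuleCat.ofHom g = 0,
      (ShortComplex.mk (ModuleCat.ofHom f) (ModuleCat.ofHom g) hz).ShortExact := by
  have hz : ModuleCat.ofHom f ≫ ModuleCat.ofHom g = 0 := by
    ext a
    exact (hfg (f a)).2 ⟨a, rfl⟩
  refine ⟨hz, ?_⟩
  have he : (ShortComplex.mk (ModuleCat.ofHom f) (ModuleCat.ofHom g) hz).Exact := by
    rw [ShortComplex.moduleCat_exact_iff]
    intro b hb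
    obtain ⟨a, ha⟩ := (hfg b).1 hb
    exact ⟨a, ha⟩
  exact { exact := he
          mono_f := (ModuleCat.mono_iff_injective _).2 hf
          epi_g := (ModuleCat.epi_iff_surjective _).2 hg }

include hf hg hfg in
theorem VE3 (n : ℕ) (h1 : VE R A X n) (h2 : VE R B X (n + 1)) : VE R C X (n + 1) := by
  obtain ⟨hz, hS⟩ := short_ofR f g hf hg hfg
  rw [VE_iff] at *
  intro e
  obtain ⟨x, rfl⟩ := Ext.contravariant_sequence_exact₃ hS (ModuleCat.of R X) e
    (h2 _) (add_comm 1 n)
  rw [show x = 0 from h1 x, Ext.comp_zero]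

include hf hg hfg in
theorem VE2 (n : ℕ) (h1 : VE R A X n) (h3 : VE R C X n) : VE R B X n := by
  obtain ⟨hz, hS⟩ := short_ofR f g hf hg hfg
  rw [VE_iff] at *
  intro e
  obtain ⟨x, rfl⟩ := Ext.contravariant_sequence_exact₂ hS (ModuleCat.of R X) e (h1 _)
  rw [show x = 0 from h3 x, Ext.comp_zero]

include hf hg hfg in
theorem VE1 (n : ℕ) (h3 : VE R C X (n + 1)) (h2 : VE R B X n) : VE R A X n := by
  obtain ⟨hz, hS⟩ := short_ofR f g hf hg hfg
  rw [VE_iff] at *
  intro e
  obtain ⟨x, rfl⟩ := Ext.contravariant_sequence_exact₁ hS (ModuleCat.of R X) e (add_comm 1 n)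
    (h3 _)
  rw [show x = 0 from h2 x, Ext.comp_zero]

theorem VE0_of (h : ∀ φ : A →ₗ[R] X, φ = 0) : VE R A X 0 := by
  rw [VE_iff]
  intro e
  obtain ⟨φ, rfl⟩ := (Ext.mk₀_bijective (ModuleCat.of R A) (ModuleCat.of R X)).2 e
  have : φ = 0 := by
    ext x
    exact congrArg (fun k : A →ₗ[R] X => k x) (h φ.hom)
  rw [this, Ext.mk₀_zero]

theorem VE0_imp (h : VE R A X 0) (φ : A →ₗ[R] X) : φ = 0 := by
  rw [VE_iff] at h
  have h1 := h (Ext.mk₀ (ModuleCat.ofHom φ))
  rw [Ext.mk₀_eq_zero_iff] at h1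
  have h2 := congrArg ModuleCat.Hom.hom h1
  exact h2

/-- a retract of a module without extensions has no extensions -/
theorem VE_retract (i : A →ₗ[R] B) (p : B →ₗ[R] A) (hip : ∀ a, p (i a) = a) (n : ℕ)
    (h : VE R B X n) : VE R A X n := by
  rw [VE_iff] at *
  intro e
  have h1 : e = (Ext.mk₀ (ModuleCat.ofHom i)).comp ((Ext.mk₀ (ModuleCat.ofHom p)).comp e
      (zero_add n)) (zero_add n) := by
    rw [Ext.mk₀_comp_mk₀_assoc]
    have h2 : ModuleCat.ofHom i ≫ ModuleCat.ofHom p = 𝟙 _ := by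
      ext a
      exact hip a
    rw [h2, Ext.mk₀_id_comp]
  have h3 : (Ext.mk₀ (ModuleCat.ofHom p)).comp e (zero_add n) = 0 := h _
  rw [h1, h3, Ext.comp_zero]

end les

end Pool.Agent.X317.GD
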