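import Mathlib
import Pool.Agent.X317.GD.ExtA

/-!
# Ext between modules over an incidence algebra: supports and the simple modules
-/

set_option autoImplicit false
set_option linter.all false

namespace Pool.Agent.X317.GD

open CategoryTheory CategoryTheory.Abelian

section simp
variable {P : Type} [PartialOrder P] [Fintype P] [DecidableEq P] [LocallyFiniteOrder P]

/-- the one-dimensional simple module at `y` -/
def Smp {P : Type} (y : P) : Type := ℚ

instance {P : Type} (y : P) : AddCommGroup (Smp y) := inferInstanceAs (AddCommGroup ℚ)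
instance {P : Type} (y : P) : Module ℚ (Smp y) := inferInstanceAs (Module ℚ ℚ)

theorem mul_diag (r s : IncidenceAlgebra ℚ P) (y : P) : (r * s) y y = r y y * s y y := by
  rw [mul_app, Finset.sum_eq_single y]
  · intro z _ hz
    by_cases h : y ≤ z
    · rw [IncidenceAlgebra.apply_eq_zero_of_not_le (fun h' => hz (le_antisymm h' h)), mul_zero]
    · rw [IncidenceAlgebra.apply_eq_zero_of_not_le h, zero_mul]
  · intro h
    exact absurd (Finset.mem_univ _) h

instance (y : P) : SMul (IncidenceAlgebra ℚ P) (Smp y) := ⟨fun r q => r y y • q⟩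

theorem Smp_smul (y : P) (r : IncidenceAlgebra ℚ P) (q : Smp y) : r • q = r y y • q := rfl

instance (y : P) : Module (IncidenceAlgebra ℚ P) (Smp y) where
  one_smul q := by
    rw [Smp_smul, IncidenceAlgebra.one_apply, if_pos rfl, one_smul]
  mul_smul r s q := by
    rw [Smp_smul, Smp_smul, Smp_smul, mul_diag, mul_smul]
  smul_zero r := by
    rw [Smp_smul, smul_zero]
  smul_add r a b := by
    rw [Smp_smul, Smp_smul, Smp_smul, smul_add]
  add_smul r s a := by
    rw [Smp_smul, Smp_smul, Smp_smul, IncidenceAlgebra.add_apply, add_smul]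
  zero_smul a := by
    rw [Smp_smul, IncidenceAlgebra.zero_apply, zero_smul]

instance (y : P) : IsScalarTower ℚ (IncidenceAlgebra ℚ P) (Smp y) where
  smul_assoc q r s := by
    rw [Smp_smul, Smp_smul, IncidenceAlgebra.constSMul_apply, smul_assoc]

theorem Smp_Sp (y : P) : Sp {y} (Smp y) := by
  intro x hx m
  rw [Smp_smul, E_apply, if_neg (fun h => hx h.1.symm), zero_smul]

theorem E_smul_Smp (x y k : P) (h : ¬ (x = k ∧ y = k)) (m : Smp k) :
    (E x y : IncidenceAlgebra ℚ P) • m = 0 := by
  rw [Smp_smul, E_apply, if_neg (fun h' => h ⟨h'.1.symm, h'.2.1.symm⟩), zero_smul]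

/-- every element is the sum of its components -/
theorem sum_cmp {M : Type} [AddCommGroup M] [Module (IncidenceAlgebra ℚ P) M] (m : M) :
    m = ∑ y, (E y y : IncidenceAlgebra ℚ P) • m := by
  rw [← Finset.sum_smul, ← one_eq, one_smul]

/-- a homomorphism to the simple module at `k` only sees the component at `k` -/
theorem hom_Smp {M : Type} [AddCommGroup M] [Module (IncidenceAlgebra ℚ P) M] (k : P)
    (φ : M →ₗ[IncidenceAlgebra ℚ P] Smp k) (m : M) :
    φ m = φ ((E k k : IncidenceAlgebra ℚ P) • m) := by
  conv_lhs => rw [sum_cmp (P := P) m]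
  rw [map_sum, Finset.sum_eq_single k]
  · intro y _ hy
    rw [map_smul, E_smul_Smp y y k (fun h => hy h.1)]
  · intro h
    exact absurd (Finset.mem_univ _) h

/-- the vanishing of `Ext^n(N, S_k)` for all modules `N` concentrated at `h` -/
def VC (n : ℕ) (h k : P) : Prop :=
  ∀ (N : Type) [AddCommGroup N] [Module (IncidenceAlgebra ℚ P) N], Sp {h} N →
    VE (IncidenceAlgebra ℚ P) N (Smp k) n

theorem ses_conc (y : P) (N : Type) [AddCommGroup N] [Module (IncidenceAlgebra ℚ P) N]
    [Module ℚ N] [IsScalarTower ℚ (IncidenceAlgebra ℚ P) N] (hN : Sp {y} N) :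
    Function.Injective (inc N (Iio_le y)) ∧ Function.Surjective (ev y N hN) ∧
    ∀ f, ev y N hN f = 0 ↔ ∃ a, inc N (Iio_le y) a = f := by
  refine ⟨inc_inj N (Iio_le y), ?_, ?_⟩
  · intro m
    refine ⟨dl y m, ?_⟩
    show (dl y m).v y = m
    rw [dl_v, if_pos rfl]
  · intro f
    constructor
    · intro hf
      refine ⟨⟨f.v, ?_⟩, rfl⟩
      intro x hx
      by_cases h : x = y
      · subst h
        exact hf
      · apply f.zero_of
        intro h'
        exact hx (LowerSet.mem_Iio_iff.2 (lt_of_le_of_ne (LowerSet.mem_Iic_iff.1 h') h))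
    · rintro ⟨a, rfl⟩
      exact a.zero_of y (fun h' => lt_irrefl _ (LowerSet.mem_Iio_iff.1 h'))

theorem VE_conc (y : P) (N X : Type) [AddCommGroup N] [Module (IncidenceAlgebra ℚ P) N]
    [Module ℚ N] [IsScalarTower ℚ (IncidenceAlgebra ℚ P) N] (hN : Sp {y} N)
    [AddCommGroup X] [Module (IncidenceAlgebra ℚ P) X] (n : ℕ)
    (h : VE (IncidenceAlgebra ℚ P) (Col (LowerSet.Iio y) N) X n) :
    VE (IncidenceAlgebra ℚ P) N X (n + 1) := by
  obtain ⟨h1, h2, h3⟩ := ses_conc y N hN
  exact VE3 _ _ h1 h2 h3 n h (VE_proj (col_proj N y) n)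

/-- vanishing for all concentrated factors gives vanishing -/
theorem fil_van (n : ℕ) (k : P) (D : Finset P) :
    ∀ (hD : ∀ y ∈ D, VC n y k) (M : Type) [AddCommGroup M]
      [Module (IncidenceAlgebra ℚ P) M] (hM : Sp (D : Set P) M),
      VE (IncidenceAlgebra ℚ P) M (Smp k) n := by
  induction D using Finset.strongInduction with
  | H D ih =>
    intro hD M _ _ hM
    rcases D.eq_empty_or_nonempty with rfl | hne
    · have h0 : ∀ m : M, m = 0 := by
        intro m
        rw [← one_smul (IncidenceAlgebra ℚ P) m, one_eq, Finset.sum_smul]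
        apply Finset.sum_eq_zero
        intro x _
        exact hM x (by simp) m
      cases n with
      | zero =>
        apply VE0_of
        intro φ
        apply LinearMap.ext
        intro m
        rw [h0 m, map_zero]
        rfl
      | succ n =>
        apply VE_proj
        haveI : Subsingleton M := ⟨fun a b => (h0 a).trans (h0 b).symm⟩
        infer_instance
    · obtain ⟨y, hyD, hy⟩ := D.exists_maximal hne
      have hy' : ∀ z ∈ (D : Set P), y ≤ z → z = y := by
        intro z hz hyz
        exact le_antisymm (hy hz hyz) hyz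
      have h1 : VE (IncidenceAlgebra ℚ P) (kl (D : Set P) M hM y hy') (Smp k) n := by
        apply ih (D.erase y) (Finset.erase_ssubset hyD)
        · intro z hz
          exact hD z (Finset.mem_of_mem_erase hz)
        · rw [Finset.coe_erase]
          exact kl_Sp _ _ _ _ _
      have h2 : VE (IncidenceAlgebra ℚ P) (M ⧸ (kl (D : Set P) M hM y hy')) (Smp k) n :=
        hD y hyD _ (kl_quot _ _ _ _ _)
      refine VE2 (kl (D : Set P) M hM y hy').subtype (kl (D : Set P) M hM y hy').mkQ
        (Submodule.injective_subtype _) (Submodule.mkQ_surjective _) ?_ n h1 h2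
      intro b
      constructor
      · intro hb
        exact ⟨⟨b, (Submodule.Quotient.mk_eq_zero _).1 hb⟩, rfl⟩
      · rintro ⟨a, rfl⟩
        exact (Submodule.Quotient.mk_eq_zero _).2 a.2

theorem Col_Sp (D : LowerSet P) (W : Type) [AddCommGroup W] [Module ℚ W] :
    Sp (D : Set P) (Col D W) := by
  intro x hx f
  apply Col.ext
  intro a
  rw [Col.v_smul]
  apply Finset.sum_eq_zero
  intro z _
  rw [E_apply]
  by_cases hz : z = x
  · rw [f.zero_of z (fun h => hx (hz ▸ h)), smul_zero]
  · rw [if_neg (fun h => hz h.2.1), zero_smul]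

theorem VC_step (n : ℕ) (h k : P) (H : ∀ y, y < h → VC n y k) : VC (n + 1) h k := by
  classical
  intro N _ _ hN
  obtain ⟨i1, i2⟩ := tower (P := P) N
  apply VE_conc h N (Smp k) hN n
  apply fil_van n k (Finset.univ.filter (fun y => y < h))
  · intro y hy
    exact H y (Finset.mem_filter.1 hy).2
  · intro x hx f
    apply Col_Sp (LowerSet.Iio h) N
    intro h'
    apply hx
    rw [Finset.mem_coe, Finset.mem_filter]
    exact ⟨Finset.mem_univ _, LowerSet.mem_Iio_iff.1 h'⟩

theorem VC_zero (h k : P) (H : h ≠ k) : VC 0 h k := by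
  intro N _ _ hN
  apply VE0_of
  intro φ
  apply LinearMap.ext
  intro m
  rw [hom_Smp, hN k (fun h' => H h'.symm) m, map_zero]
  rfl

/-- the bound by the length of chains -/
theorem VC_rank (ρ : P → ℕ) (hρ : ∀ x y, x < y → ρ x < ρ y) (k : P) (n : ℕ) :
    ∀ h, (¬ k ≤ h ∨ ρ h < ρ k + n) → VC n h k := by
  induction n with
  | zero =>
    intro h H
    apply VC_zero
    rintro rfl
    rcases H with H | H
    · exact H le_rfl
    · omega
  | succ n ih =>
    intro h H
    apply VC_step
    intro y hy
    apply ih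
    rcases H with H | H
    · left
      intro h'
      exact H (h'.trans hy.le)
    · right
      have := hρ y h hy
      omega

end simp

end Pool.Agent.X317.GD
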