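import Mathlib
import Pool.Agent.X317.GD.ExtB

/-!
# Modules saturated with respect to a closure, and the complement recursion
-/

set_option autoImplicit false
set_option linter.all false

namespace Pool.Agent.X317.GD

open CategoryTheory CategoryTheory.Abelian

section sat
variable {P : Type} [Lattice P] [Fintype P] [DecidableEq P] [LocallyFiniteOrder P]

/-- the maps from the component at `y ⊔ x` to the component at `y` are bijective -/
structure Sat (x : P) (M : Type) [AddCommGroup M] [Module (IncidenceAlgebra ℚ P) M] : Prop where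
  inj : ∀ (y : P) (m : M), (E y (y ⊔ x) : IncidenceAlgebra ℚ P) • m = 0 →
    (E (y ⊔ x) (y ⊔ x) : IncidenceAlgebra ℚ P) • m = 0
  surj : ∀ (y : P) (m : M), ∃ m' : M, (E y y : IncidenceAlgebra ℚ P) • m =
    (E y (y ⊔ x) : IncidenceAlgebra ℚ P) • m'

theorem Sat_VE0 (x k : P) (hxk : ¬ x ≤ k) (M : Type) [AddCommGroup M]
    [Module (IncidenceAlgebra ℚ P) M] (hM : Sat x M) :
    VE (IncidenceAlgebra ℚ P) M (Smp k) 0 := by
  apply VE0_of
  intro φ
  apply LinearMap.ext
  intro m
  obtain ⟨m', hm'⟩ := hM.surj k m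
  rw [hom_Smp, hm', map_smul, E_smul_Smp]
  · rfl
  · rintro ⟨_, h⟩
    exact hxk (sup_eq_left.1 h)

theorem E_smul_v (D : LowerSet P) (W : Type) [AddCommGroup W] [Module ℚ W] (x y : P) (h : x ≤ y)
    (f : Col D W) (a : P) :
    ((E x y : IncidenceAlgebra ℚ P) • f).v a = if a = x then f.v y else 0 := by
  rw [Col.v_smul, Finset.sum_eq_single y]
  · rw [E_apply]
    by_cases ha : a = x
    · rw [if_pos ⟨ha, rfl, h⟩, if_pos ha, one_smul]
    · rw [if_neg (fun h' => ha h'.1), if_neg ha, zero_smul]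
  · intro z _ hz
    rw [E_apply, if_neg (fun h' => hz h'.2.1), zero_smul]
  · intro h
    exact absurd (Finset.mem_univ _) h

/-- the function with one value -/
def one1 (D : LowerSet P) (W : Type) [AddCommGroup W] [Module ℚ W] (y : P) (hy : y ∈ D) (w : W) :
    Col D W :=
  ⟨fun a => if a = y then w else 0, by
    intro a ha
    show (if a = y then w else 0) = 0
    rw [if_neg]
    rintro rfl
    exact ha hy⟩

theorem one1_v (D : LowerSet P) (W : Type) [AddCommGroup W] [Module ℚ W] (y : P) (hy : y ∈ D)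
    (w : W) (a : P) : (one1 D W y hy w).v a = if a = y then w else 0 := rfl

theorem Col_Sat (x : P) (D : LowerSet P) (hD : ∀ y ∈ D, y ⊔ x ∈ D) (W : Type) [AddCommGroup W]
    [Module ℚ W] : Sat x (Col D W) where
  inj y f h := by
    have h1 : f.v (y ⊔ x) = 0 := by
      have h2 := congrArg (fun g : Col D W => g.v y) h
      have h3 : ((E y (y ⊔ x) : IncidenceAlgebra ℚ P) • f).v y = 0 := h2
      rwa [E_smul_v _ _ _ _ le_sup_left, if_pos rfl] at h3
    apply Col.ext
    intro a
    rw [E_smul_v _ _ _ _ le_rfl, h1, ite_self]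
    rfl
  surj y f := by
    by_cases hy : y ∈ D
    · refine ⟨one1 D W (y ⊔ x) (hD y hy) (f.v y), ?_⟩
      apply Col.ext
      intro a
      rw [E_smul_v _ _ _ _ le_rfl, E_smul_v _ _ _ _ le_sup_left, one1_v, if_pos rfl]
    · refine ⟨0, ?_⟩
      rw [smul_zero]
      apply Col.ext
      intro a
      rw [E_smul_v _ _ _ _ le_rfl, f.zero_of y hy, ite_self]
      rfl

theorem Pi_Sat (x : P) (ι : Type) (F : ι → Type) [∀ i, AddCommGroup (F i)]
    [∀ i, Module (IncidenceAlgebra ℚ P) (F i)] (h : ∀ i, Sat x (F i)) : Sat x (∀ i, F i) where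
  inj y f hf := by
    funext i
    exact (h i).inj y (f i) (congrFun hf i)
  surj y f := by
    choose g hg using fun i => (h i).surj y (f i)
    exact ⟨g, funext hg⟩

theorem Pi_proj (R : Type) [Ring R] (ι : Type) [Fintype ι] [DecidableEq ι] (F : ι → Type)
    [∀ i, AddCommGroup (F i)] [∀ i, Module R (F i)] (h : ∀ i, Module.Projective R (F i)) :
    Module.Projective R (∀ i, F i) :=
  Module.Projective.of_equiv (DFinsupp.linearEquivFunOnFintype (R := R) (M := F))

/-- the action map -/
noncomputable def actm (z : P) (M : Type) [AddCommGroup M] [Module (IncidenceAlgebra ℚ P) M] [Module ℚ M]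
    [IsScalarTower ℚ (IncidenceAlgebra ℚ P) M] :
    Col (LowerSet.Iic z) M →ₗ[IncidenceAlgebra ℚ P] M where
  toFun f := ∑ y, (E y z : IncidenceAlgebra ℚ P) • f.v y
  map_add' f g := by
    rw [← Finset.sum_add_distrib]
    apply Finset.sum_congr rfl
    intro y _
    rw [Col.v_add, smul_add]
  map_smul' r f := by
    rw [RingHom.id_apply, Finset.smul_sum]
    have hcomm : ∀ (q : ℚ) (e : IncidenceAlgebra ℚ P) (m : M), e • (q • m) = (q • e) • m := by
      intro q e m
      rw [smul_assoc]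
      exact map_rat_smul (DistribSMul.toAddMonoidHom _ e) q m
    have h1 : ∀ w, r • ((E w z : IncidenceAlgebra ℚ P) • f.v w) =
        ∑ y, (E y z : IncidenceAlgebra ℚ P) • (r y w • f.v w) := by
      intro w
      by_cases hw : w ≤ z
      · rw [← mul_smul, mul_E r w z hw, Finset.sum_smul]
        apply Finset.sum_congr rfl
        intro y _
        rw [hcomm]
      · rw [f.zero_of w (fun h => hw (LowerSet.mem_Iic_iff.1 h)), smul_zero, smul_zero]
        symm
        apply Finset.sum_eq_zero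
        intro y _
        rw [smul_zero, smul_zero]
    rw [Finset.sum_congr rfl (fun w _ => h1 w), Finset.sum_comm]
    apply Finset.sum_congr rfl
    intro y _
    rw [Col.v_smul, Finset.smul_sum]

theorem Sat_cover (x : P) (M : Type) [AddCommGroup M] [Module (IncidenceAlgebra ℚ P) M]
    (hM : Sat x M) : ∃ (F : Type) (_ : AddCommGroup F) (_ : Module (IncidenceAlgebra ℚ P) F)
      (p : F →ₗ[IncidenceAlgebra ℚ P] M), Module.Projective (IncidenceAlgebra ℚ P) F ∧
      Sat x F ∧ Function.Surjective p := by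
  obtain ⟨i1, i2⟩ := tower (P := P) M
  let F : P → Type := fun z => Col (LowerSet.Iic (z ⊔ x)) M
  letI iA : ∀ z, AddCommGroup (F z) := fun z =>
    inferInstanceAs (AddCommGroup (Col (LowerSet.Iic (z ⊔ x)) M))
  letI iM : ∀ z, Module (IncidenceAlgebra ℚ P) (F z) := fun z =>
    inferInstanceAs (Module (IncidenceAlgebra ℚ P) (Col (LowerSet.Iic (z ⊔ x)) M))
  let p : (∀ z, F z) →ₗ[IncidenceAlgebra ℚ P] M :=
    ∑ z, (actm (z ⊔ x) M).comp (LinearMap.proj z)
  refine ⟨∀ z, F z, inferInstance, inferInstance, p, ?_, ?_, ?_⟩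
  · exact Pi_proj _ _ _ (fun z => col_proj M (z ⊔ x))
  · apply Pi_Sat
    intro z
    apply Col_Sat
    intro y hy
    exact LowerSet.mem_Iic_iff.2 (sup_le (LowerSet.mem_Iic_iff.1 hy) le_sup_right)
  · intro m
    choose g hg using fun y => hM.surj y m
    refine ⟨fun z => one1 (LowerSet.Iic (z ⊔ x)) M z (LowerSet.mem_Iic_iff.2 le_sup_left) (g z), ?_⟩
    have h1 : p (fun z => one1 (LowerSet.Iic (z ⊔ x)) M z (LowerSet.mem_Iic_iff.2 le_sup_left)
        (g z)) = ∑ z, actm (z ⊔ x) M (one1 (LowerSet.Iic (z ⊔ x)) M z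
          (LowerSet.mem_Iic_iff.2 le_sup_left) (g z)) := by
      simp only [p, LinearMap.sum_apply, LinearMap.comp_apply, LinearMap.proj_apply]
    rw [h1]
    conv_rhs => rw [sum_cmp (P := P) m]
    apply Finset.sum_congr rfl
    intro z _
    show ∑ y, (E y (z ⊔ x) : IncidenceAlgebra ℚ P) • (one1 (LowerSet.Iic (z ⊔ x)) M z _ (g z)).v y = _
    rw [Finset.sum_eq_single z]
    · rw [one1_v, if_pos rfl, hg]
    · intro y _ hy
      rw [one1_v, if_neg hy, smul_zero]
    · intro h
      exact absurd (Finset.mem_univ _) h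

theorem Sat_ker (x : P) (F M : Type) [AddCommGroup F] [Module (IncidenceAlgebra ℚ P) F]
    [AddCommGroup M] [Module (IncidenceAlgebra ℚ P) M] (hF : Sat x F) (hM : Sat x M)
    (p : F →ₗ[IncidenceAlgebra ℚ P] M) : Sat x (LinearMap.ker p) where
  inj y m h := by
    apply Subtype.ext
    exact hF.inj y m.1 (congrArg Subtype.val h)
  surj y m := by
    obtain ⟨f, hf⟩ := hF.surj y m.1
    have h1 : (E y (y ⊔ x) : IncidenceAlgebra ℚ P) • p f = 0 := by
      rw [← map_smul, ← hf, map_smul, m.2, smul_zero]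
    have h2 := hM.inj y _ h1
    rw [← map_smul] at h2
    refine ⟨⟨(E (y ⊔ x) (y ⊔ x) : IncidenceAlgebra ℚ P) • f, h2⟩, ?_⟩
    apply Subtype.ext
    show (E y y : IncidenceAlgebra ℚ P) • m.1 =
      (E y (y ⊔ x) : IncidenceAlgebra ℚ P) • ((E (y ⊔ x) (y ⊔ x) : IncidenceAlgebra ℚ P) • f)
    rw [← mul_smul, E_mul_E', hf]

theorem Sat_VE (x k : P) (hxk : ¬ x ≤ k) (n : ℕ) : ∀ (M : Type) [AddCommGroup M]
    [Module (IncidenceAlgebra ℚ P) M], Sat x M → VE (IncidenceAlgebra ℚ P) M (Smp k) n := by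
  induction n with
  | zero =>
    intro M _ _ hM
    exact Sat_VE0 x k hxk M hM
  | succ n ih =>
    intro M _ _ hM
    obtain ⟨F, _, _, p, hF, hFs, hp⟩ := Sat_cover x M hM
    refine VE3 (LinearMap.ker p).subtype p (Submodule.injective_subtype _) hp ?_ n
      (ih _ (Sat_ker x F M hFs hM p)) (VE_proj hF n)
    intro b
    constructor
    · intro hb
      exact ⟨⟨b, hb⟩, rfl⟩
    · rintro ⟨a, rfl⟩
      exact a.2

/-- functions on an antichain -/
def Dg (A : Set P) (W : Type) : Type := A → W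

instance (A : Set P) (W : Type) [AddCommGroup W] : AddCommGroup (Dg A W) :=
  inferInstanceAs (AddCommGroup (A → W))

instance (A : Set P) (W : Type) [AddCommGroup W] [Module ℚ W] :
    SMul (IncidenceAlgebra ℚ P) (Dg A W) := ⟨fun r f y => r y.1 y.1 • f y⟩

theorem Dg_smul (A : Set P) (W : Type) [AddCommGroup W] [Module ℚ W] (r : IncidenceAlgebra ℚ P)
    (f : Dg A W) (y : A) : (r • f) y = r y.1 y.1 • f y := rfl

instance (A : Set P) (W : Type) [AddCommGroup W] [Module ℚ W] :
    Module (IncidenceAlgebra ℚ P) (Dg A W) where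
  one_smul f := by
    funext y
    rw [Dg_smul, IncidenceAlgebra.one_apply, if_pos rfl, one_smul]
  mul_smul r s f := by
    funext y
    rw [Dg_smul, Dg_smul, Dg_smul, mul_diag, mul_smul]
  smul_zero r := by
    funext y
    rw [Dg_smul]
    exact smul_zero _
  smul_add r a b := by
    funext y
    exact smul_add _ _ _
  add_smul r s a := by
    funext y
    rw [Dg_smul, IncidenceAlgebra.add_apply, add_smul]
    rfl
  zero_smul a := by
    funext y
    rw [Dg_smul, IncidenceAlgebra.zero_apply, zero_smul]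
    rfl

theorem Dg_Sp (A : Set P) (W : Type) [AddCommGroup W] [Module ℚ W] : Sp A (Dg A W) := by
  intro x hx f
  funext y
  rw [Dg_smul, E_apply, if_neg, zero_smul]
  · rfl
  · intro h
    exact hx (h.1 ▸ y.2)

/-- the complements of `x` below `h` -/
def Cp (x h : P) : Set P := {y | y < h ∧ y ⊔ x = h}

/-- the elements whose join with `x` is strictly below `h` -/
def DD (x h : P) : LowerSet P :=
  ⟨{y | y ⊔ x < h}, fun a b hab ha => lt_of_le_of_lt (sup_le_sup_right hab x) ha⟩

theorem mem_DD (x h y : P) : y ∈ DD x h ↔ y ⊔ x < h := Iff.rfl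

theorem DD_le (x h : P) : DD x h ≤ LowerSet.Iio h := by
  intro y hy
  exact LowerSet.mem_Iio_iff.2 (lt_of_le_of_lt le_sup_left hy)

theorem DD_sat (x h : P) : ∀ y ∈ DD x h, y ⊔ x ∈ DD x h := by
  intro y hy
  rw [mem_DD] at hy ⊢
  rwa [sup_assoc, sup_idem]

/-- restriction of functions to the complements -/
noncomputable def resA (x h : P) (hA : ∀ y ∈ Cp x h, ∀ z ∈ Cp x h, y ≤ z → y = z)
    (W : Type) [AddCommGroup W] [Module ℚ W] :
    Col (LowerSet.Iio h) W →ₗ[IncidenceAlgebra ℚ P] Dg (Cp x h) W where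
  toFun f := fun y => f.v y.1
  map_add' f g := rfl
  map_smul' r f := by
    funext y
    show (r • f).v y.1 = r y.1 y.1 • f.v y.1
    rw [Col.v_smul, Finset.sum_eq_single y.1]
    · intro z _ hz
      by_cases h1 : y.1 ≤ z
      · by_cases h2 : z < h
        · exfalso
          apply hz
          symm
          apply hA y.1 y.2 z _ h1
          refine ⟨h2, le_antisymm ?_ ?_⟩
          · have hx : x ≤ h := by
              rw [← y.2.2]
              exact le_sup_right
            exact sup_le h2.le hx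
          · rw [← y.2.2]
            exact sup_le_sup_right h1 x
        · rw [f.zero_of z (fun h' => h2 (LowerSet.mem_Iio_iff.1 h')), smul_zero]
      · rw [IncidenceAlgebra.apply_eq_zero_of_not_le h1, zero_smul]
    · intro h
      exact absurd (Finset.mem_univ _) h

theorem ses_resA (x h : P) (hx : x ≤ h) (hA : ∀ y ∈ Cp x h, ∀ z ∈ Cp x h, y ≤ z → y = z)
    (W : Type) [AddCommGroup W] [Module ℚ W] :
    Function.Injective (inc W (DD_le x h)) ∧ Function.Surjective (resA x h hA W) ∧
    ∀ f, resA x h hA W f = 0 ↔ ∃ a, inc W (DD_le x h) a = f := by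
  classical
  refine ⟨inc_inj W (DD_le x h), ?_, ?_⟩
  · intro g
    refine ⟨⟨fun y => if hy : y ∈ Cp x h then g ⟨y, hy⟩ else 0, ?_⟩, ?_⟩
    · intro y hy
      show (if hy : y ∈ Cp x h then g ⟨y, hy⟩ else 0) = 0
      rw [dif_neg]
      intro h'
      exact hy (LowerSet.mem_Iio_iff.2 h'.1)
    · funext y
      show (if hy : y.1 ∈ Cp x h then g ⟨y.1, hy⟩ else 0) = g y
      rw [dif_pos y.2]
  · intro f
    constructor
    · intro hf
      refine ⟨⟨f.v, ?_⟩, rfl⟩
      intro y hy
      by_cases h1 : y < h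
      · have h2 : y ∈ Cp x h := by
          refine ⟨h1, ?_⟩
          by_contra h3
          exact hy (lt_of_le_of_ne (sup_le h1.le hx) h3)
        exact congrFun hf ⟨y, h2⟩
      · exact f.zero_of y (fun h' => h1 (LowerSet.mem_Iio_iff.1 h'))
    · rintro ⟨a, rfl⟩
      funext y
      apply a.zero_of
      intro h'
      exact (lt_irrefl h) (lt_of_eq_of_lt y.2.2.symm h')

/-- the recursion, vanishing -/
theorem rec_V (n : ℕ) (x h k : P) (hx : x ≤ h) (hxk : ¬ x ≤ k)
    (hA : ∀ y ∈ Cp x h, ∀ z ∈ Cp x h, y ≤ z → y = z)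
    (H : ∀ y ∈ Cp x h, VC n y k) : VC (n + 1) h k := by
  classical
  intro N _ _ hN
  obtain ⟨i1, i2⟩ := tower (P := P) N
  apply VE_conc h N (Smp k) hN n
  obtain ⟨h1, h2, h3⟩ := ses_resA x h hx hA N
  refine VE2 _ _ h1 h2 h3 n (Sat_VE x k hxk n _ (Col_Sat x _ (DD_sat x h) N)) ?_
  apply fil_van n k (Finset.univ.filter (fun y => y ∈ Cp x h))
  · intro y hy
    exact H y (Finset.mem_filter.1 hy).2
  · intro y hy f
    apply Dg_Sp (Cp x h) N y
    intro h'
    apply hy
    rw [Finset.mem_coe, Finset.mem_filter]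
    exact ⟨Finset.mem_univ _, h'⟩

/-- the recursion, non-vanishing -/
theorem rec_NV (n : ℕ) (x h k : P) (hx : x ≤ h) (hxk : ¬ x ≤ k)
    (hA : ∀ y ∈ Cp x h, ∀ z ∈ Cp x h, y ≤ z → y = z) (y : P) (hy : y ∈ Cp x h)
    (H : ¬ VE (IncidenceAlgebra ℚ P) (Smp y) (Smp k) (n + 1)) :
    ¬ VE (IncidenceAlgebra ℚ P) (Smp h) (Smp k) (n + 2) := by
  classical
  intro hV
  apply H
  obtain ⟨a1, a2, a3⟩ := ses_conc h (Smp h) (Smp_Sp h)
  have h4 : VE (IncidenceAlgebra ℚ P) (Col (LowerSet.Iio h) (Smp h)) (Smp k) (n + 1) :=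
    VE1 _ _ a1 a2 a3 (n + 1) hV (VE_proj (col_proj (Smp h) h) n)
  obtain ⟨h1, h2, h3⟩ := ses_resA x h hx hA (Smp h)
  have h5 : VE (IncidenceAlgebra ℚ P) (Dg (Cp x h) (Smp h)) (Smp k) (n + 1) :=
    VE3 _ _ h1 h2 h3 n (Sat_VE x k hxk n _ (Col_Sat x _ (DD_sat x h) (Smp h))) h4
  let i : Smp y →ₗ[IncidenceAlgebra ℚ P] Dg (Cp x h) (Smp h) :=
    { toFun := fun q => fun z => if z.1 = y then (show Smp h from q) else 0
      map_add' := by
        intro a b
        funext z
        show (if z.1 = y then (show Smp h from a + b) else 0) =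
          (if z.1 = y then (show Smp h from a) else 0) + (if z.1 = y then (show Smp h from b) else 0)
        split_ifs
        · rfl
        · rw [add_zero]
      map_smul' := by
        intro r a
        funext z
        show (if z.1 = y then (show Smp h from r y y • a) else 0) =
          r z.1 z.1 • (if z.1 = y then (show Smp h from a) else 0)
        split_ifs with hz
        · rw [hz]
          rfl
        · rw [smul_zero] }
  let p : Dg (Cp x h) (Smp h) →ₗ[IncidenceAlgebra ℚ P] Smp y :=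
    { toFun := fun f => (show Smp y from f ⟨y, hy⟩)
      map_add' := fun _ _ => rfl
      map_smul' := fun _ _ => rfl }
  refine VE_retract i p ?_ (n + 1) h5
  intro a
  show (if y = y then (show Smp h from a) else 0) = a
  rw [if_pos rfl]

/-- a cover has a non-split extension -/
theorem cover_NV (h k : P) (hk : k < h) (hc : ∀ z, k ≤ z → z < h → z = k) :
    ¬ VE (IncidenceAlgebra ℚ P) (Smp h) (Smp k) 1 := by
  classical
  intro hV
  obtain ⟨a1, a2, a3⟩ := ses_conc h (Smp h) (Smp_Sp h)
  have hsat : Sat h (Col (LowerSet.Iic h) (Smp h)) := by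
    apply Col_Sat
    intro y hy
    rw [sup_eq_right.2 (LowerSet.mem_Iic_iff.1 hy)]
    exact LowerSet.mem_Iic_iff.2 le_rfl
  have h0 : VE (IncidenceAlgebra ℚ P) (Col (LowerSet.Iic h) (Smp h)) (Smp k) 0 :=
    Sat_VE0 h k (not_le_of_gt hk) _ hsat
  have h4 : VE (IncidenceAlgebra ℚ P) (Col (LowerSet.Iio h) (Smp h)) (Smp k) 0 :=
    VE1 _ _ a1 a2 a3 0 hV h0
  let φ : Col (LowerSet.Iio h) (Smp h) →ₗ[IncidenceAlgebra ℚ P] Smp k :=
    { toFun := fun f => (show Smp k from f.v k)
      map_add' := fun _ _ => rfl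
      map_smul' := by
        intro r f
        show (r • f).v k = r k k • f.v k
        rw [Col.v_smul, Finset.sum_eq_single k]
        · intro z _ hz
          by_cases h1 : k ≤ z
          · by_cases h2 : z < h
            · exact absurd (hc z h1 h2) hz
            · rw [f.zero_of z (fun h' => h2 (LowerSet.mem_Iio_iff.1 h')), smul_zero]
          · rw [IncidenceAlgebra.apply_eq_zero_of_not_le h1, zero_smul]
        · intro h
          exact absurd (Finset.mem_univ _) h }
  have h5 := VE0_imp h4 φ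
  have h6 := congrArg (fun g => g (one1 (LowerSet.Iio h) (Smp h) k (LowerSet.mem_Iio_iff.2 hk)
    (show Smp h from (1 : ℚ)))) h5
  have h7 : (1 : ℚ) = 0 := by
    have h8 : (show ℚ from (one1 (LowerSet.Iio h) (Smp h) k (LowerSet.mem_Iio_iff.2 hk)
      (show Smp h from (1 : ℚ))).v k) = 0 := h6
    rw [one1_v, if_pos rfl] at h8
    exact h8
  norm_num at h7

end sat

end Pool.Agent.X317.GD
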