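import Mathlib

/-!
# Conjugacy classes of subgroups
-/

set_option autoImplicit false
set_option linter.all false

namespace Pool.Agent.X317.GD

/-- the conjugate `g K g⁻¹` -/
def cj {G : Type} [Group G] (g : G) (K : Subgroup G) : Subgroup G :=
  K.map (MulAut.conj g).toMonoidHom

theorem mem_cj {G : Type} [Group G] (g : G) (K : Subgroup G) (x : G) :
    x ∈ cj g K ↔ g⁻¹ * x * g ∈ K := by
  unfold cj
  rw [Subgroup.mem_map]
  constructor
  · rintro ⟨k, hk, rfl⟩
    show g⁻¹ * (g * k * g⁻¹) * g ∈ K
    have h : g⁻¹ * (g * k * g⁻¹) * g = k := by group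
    rwa [h]
  · intro h
    refine ⟨g⁻¹ * x * g, h, ?_⟩
    show g * (g⁻¹ * x * g) * g⁻¹ = x
    group

theorem cj_one {G : Type} [Group G] (K : Subgroup G) : cj 1 K = K := by
  ext x
  rw [mem_cj]
  simp

theorem cj_cj {G : Type} [Group G] (g h : G) (K : Subgroup G) : cj g (cj h K) = cj (g * h) K := by
  ext x
  rw [mem_cj, mem_cj, mem_cj]
  have : h⁻¹ * (g⁻¹ * x * g) * h = (g * h)⁻¹ * x * (g * h) := by group
  rw [this]

theorem cj_mono {G : Type} [Group G] (g : G) {H K : Subgroup G} (h : H ≤ K) : cj g H ≤ cj g K :=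
  Subgroup.map_mono h

theorem card_cj {G : Type} [Group G] (g : G) (K : Subgroup G) :
    Nat.card (cj g K) = Nat.card K :=
  Subgroup.card_map_of_injective (MulAut.conj g).injective

theorem cj_normal {G : Type} [Group G] (V : Subgroup G) [V.Normal] (g : G) {K : Subgroup G}
    (h : K ≤ V) : cj g K ≤ V := by
  intro x hx
  rw [mem_cj] at hx
  have h1 := Subgroup.Normal.conj_mem (inferInstance : V.Normal) _ (h hx) g
  have h2 : g * (g⁻¹ * x * g) * g⁻¹ = x := by group
  rwa [h2] at h1

/-- conjugacy of subgroups -/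
def conjS (G : Type) [Group G] : Setoid (Subgroup G) where
  r H K := ∃ g : G, H = cj g K
  iseqv :=
    { refl := fun H => ⟨1, (cj_one H).symm⟩
      symm := by
        rintro H K ⟨g, rfl⟩
        refine ⟨g⁻¹, ?_⟩
        rw [cj_cj, inv_mul_cancel, cj_one]
      trans := by
        rintro H K L ⟨g, rfl⟩ ⟨h, rfl⟩
        exact ⟨g * h, cj_cj g h L⟩ }

/-- the set of conjugacy classes of subgroups -/
def Cls (G : Type) [Group G] : Type := Quotient (conjS G)

/-- the class of a subgroup -/
def Cls.mk {G : Type} [Group G] (H : Subgroup G) : Cls G := Quotient.mk (conjS G) H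

theorem Cls.ind {G : Type} [Group G] {p : Cls G → Prop} (h : ∀ H, p (Cls.mk H)) (x : Cls G) : p x :=
  Quotient.ind h x

theorem mk_eq {G : Type} [Group G] {H K : Subgroup G} (g : G) (h : H = cj g K) :
    Cls.mk H = Cls.mk K := Quotient.sound ⟨g, h⟩

instance (G : Type) [Group G] : LE (Cls G) where
  le := Quotient.lift₂ (fun H K : Subgroup G => ∃ g : G, H ≤ cj g K) (by
    rintro H K H' K' ⟨a, rfl⟩ ⟨b, rfl⟩
    apply propext
    constructor
    · rintro ⟨g, hg⟩
      refine ⟨a⁻¹ * g * b, ?_⟩
      have h1 := cj_mono a⁻¹ hg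
      rw [cj_cj, cj_cj, cj_cj, inv_mul_cancel, cj_one] at h1
      exact h1
    · rintro ⟨g, hg⟩
      refine ⟨a * g * b⁻¹, ?_⟩
      have h1 := cj_mono a hg
      rw [cj_cj] at h1
      rw [cj_cj, inv_mul_cancel_right]
      exact h1)

theorem mk_le {G : Type} [Group G] (H K : Subgroup G) :
    Cls.mk H ≤ Cls.mk K ↔ ∃ g : G, H ≤ cj g K := Iff.rfl

instance (G : Type) [Group G] [Finite G] : PartialOrder (Cls G) where
  le_refl x := by
    induction x using Cls.ind with
    | h H => exact (mk_le H H).2 ⟨1, (cj_one H).ge⟩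
  le_trans x y z := by
    induction x using Cls.ind with
    | h H =>
    induction y using Cls.ind with
    | h K =>
    induction z using Cls.ind with
    | h L =>
      intro h1 h2
      obtain ⟨g, hg⟩ := (mk_le H K).1 h1
      obtain ⟨h, hh⟩ := (mk_le K L).1 h2
      refine (mk_le H L).2 ⟨g * h, ?_⟩
      rw [← cj_cj]
      exact hg.trans (cj_mono g hh)
  le_antisymm x y := by
    induction x using Cls.ind with
    | h H =>
    induction y using Cls.ind with
    | h K =>
      intro h1 h2
      obtain ⟨g, hg⟩ := (mk_le H K).1 h1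
      obtain ⟨h, hh⟩ := (mk_le K H).1 h2
      apply mk_eq g
      apply Subgroup.eq_of_le_of_card_ge hg
      rw [card_cj]
      exact (Subgroup.card_le_of_le hh).trans (card_cj h H).le

instance (G : Type) [Group G] [Finite G] : OrderTop (Cls G) where
  top := Cls.mk ⊤
  le_top x := by
    induction x using Cls.ind with
    | h H =>
      refine (mk_le H ⊤).2 ⟨1, ?_⟩
      rw [cj_one]
      exact le_top

instance (G : Type) [Group G] [Finite G] : Finite (Cls G) :=
  inferInstanceAs (Finite (Quotient (conjS G)))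

noncomputable instance (G : Type) [Group G] [Finite G] : Fintype (Cls G) := Fintype.ofFinite _

noncomputable instance (G : Type) [Group G] [Finite G] : DecidableEq (Cls G) := Classical.decEq _

open Classical in
noncomputable instance (G : Type) [Group G] [Finite G] : LocallyFiniteOrder (Cls G) :=
  Fintype.toLocallyFiniteOrder

section
variable {G : Type} [Group G] [Finite G]

theorem ne_one_of_card' (K : Subgroup G) (h : 1 < Nat.card K) : ∃ w ∈ K, w ≠ 1 := by
  by_contra hc
  push Not at hc
  have h1 : K = ⊥ := by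
    rw [eq_bot_iff]
    intro x hx
    exact Subgroup.mem_bot.2 (hc x hx)
  rw [h1, Subgroup.card_bot] at h
  exact lt_irrefl _ h

theorem lt_of (H K : Subgroup G) (g : G) (h : H ≤ cj g K) (hc : Nat.card H < Nat.card K) :
    Cls.mk H < Cls.mk K := by
  refine lt_of_le_not_ge ((mk_le H K).2 ⟨g, h⟩) ?_
  intro h'
  obtain ⟨a, ha⟩ := (mk_le K H).1 h'
  have h1 := Subgroup.card_le_of_le ha
  rw [card_cj] at h1
  omega

theorem of_lt (H K : Subgroup G) (h : Cls.mk H < Cls.mk K) :
    ∃ g : G, H ≤ cj g K ∧ Nat.card H < Nat.card K := by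
  obtain ⟨g, hg⟩ := (mk_le H K).1 h.le
  refine ⟨g, hg, ?_⟩
  by_contra hc
  push Not at hc
  have h1 : H = cj g K := by
    apply Subgroup.eq_of_le_of_card_ge hg
    rw [card_cj]
    exact hc
  exact h.ne (mk_eq g h1)

theorem half (H L : Subgroup G) (h : Nat.card H < Nat.card (H ⊓ L : Subgroup G) * 2) : H ≤ L := by
  have h1 : Nat.card (H ⊓ L : Subgroup G) ∣ Nat.card H := Subgroup.card_dvd_of_le inf_le_left
  obtain ⟨q, hq⟩ := h1
  have hH : 0 < Nat.card H := Nat.card_pos
  have hq2 : q < 2 := by
    by_contra hc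
    push Not at hc
    have := Nat.mul_le_mul_left (Nat.card (H ⊓ L : Subgroup G)) hc
    omega
  have hq1 : q = 1 := by
    interval_cases q
    · omega
    · rfl
  have h2 : H ⊓ L = H := by
    apply Subgroup.eq_of_le_of_card_ge inf_le_left
    rw [hq, hq1, mul_one]
  exact inf_eq_left.1 h2

end

end Pool.Agent.X317.GD
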