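import Mathlib

/-!
# The group `F_11² ⋊ Q_24`
-/

set_option autoImplicit false
set_option linter.all false

namespace Pool.Agent.X317.GD

/-- the dicyclic group of order `24` -/
abbrev CG : Type := QuaternionGroup 6

/-- a plane over the field with `11` elements -/
abbrev VV : Type := ZMod 11 × ZMod 11

/-- two by two matrices -/
abbrev M4 : Type := ZMod 11 × ZMod 11 × ZMod 11 × ZMod 11

/-- the action of a matrix on the plane -/
def act (m : M4) (v : VV) : VV := (m.1 * v.1 + m.2.1 * v.2, m.2.2.1 * v.1 + m.2.2.2 * v.2)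

/-- the product of matrices -/
def mulM (m n : M4) : M4 :=
  (m.1 * n.1 + m.2.1 * n.2.2.1, m.1 * n.2.1 + m.2.1 * n.2.2.2,
   m.2.2.1 * n.1 + m.2.2.2 * n.2.2.1, m.2.2.1 * n.2.1 + m.2.2.2 * n.2.2.2)

/-- the matrices of the elements `a ^ i` -/
def tA : List M4 := [(1, 0, 0, 1), (0, 10, 1, 5), (10, 6, 5, 2), (6, 9, 2, 5), (9, 6, 5, 1),
  (6, 10, 1, 0), (10, 0, 0, 10), (0, 1, 10, 6), (1, 5, 6, 9), (5, 2, 9, 6), (2, 5, 6, 10),
  (5, 1, 10, 0)]

/-- the matrices of the elements `x a ^ i` -/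
def tB : List M4 := [(2, 2, 3, 9), (2, 8, 9, 9), (8, 5, 9, 3), (5, 6, 3, 6), (6, 3, 6, 5),
  (3, 9, 5, 8), (9, 9, 8, 2), (9, 3, 2, 2), (3, 6, 2, 8), (6, 5, 8, 5), (5, 8, 5, 6),
  (8, 2, 6, 3)]

/-- the embedding of the dicyclic group into the group of two by two matrices -/
def tau : CG → M4
  | QuaternionGroup.a i => tA.getD (ZMod.val i) (0, 0, 0, 0)
  | QuaternionGroup.xa i => tB.getD (ZMod.val i) (0, 0, 0, 0)

set_option maxRecDepth 100000 in
theorem tau_mul : ∀ c d : CG, mulM (tau c) (tau d) = tau (c * d) := by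
  decide +kernel

theorem tau_one : tau 1 = (1, 0, 0, 1) := by
  decide +kernel

theorem tau_inj : ∀ c : CG, tau c = (1, 0, 0, 1) → c = 1 := by
  decide +kernel

/-- the central involution -/
def zeta : CG := QuaternionGroup.a 6

theorem invol : ∀ c : CG, c * c = 1 → c ≠ 1 → c = zeta := by
  decide +kernel

theorem zeta_central : ∀ c : CG, c * zeta = zeta * c := by
  decide +kernel

theorem zeta_sq : zeta * zeta = 1 := by
  decide +kernel

theorem zeta_ne : zeta ≠ 1 := by
  decide +kernel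

theorem no_eig : ∀ c : CG, c ≠ 1 → c ≠ zeta → ∀ l : ZMod 11,
    ((tau c).1 - l) * ((tau c).2.2.2 - l) - (tau c).2.1 * (tau c).2.2.1 ≠ 0 := by
  decide +kernel

theorem card_CG : Nat.card CG = 24 := by
  rw [Nat.card_eq_fintype_card, QuaternionGroup.card]

end Pool.Agent.X317.GD
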