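import Mathlib
import Pool.Agent.X317.GD.QG
import Pool.Agent.X317.GD.Cls

/-!
# The group `F_11² ⋊ Q_24`: basic properties
-/

set_option autoImplicit false
set_option linter.all false

namespace Pool.Agent.X317.GD

theorem act_mul (m n : M4) (v : VV) : act (mulM m n) v = act m (act n v) := by
  unfold act mulM
  ext <;> simp only <;> ring

theorem act_add (m : M4) (v w : VV) : act m (v + w) = act m v + act m w := by
  unfold act
  ext <;> simp only [Prod.fst_add, Prod.snd_add] <;> ring

theorem act_neg (m : M4) (v : VV) : act m (-v) = - act m v := by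
  unfold act
  ext <;> simp only [Prod.fst_neg, Prod.snd_neg] <;> ring

theorem act_one (v : VV) : act (1, 0, 0, 1) v = v := by
  unfold act
  ext <;> simp

theorem act_tau (c d : CG) (v : VV) : act (tau (c * d)) v = act (tau c) (act (tau d) v) := by
  rw [← tau_mul, act_mul]

theorem act_tau_one (v : VV) : act (tau 1) v = v := by
  rw [tau_one, act_one]

/-- the group `F_11² ⋊ Q_24` -/
@[ext]
structure GG where
  /-- the component in the dicyclic group -/
  c : CG
  /-- the translation part -/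
  v : VV

instance : Mul GG := ⟨fun x y => ⟨x.c * y.c, x.v + act (tau x.c) y.v⟩⟩
instance : One GG := ⟨⟨1, 0⟩⟩
instance : Inv GG := ⟨fun x => ⟨x.c⁻¹, -(act (tau x.c⁻¹) x.v)⟩⟩

theorem gmul_c (x y : GG) : (x * y).c = x.c * y.c := rfl
theorem gmul_v (x y : GG) : (x * y).v = x.v + act (tau x.c) y.v := rfl
theorem gone_c : (1 : GG).c = 1 := rfl
theorem gone_v : (1 : GG).v = 0 := rfl
theorem ginv_c (x : GG) : (x⁻¹).c = x.c⁻¹ := rfl
theorem ginv_v (x : GG) : (x⁻¹).v = -(act (tau x.c⁻¹) x.v) := rfl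

instance : Group GG := Group.ofLeftAxioms
  (by
    intro x y z
    apply GG.ext
    · rw [gmul_c, gmul_c, gmul_c, gmul_c, mul_assoc]
    · rw [gmul_v, gmul_v, gmul_v, gmul_v, gmul_c, act_tau, act_add, add_assoc])
  (by
    intro x
    apply GG.ext
    · rw [gmul_c, gone_c, one_mul]
    · rw [gmul_v, gone_v, gone_c, act_tau_one, zero_add])
  (by
    intro x
    apply GG.ext
    · rw [gmul_c, ginv_c, inv_mul_cancel, gone_c]
    · rw [gmul_v, ginv_v, ginv_c, neg_add_cancel, gone_v])

/-- elements of the group as pairs -/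
def ggEquiv : GG ≃ CG × VV where
  toFun x := (x.c, x.v)
  invFun p := ⟨p.1, p.2⟩
  left_inv _ := rfl
  right_inv _ := rfl

instance : Finite GG := Finite.of_equiv _ ggEquiv.symm

theorem card_VV : Nat.card VV = 121 := by
  rw [Nat.card_prod, Nat.card_zmod]

theorem card_GG : Nat.card GG = 2904 := by
  rw [Nat.card_congr ggEquiv, Nat.card_prod, card_CG, card_VV]

/-- the projection to the dicyclic group -/
def pi : GG →* CG where
  toFun x := x.c
  map_one' := rfl
  map_mul' _ _ := rfl

/-- the section -/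
def sg : CG →* GG where
  toFun c := ⟨c, 0⟩
  map_one' := rfl
  map_mul' c d := by
    apply GG.ext
    · rfl
    · rw [gmul_v]
      show (0 : VV) = 0 + act (tau c) 0
      unfold act
      ext <;> simp

theorem sg_inj : Function.Injective sg := fun c d h => congrArg GG.c h

theorem pi_sg (c : CG) : pi (sg c) = c := rfl

/-- the normal subgroup of translations -/
abbrev NN : Subgroup GG := pi.ker

theorem mem_NN (g : GG) : g ∈ NN ↔ g.c = 1 := MonoidHom.mem_ker

/-- translations -/
def tr (v : VV) : GG := ⟨1, v⟩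

theorem tr_mem (v : VV) : tr v ∈ NN := (mem_NN _).2 rfl

theorem tr_mul (v w : VV) : tr v * tr w = tr (v + w) := by
  apply GG.ext
  · rw [gmul_c]
    exact one_mul 1
  · rw [gmul_v]
    show v + act (tau 1) w = v + w
    rw [act_tau_one]

theorem tr_pow (v : VV) (n : ℕ) : tr v ^ n = tr (n • v) := by
  induction n with
  | zero =>
    rw [pow_zero, zero_smul]
    rfl
  | succ n ih => rw [pow_succ, ih, tr_mul, succ_nsmul]

theorem eq_tr (g : GG) (h : g ∈ NN) : g = tr g.v := GG.ext ((mem_NN g).1 h) rfl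

theorem conj_tr (g : GG) (v : VV) : g * tr v * g⁻¹ = tr (act (tau g.c) v) := by
  rw [mul_inv_eq_iff_eq_mul]
  apply GG.ext
  · rw [gmul_c, gmul_c]
    show g.c * 1 = 1 * g.c
    rw [mul_one, one_mul]
  · rw [gmul_v, gmul_v]
    show g.v + act (tau g.c) v = act (tau g.c) v + act (tau 1) g.v
    rw [act_tau_one, add_comm]

/-- the translations as a set -/
def trNN : NN ≃ VV where
  toFun x := x.1.v
  invFun v := ⟨tr v, tr_mem v⟩
  left_inv x := Subtype.ext (eq_tr x.1 x.2).symm
  right_inv _ := rfl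

theorem card_NN : Nat.card NN = 121 := by
  rw [Nat.card_congr trNN, card_VV]

/-- the centralizer of the translations -/
theorem cent_NN (g : GG) (h : ∀ n ∈ NN, g * n = n * g) : g ∈ NN := by
  rw [mem_NN]
  apply tau_inj
  have key : ∀ v : VV, act (tau g.c) v = v := by
    intro v
    have h1 := h (tr v) (tr_mem v)
    have h2 := conj_tr g v
    rw [h1, mul_inv_cancel_right] at h2
    exact (congrArg GG.v h2).symm
  have k1 := key (1, 0)
  have k2 := key (0, 1)
  unfold act at k1 k2
  rw [Prod.ext_iff] at k1 k2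
  simp only [mul_one, mul_zero, add_zero, zero_add] at k1 k2
  exact Prod.ext k1.1 (Prod.ext k2.1 (Prod.ext k1.2 k2.2))

/-- no line is invariant under an element outside the centre of the complement -/
theorem irr (g : GG) (h1 : g.c ≠ 1) (h2 : g.c ≠ zeta) (X : Subgroup GG) (hX : X ≤ NN)
    (hc : Nat.card X = 11) (hg : ∀ x ∈ X, g * x * g⁻¹ ∈ X) : False := by
  haveI : Fact (Nat.Prime 11) := ⟨by norm_num⟩
  obtain ⟨x, hx, hx1⟩ := ne_one_of_card' X (by omega)
  obtain ⟨n, hn⟩ := mem_powers_of_prime_card (p := 11) (G := X) hc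
    (g := ⟨x, hx⟩) (g' := ⟨g * x * g⁻¹, hg x hx⟩) (fun h => hx1 (congrArg Subtype.val h))
  have h3 : x ^ n = g * x * g⁻¹ := congrArg Subtype.val hn
  have hxt : x = tr x.v := eq_tr x (hX hx)
  rw [hxt, tr_pow, conj_tr] at h3
  have h4 : (n : ℕ) • x.v = act (tau g.c) x.v := congrArg GG.v h3
  have hv : x.v ≠ 0 := by
    intro h
    apply hx1
    rw [hxt, h]
    rfl
  have e1 : n • x.v.1 = (tau g.c).1 * x.v.1 + (tau g.c).2.1 * x.v.2 := congrArg Prod.fst h4
  have e2 : n • x.v.2 = (tau g.c).2.2.1 * x.v.1 + (tau g.c).2.2.2 * x.v.2 := congrArg Prod.snd h4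
  rw [nsmul_eq_mul] at e1 e2
  have hne := no_eig g.c h1 h2 (n : ZMod 11)
  have d1 : (((tau g.c).1 - (n : ZMod 11)) * ((tau g.c).2.2.2 - (n : ZMod 11)) -
      (tau g.c).2.1 * (tau g.c).2.2.1) * x.v.1 = 0 := by
    linear_combination (-((tau g.c).2.2.2 - (n : ZMod 11))) * e1 + (tau g.c).2.1 * e2
  have d2 : (((tau g.c).1 - (n : ZMod 11)) * ((tau g.c).2.2.2 - (n : ZMod 11)) -
      (tau g.c).2.1 * (tau g.c).2.2.1) * x.v.2 = 0 := by
    linear_combination (-((tau g.c).1 - (n : ZMod 11))) * e2 + (tau g.c).2.2.1 * e1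
  apply hv
  apply Prod.ext
  · exact (mul_eq_zero.1 d1).resolve_left hne
  · exact (mul_eq_zero.1 d2).resolve_left hne

end Pool.Agent.X317.GD
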