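import Mathlib
import Pool.Agent.X317.GD.QG2

/-!
# Frattini subgroups, involutions and ranks
-/

set_option autoImplicit false
set_option linter.all false

namespace Pool.Agent.X317.GD

section Fr
variable {G : Type} [Group G]

/-- the Frattini subgroup of `H` as a subgroup of `G` -/
def Fr (H : Subgroup G) : Subgroup G := (frattini H).map H.subtype

theorem Fr_le (H : Subgroup G) : Fr H ≤ H := Subgroup.map_subtype_le _

theorem Fr_normal (H : Subgroup G) (h k : G) (hh : h ∈ H) (hk : k ∈ Fr H) :
    h * k * h⁻¹ ∈ Fr H := by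
  obtain ⟨k', hk', rfl⟩ := hk
  have hn : (frattini H).Normal := inferInstance
  exact ⟨⟨h, hh⟩ * k' * ⟨h, hh⟩⁻¹, hn.conj_mem k' hk' _, rfl⟩

theorem Fr_nongen [Finite G] (H y x : Subgroup G) (hy : y < H) (hx : x ≤ Fr H) : y ⊔ x ≠ H := by
  intro h
  have h1 : y.subgroupOf H ⊔ frattini H = ⊤ := by
    apply Subgroup.map_injective H.subtype_injective
    rw [Subgroup.map_sup, Subgroup.subgroupOf_map_subtype, inf_eq_left.2 hy.le,
      ← MonoidHom.range_eq_map, Subgroup.range_subtype]
    apply le_antisymm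
    · exact sup_le hy.le (Fr_le H)
    · conv_lhs => rw [← h]
      exact sup_le_sup_left hx y
  have h2 := frattini_nongenerating h1
  exact absurd (Subgroup.subgroupOf_eq_top.1 h2) (not_le_of_gt hy)

theorem Fr_gen [Finite G] (H x : Subgroup G) (hx : x ≤ H) (h : ∀ y, y < H → y ⊔ x ≠ H) :
    x ≤ Fr H := by
  have h1 : x.subgroupOf H ≤ frattini H := by
    unfold frattini Order.radical
    refine le_iInf₂ ?_
    intro M hM
    by_contra hc
    have h2 : M ⊔ x.subgroupOf H = ⊤ :=
      hM.2 _ (lt_of_le_of_ne le_sup_left (fun h => hc (by rw [h]; exact le_sup_right)))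
    have h3 := congrArg (Subgroup.map H.subtype) h2
    rw [Subgroup.map_sup, Subgroup.subgroupOf_map_subtype, inf_eq_left.2 hx,
      ← MonoidHom.range_eq_map, Subgroup.range_subtype] at h3
    refine h (M.map H.subtype) (lt_of_le_of_ne (Subgroup.map_subtype_le M) ?_) h3
    intro h4
    apply hM.1
    apply Subgroup.map_injective H.subtype_injective
    rw [h4, ← MonoidHom.range_eq_map, Subgroup.range_subtype]
  have h5 : x = (x.subgroupOf H).map H.subtype := by
    rw [Subgroup.subgroupOf_map_subtype, inf_eq_left.2 hx]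
  rw [h5]
  exact Subgroup.map_mono h1

end Fr

theorem inj_of (y : Subgroup GG) (hy : y ⊓ NN = ⊥) (g g' : GG) (hg : g ∈ y) (hg' : g' ∈ y)
    (h : pi g = pi g') : g = g' := by
  have h1 : g * g'⁻¹ ∈ y ⊓ NN := by
    refine Subgroup.mem_inf.2 ⟨y.mul_mem hg (y.inv_mem hg'), ?_⟩
    rw [MonoidHom.mem_ker, map_mul, map_inv, h, mul_inv_cancel]
  rw [hy, Subgroup.mem_bot] at h1
  exact mul_inv_eq_one.1 h1

theorem inv_pi (y : Subgroup GG) (hy : y ⊓ NN = ⊥) (g : GG) (hg : g ∈ y) (h2 : g * g = 1)
    (h1 : g ≠ 1) : pi g = zeta := by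
  apply invol
  · rw [← map_mul, h2, map_one]
  · intro h
    apply h1
    apply inj_of y hy g 1 hg y.one_mem
    rw [h, map_one]

theorem two_elt (y : Subgroup GG) (h : 2 ∣ Nat.card y) : ∃ z ∈ y, z ≠ 1 ∧ z * z = 1 := by
  haveI : Fact (Nat.Prime 2) := ⟨Nat.prime_two⟩
  obtain ⟨z0, hz0⟩ := exists_prime_orderOf_dvd_card' (G := y) 2 h
  refine ⟨z0.1, z0.2, ?_, ?_⟩
  · intro h1
    have h2 : z0 = 1 := Subtype.ext h1
    rw [h2, orderOf_one] at hz0
    omega
  · have h3 := pow_orderOf_eq_one z0
    rw [hz0, pow_two] at h3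
    exact congrArg Subtype.val h3

theorem inv_lemma (y : Subgroup GG) (hy : y ⊓ NN = ⊥) (h4 : 4 ∣ Nat.card y) :
    ∃ x : Subgroup GG, x ≤ y ∧ x ≠ ⊥ ∧ ∀ y', y' < y → y' ⊔ x ≠ y := by
  obtain ⟨z, hzy, hz1, hz2⟩ := two_elt y (dvd_trans (by norm_num) h4)
  refine ⟨Subgroup.zpowers z, Subgroup.zpowers_le.2 hzy, ?_, ?_⟩
  · intro h
    have h1 := Subgroup.mem_zpowers z
    rw [h, Subgroup.mem_bot] at h1
    exact hz1 h1
  · intro y' hy' hsup
    have hzpi := inv_pi y hy z hzy hz2 hz1
    have hzy' : z ∉ y' := by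
      intro h
      apply hy'.ne
      rw [← hsup]
      exact (sup_eq_left.2 (Subgroup.zpowers_le.2 h)).symm
    have hodd : ¬ 2 ∣ Nat.card y' := by
      intro h
      obtain ⟨w, hwy', hw1, hw2⟩ := two_elt y' h
      have hw := inv_pi y hy w (hy'.le hwy') hw2 hw1
      have := inj_of y hy w z (hy'.le hwy') hzy (hw.trans hzpi.symm)
      rw [this] at hwy'
      exact hzy' hwy'
    have hcen : ∀ g ∈ y, g * z = z * g := by
      intro g hg
      apply inj_of y hy _ _ (y.mul_mem hg hzy) (y.mul_mem hzy hg)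
      rw [map_mul, map_mul, hzpi, zeta_central]
    have hzinv : z⁻¹ = z := (eq_inv_of_mul_eq_one_left hz2).symm
    let S : Subgroup GG :=
      { carrier := {g | g ∈ y ∧ (g ∈ y' ∨ g * z ∈ y')}
        one_mem' := ⟨y.one_mem, Or.inl y'.one_mem⟩
        mul_mem' := by
          rintro a b ⟨ha, ha'⟩ ⟨hb, hb'⟩
          refine ⟨y.mul_mem ha hb, ?_⟩
          rcases ha' with ha' | ha' <;> rcases hb' with hb' | hb'
          · exact Or.inl (y'.mul_mem ha' hb')
          · right
            rw [mul_assoc]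
            exact y'.mul_mem ha' hb'
          · right
            rw [mul_assoc, hcen b hb, ← mul_assoc]
            exact y'.mul_mem ha' hb'
          · left
            have h := y'.mul_mem ha' hb'
            have e : a * z * (b * z) = a * b := by
              rw [hcen b hb, mul_assoc, ← mul_assoc z z b, hz2, one_mul]
            rwa [e] at h
        inv_mem' := by
          rintro a ⟨ha, ha'⟩
          refine ⟨y.inv_mem ha, ?_⟩
          rcases ha' with ha' | ha'
          · exact Or.inl (y'.inv_mem ha')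
          · right
            have h := y'.inv_mem ha'
            rw [mul_inv_rev, hzinv, ← hcen _ (y.inv_mem ha)] at h
            exact h }
    have hyS : y ≤ S := by
      conv_lhs => rw [← hsup]
      refine sup_le ?_ (Subgroup.zpowers_le.2 ?_)
      · intro g hg
        exact ⟨hy'.le hg, Or.inl hg⟩
      · refine ⟨hzy, Or.inr ?_⟩
        rw [hz2]
        exact y'.one_mem
    have hidx : (y'.subgroupOf y).index = 2 := by
      rw [Subgroup.index_eq_two_iff_exists_notMem_and]
      refine ⟨⟨z, hzy⟩, ?_, ?_⟩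
      · intro h
        exact hzy' (Subgroup.mem_subgroupOf.1 h)
      · rintro ⟨b, hb⟩
        rcases (hyS hb).2 with h | h
        · exact Or.inr (Subgroup.mem_subgroupOf.2 h)
        · exact Or.inl (Subgroup.mem_subgroupOf.2 h)
    have hcard := Subgroup.card_mul_index (y'.subgroupOf y)
    rw [hidx, Nat.card_congr (Subgroup.subgroupOfEquivOfLe hy'.le).toEquiv] at hcard
    rw [← hcard] at h4
    apply hodd
    obtain ⟨m, hm⟩ := h4
    exact ⟨m, by omega⟩

/-- the order is the product of the order of the intersection with the translations and the order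
of the image -/
theorem card_prod' (H : Subgroup GG) :
    Nat.card H = Nat.card (H ⊓ NN : Subgroup GG) * Nat.card (H.map pi) := by
  let f : H →* CG := pi.comp H.subtype
  have h1 := Subgroup.card_mul_index f.ker
  rw [Subgroup.index_ker] at h1
  have h2 : f.range = H.map pi := by
    ext c
    constructor
    · rintro ⟨x, rfl⟩
      exact ⟨x.1, x.2, rfl⟩
    · rintro ⟨x, hx, rfl⟩
      exact ⟨⟨x, hx⟩, rfl⟩
  have h3 : Nat.card f.ker = Nat.card (H ⊓ NN : Subgroup GG) := by
    have h4 : f.ker.map H.subtype = H ⊓ NN := by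
      ext x
      constructor
      · rintro ⟨x, hx, rfl⟩
        exact ⟨x.2, hx⟩
      · rintro ⟨hx1, hx2⟩
        exact ⟨⟨x, hx1⟩, hx2, rfl⟩
    rw [← h4]
    exact (Subgroup.card_map_of_injective H.subtype_injective).symm
  rw [← h1, h2, h3]

theorem dvd_121 (H : Subgroup GG) : Nat.card (H ⊓ NN : Subgroup GG) ∣ 121 := by
  rw [← card_NN]
  exact Subgroup.card_dvd_of_le inf_le_right

theorem dvd_24 (H : Subgroup GG) : Nat.card (H.map pi) ∣ 24 := by
  rw [← card_CG]
  exact Subgroup.card_subgroup_dvd_card _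

theorem three_cases (H : Subgroup GG) : Nat.card (H ⊓ NN : Subgroup GG) = 1 ∨
    Nat.card (H ⊓ NN : Subgroup GG) = 11 ∨ Nat.card (H ⊓ NN : Subgroup GG) = 121 := by
  have h : Nat.card (H ⊓ NN : Subgroup GG) ∣ 11 ^ 2 := dvd_121 H
  obtain ⟨i, hi, h2⟩ := (Nat.dvd_prime_pow (by norm_num : Nat.Prime 11)).1 h
  interval_cases i
  · left; simpa using h2
  · right; left; simpa using h2
  · right; right; simpa using h2

/-- the rank function -/
noncomputable def rk (H : Subgroup GG) : ℕ :=
  Nat.log 11 (Nat.card (H ⊓ NN : Subgroup GG)) + Nat.log 2 (Nat.card (H.map pi))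

theorem rk_lt (H H' : Subgroup GG) (h : H < H') : rk H < rk H' := by
  have ha : Nat.card (H ⊓ NN : Subgroup GG) ∣ Nat.card (H' ⊓ NN : Subgroup GG) :=
    Subgroup.card_dvd_of_le (inf_le_inf_right _ h.le)
  have hb : Nat.card (H.map pi) ∣ Nat.card (H'.map pi) :=
    Subgroup.card_dvd_of_le (Subgroup.map_mono h.le)
  have pa : 0 < Nat.card (H ⊓ NN : Subgroup GG) := Nat.card_pos
  have pa' : 0 < Nat.card (H' ⊓ NN : Subgroup GG) := Nat.card_pos
  have pb : 0 < Nat.card (H.map pi) := Nat.card_pos
  have pb' : 0 < Nat.card (H'.map pi) := Nat.card_pos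
  have la := Nat.le_of_dvd pa' ha
  have lb := Nat.le_of_dvd pb' hb
  have ma : Nat.log 11 (Nat.card (H ⊓ NN : Subgroup GG)) ≤
      Nat.log 11 (Nat.card (H' ⊓ NN : Subgroup GG)) := Nat.log_mono_right la
  have mb : Nat.log 2 (Nat.card (H.map pi)) ≤ Nat.log 2 (Nat.card (H'.map pi)) :=
    Nat.log_mono_right lb
  unfold rk
  rcases lt_or_eq_of_le la with hlt | heq
  · have : Nat.log 11 (Nat.card (H ⊓ NN : Subgroup GG)) <
        Nat.log 11 (Nat.card (H' ⊓ NN : Subgroup GG)) := by
      have l1 : Nat.log 11 1 = 0 := by norm_num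
      have l2 : Nat.log 11 11 = 1 := by norm_num
      have l3 : Nat.log 11 121 = 2 := by
        have : (121 : ℕ) = 11 ^ 2 := by norm_num
        rw [this, Nat.log_pow (by norm_num)]
      rcases three_cases H with h1 | h1 | h1 <;> rcases three_cases H' with h2 | h2 | h2 <;>
        rw [h1, h2] at hlt ⊢ <;> omega
    omega
  · rcases lt_or_eq_of_le lb with hlt | heq'
    · have : Nat.log 2 (Nat.card (H.map pi)) < Nat.log 2 (Nat.card (H'.map pi)) := by
        obtain ⟨m, hm⟩ := hb
        have hm2 : 2 ≤ m := by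
          by_contra hc
          push Not at hc
          interval_cases m
          · omega
          · omega
        have h3 : Nat.card (H.map pi) * 2 ≤ Nat.card (H'.map pi) := by
          rw [hm]
          exact Nat.mul_le_mul_left _ hm2
        have h4 := Nat.log_mono_right (b := 2) h3
        rw [Nat.log_mul_base (by norm_num) (by omega)] at h4
        omega
      omega
    · exfalso
      apply h.ne
      apply Subgroup.eq_of_le_of_card_ge h.le
      rw [card_prod' H, card_prod' H', heq, heq']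

end Pool.Agent.X317.GD
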