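import Mathlib
import Pool.Agent.X317.GD.QG3
import Pool.Agent.X317.GD.ExtC

/-!
# Vanishing for the Frattini pairs
-/

set_option autoImplicit false
set_option linter.all false

namespace Pool.Agent.X317.GD

theorem exists_c (H : Subgroup GG) (h : 3 ≤ Nat.card (H.map pi)) :
    ∃ g ∈ H, g.c ≠ 1 ∧ g.c ≠ zeta := by
  by_contra hc
  push Not at hc
  have h1 : ((H.map pi : Subgroup CG) : Set CG) ⊆ {1, zeta} := by
    rintro c ⟨g, hg, rfl⟩
    by_cases h0 : g.c = 1
    · exact Or.inl h0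
    · exact Or.inr (hc g hg h0)
  have h2 : Nat.card (H.map pi) ≤ 2 := by
    have h3 := Set.ncard_le_ncard h1 (Set.toFinite _)
    rw [Set.ncard_pair zeta_ne.symm] at h3
    exact h3
  omega

theorem inf_conj (H : Subgroup GG) (g : GG) (hg : g ∈ H) :
    ∀ x ∈ H ⊓ NN, g * x * g⁻¹ ∈ H ⊓ NN := by
  intro x hx
  obtain ⟨h1, h2⟩ := Subgroup.mem_inf.1 hx
  refine Subgroup.mem_inf.2 ⟨H.mul_mem (H.mul_mem hg h1) (H.inv_mem hg), ?_⟩
  exact (inferInstance : NN.Normal).conj_mem x h2 g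

theorem case11 (H : Subgroup GG) (h : Nat.card (H ⊓ NN : Subgroup GG) = 11) :
    Nat.card (H.map pi) ≤ 2 := by
  by_contra hc
  push Not at hc
  obtain ⟨g, hg, h1, h2⟩ := exists_c H (by omega)
  exact irr g h1 h2 (H ⊓ NN) inf_le_right h (inf_conj H g hg)

theorem NN_le (H : Subgroup GG) (h : Nat.card (H ⊓ NN : Subgroup GG) = 121) : NN ≤ H := by
  have h1 : H ⊓ NN = NN := by
    apply Subgroup.eq_of_le_of_card_ge inf_le_right
    rw [h, card_NN]
  rw [← h1]
  exact inf_le_left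

theorem NN_comm (x t : GG) (hx : x ∈ NN) (ht : t ∈ NN) : t * x * t⁻¹ = x := by
  rw [eq_tr x hx, conj_tr, (mem_NN t).1 ht, act_tau_one]

theorem bot_of_card (H : Subgroup GG) (h : Nat.card (H ⊓ NN : Subgroup GG) = 1) : H ⊓ NN = ⊥ :=
  Subgroup.card_eq_one.1 h

theorem comp_inf (H : Subgroup GG) (hb : 3 ≤ Nat.card (H.map pi)) :
    ∀ y ∈ Cp NN H, y ⊓ NN = ⊥ := by
  rintro y ⟨hy, hyH⟩
  have hH : ∀ g ∈ H, ∀ x ∈ y ⊓ NN, g * x * g⁻¹ ∈ y ⊓ NN := by
    intro g hg x hx
    rw [← hyH, Subgroup.mem_sup_of_normal_right] at hg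
    obtain ⟨s, hs, t, ht, rfl⟩ := hg
    have e : s * t * x * (s * t)⁻¹ = s * x * s⁻¹ := by
      have e1 := NN_comm x t (Subgroup.mem_inf.1 hx).2 ht
      calc s * t * x * (s * t)⁻¹ = s * (t * x * t⁻¹) * s⁻¹ := by group
        _ = s * x * s⁻¹ := by rw [e1]
    rw [e]
    exact inf_conj y s hs x hx
  rcases three_cases y with h | h | h
  · exact bot_of_card y h
  · exfalso
    obtain ⟨g, hg, h1, h2⟩ := exists_c H hb
    exact irr g h1 h2 (y ⊓ NN) inf_le_right h (hH g hg)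
  · exfalso
    have h1 := NN_le y h
    rw [sup_eq_left.2 h1] at hyH
    exact hy.ne hyH

theorem ant {G : Type} [Group G] (x y z h : Subgroup G) [x.Normal] (hyz : y ≤ z)
    (hzx : z ⊓ x ≤ y) (hy : y ⊔ x = h) (hz : z ≤ h) : y = z := by
  apply le_antisymm hyz
  intro g hg
  have h1 := hz hg
  rw [← hy, Subgroup.mem_sup_of_normal_right] at h1
  obtain ⟨s, hs, t, ht, rfl⟩ := h1
  have h2 : t ∈ z := by
    have := z.mul_mem (z.inv_mem (hyz hs)) hg
    rwa [inv_mul_cancel_left] at this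
  exact y.mul_mem hs (hzx (Subgroup.mem_inf.2 ⟨h2, ht⟩))

theorem comp_anti (H : Subgroup GG) (hb : 3 ≤ Nat.card (H.map pi)) :
    ∀ y ∈ Cp NN H, ∀ z ∈ Cp NN H, y ≤ z → y = z := by
  intro y hy z hz hyz
  apply ant NN y z H hyz _ hy.2 hz.1.le
  rw [comp_inf H hb z hz]
  exact bot_le

theorem tr_sg (g : GG) : tr g.v * sg g.c = g := by
  apply GG.ext
  · exact one_mul _
  · rw [gmul_v]
    show g.v + act (tau 1) 0 = g.v
    rw [act_tau_one, add_zero]

theorem NN_not_range : ¬ NN ≤ sg.range := by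
  intro h
  obtain ⟨c, hc⟩ := h (tr_mem (1, 0))
  have h1 : (0 : VV) = (1, 0) := congrArg GG.v hc
  have h2 : (0 : ZMod 11) = 1 := congrArg Prod.fst h1
  exact absurd h2 (by decide)

theorem sup_NN (H : Subgroup GG) (hN : NN ≤ H) : (H ⊓ sg.range) ⊔ NN = H := by
  apply le_antisymm (sup_le inf_le_left hN)
  intro g hg
  have h1 : sg g.c ∈ H := by
    have h2 := H.mul_mem (H.inv_mem (hN (tr_mem g.v))) hg
    have h3 : (tr g.v)⁻¹ * g = sg g.c := by
      rw [inv_mul_eq_iff_eq_mul]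
      exact (tr_sg g).symm
    rwa [h3] at h2
  rw [← tr_sg g]
  exact Subgroup.mul_mem _ (Subgroup.mem_sup_right (tr_mem g.v))
    (Subgroup.mem_sup_left (Subgroup.mem_inf.2 ⟨h1, ⟨g.c, rfl⟩⟩))

theorem lt_NN (H : Subgroup GG) (hN : NN ≤ H) : H ⊓ sg.range < H := by
  refine lt_of_le_of_ne inf_le_left ?_
  intro h
  apply NN_not_range
  exact (hN.trans h.ge).trans inf_le_right

theorem NN_not_Fr (H : Subgroup GG) (hN : NN ≤ H) : ¬ NN ≤ Fr H :=
  fun h => Fr_nongen H (H ⊓ sg.range) NN (lt_NN H hN) h (sup_NN H hN)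

theorem Fr_bot (H : Subgroup GG) (hN : NN ≤ H) (y : Subgroup GG) (hy : y ⊓ NN = ⊥)
    (hK : Fr H ≤ y) : Fr H = ⊥ := by
  rw [eq_bot_iff]
  intro k hk
  have h1 : k ∈ NN := by
    apply cent_NN
    intro n hn
    have h2 : k * n * k⁻¹ * n⁻¹ ∈ y ⊓ NN := by
      refine Subgroup.mem_inf.2 ⟨?_, ?_⟩
      · apply hK
        have h3 := Fr_normal H n k⁻¹ (hN hn) ((Fr H).inv_mem hk)
        have h4 := (Fr H).mul_mem hk h3
        have e : k * (n * k⁻¹ * n⁻¹) = k * n * k⁻¹ * n⁻¹ := by group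
        rwa [e] at h4
      · exact NN.mul_mem ((inferInstance : NN.Normal).conj_mem n hn k) (NN.inv_mem hn)
    rw [hy, Subgroup.mem_bot] at h2
    have h5 := mul_inv_eq_one.1 h2
    exact mul_inv_eq_iff_eq_mul.1 h5
  have h2 : k ∈ y ⊓ NN := Subgroup.mem_inf.2 ⟨hK hk, h1⟩
  rwa [hy] at h2

theorem log_le (b k : ℕ) (hk : k ≠ 0) (h : b < 2 ^ k) : Nat.log 2 b < k :=
  Nat.log_lt_of_lt_pow' hk h

theorem card_eq_of (y : Subgroup GG) (hy : y ⊓ NN = ⊥) : Nat.card y = Nat.card (y.map pi) := by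
  rw [card_prod', hy, Subgroup.card_bot, one_mul]

theorem rk_of (y : Subgroup GG) (hy : y ⊓ NN = ⊥) : rk y = Nat.log 2 (Nat.card y) := by
  rw [card_eq_of y hy]
  unfold rk
  rw [hy, Subgroup.card_bot, Nat.log_one_right, zero_add]

theorem rk_bot : rk ⊥ = 0 := by
  rw [rk_of ⊥ (bot_inf_eq _), Subgroup.card_bot, Nat.log_one_right]

theorem small (b : ℕ) (h : b ∣ 24) (h4 : ¬ 4 ∣ b) : b < 8 := by
  have h1 : b ≤ 24 := Nat.le_of_dvd (by norm_num) h
  interval_cases b <;> revert h h4 <;> decide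

section
variable [Fintype (Subgroup GG)] [DecidableEq (Subgroup GG)] [LocallyFiniteOrder (Subgroup GG)]

theorem VC_rk (n : ℕ) (h k : Subgroup GG) (H : ¬ k ≤ h ∨ rk h < rk k + n) : VC n h k :=
  VC_rank rk rk_lt k n h H

theorem cmp (y : Subgroup GG) (hy : y ⊓ NN = ⊥) (n : ℕ) (hn : 3 ≤ n) : VC n y ⊥ := by
  by_cases h4 : 4 ∣ Nat.card y
  · obtain ⟨x, hx, hx1, hx2⟩ := inv_lemma y hy h4
    obtain ⟨m, rfl⟩ : ∃ m, n = m + 1 := ⟨n - 1, by omega⟩
    apply rec_V m x y ⊥ hx (fun h => hx1 (le_bot_iff.1 h))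
    · intro z hz
      exact absurd hz.2 (hx2 z hz.1)
    · intro z hz
      exact absurd hz.2 (hx2 z hz.1)
  · apply VC_rk
    right
    have h1 : Nat.card y ∣ 24 := by
      rw [card_eq_of y hy]
      exact dvd_24 y
    have h2 := log_le (Nat.card y) 3 (by norm_num) (small _ h1 h4)
    rw [rk_of y hy, rk_bot]
    omega

theorem main_van (H : Subgroup GG) (n : ℕ) (hn : 4 ≤ n) : VC n H (Fr H) := by
  rcases three_cases H with h | h | h
  · have hH := bot_of_card H h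
    have h1 : Nat.card H ∣ 24 := by
      rw [card_eq_of H hH]
      exact dvd_24 H
    by_cases h4 : 4 ∣ Nat.card H
    · obtain ⟨x, hx, hx1, hx2⟩ := inv_lemma H hH h4
      have h2 : x ≤ Fr H := Fr_gen H x hx hx2
      have h3 : rk ⊥ < rk (Fr H) := by
        apply rk_lt
        rw [bot_lt_iff_ne_bot]
        intro h5
        rw [h5] at h2
        exact hx1 (le_bot_iff.1 h2)
      rw [rk_bot] at h3
      have h6 := log_le (Nat.card H) 5 (by norm_num)
        (lt_of_le_of_lt (Nat.le_of_dvd (by norm_num) h1) (by norm_num))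
      apply VC_rk
      right
      rw [rk_of H hH]
      omega
    · apply VC_rk
      right
      have h2 := log_le (Nat.card H) 3 (by norm_num) (small _ h1 h4)
      rw [rk_of H hH]
      omega
  · apply VC_rk
    right
    have h1 := case11 H h
    have h2 : Nat.log 2 (Nat.card (H.map pi)) < 2 :=
      log_le _ 2 (by norm_num) (by omega)
    have h3 : Nat.log 11 11 = 1 := by norm_num
    have h4 : rk H = 1 + Nat.log 2 (Nat.card (H.map pi)) := by
      unfold rk
      rw [h, h3]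
    omega
  · have hN := NN_le H h
    have h3 : Nat.log 11 121 = 2 := by
      have : (121 : ℕ) = 11 ^ 2 := by norm_num
      rw [this, Nat.log_pow (by norm_num)]
    by_cases hb : Nat.card (H.map pi) < 4
    · apply VC_rk
      right
      have h2 : Nat.log 2 (Nat.card (H.map pi)) < 2 := log_le _ 2 (by norm_num) (by omega)
      have h4 : rk H = 2 + Nat.log 2 (Nat.card (H.map pi)) := by
        unfold rk
        rw [h, h3]
      omega
    · push Not at hb
      obtain ⟨m, rfl⟩ : ∃ m, n = m + 1 := ⟨n - 1, by omega⟩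
      apply rec_V m NN H (Fr H) hN (NN_not_Fr H hN) (comp_anti H (by omega))
      intro y hy
      have hy1 := comp_inf H (by omega) y hy
      by_cases hK : Fr H ≤ y
      · rw [Fr_bot H hN y hy1 hK]
        exact cmp y hy1 m (by omega)
      · exact VC_rk _ _ _ (Or.inl hK)

end

end Pool.Agent.X317.GD
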