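import Mathlib
import Pool.Agent.X317.GD.QG4

/-!
# Non-vanishing of `Ext⁴`
-/

set_option autoImplicit false
set_option linter.all false

namespace Pool.Agent.X317.GD

open QuaternionGroup

/-- a subgroup given by a finite set -/
def ofF (S : Finset CG) (h1 : 1 ∈ S) (hm : ∀ a ∈ S, ∀ b ∈ S, a * b ∈ S)
    (hi : ∀ a ∈ S, a⁻¹ ∈ S) : Subgroup CG where
  carrier := {x | x ∈ S}
  one_mem' := h1
  mul_mem' {a b} ha hb := hm a ha b hb
  inv_mem' {a} ha := hi a ha

def sZ : Finset CG := {a 0, a 6}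
def sX : Finset CG := {a 0, a 4, a 8}
def sA : Finset CG := {a 0, a 3, a 6, a 9}
def sB : Finset CG := {a 0, a 6, xa 0, xa 6}
def sQ : Finset CG := {a 0, a 3, a 6, a 9, xa 0, xa 3, xa 6, xa 9}

def Z2 : Subgroup CG := ofF sZ (by decide +kernel) (by decide +kernel) (by decide +kernel)
def X3 : Subgroup CG := ofF sX (by decide +kernel) (by decide +kernel) (by decide +kernel)
def A4 : Subgroup CG := ofF sA (by decide +kernel) (by decide +kernel) (by decide +kernel)
def B4 : Subgroup CG := ofF sB (by decide +kernel) (by decide +kernel) (by decide +kernel)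
def Q8 : Subgroup CG := ofF sQ (by decide +kernel) (by decide +kernel) (by decide +kernel)

instance : X3.Normal := ⟨by
  have h : ∀ n ∈ sX, ∀ g : CG, g * n * g⁻¹ ∈ sX := by decide +kernel
  exact h⟩

instance : A4.Normal := ⟨by
  have h : ∀ n ∈ sA, ∀ g : CG, g * n * g⁻¹ ∈ sA := by decide +kernel
  exact h⟩

theorem Q8_sup : Q8 ⊔ X3 = ⊤ := by
  rw [eq_top_iff]
  intro c _
  have h : ∀ c : CG, ∃ q ∈ sQ, ∃ t ∈ sX, c = q * t := by decide +kernel
  obtain ⟨q, hq, t, ht, rfl⟩ := h c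
  exact Subgroup.mul_mem _ (Subgroup.mem_sup_left hq) (Subgroup.mem_sup_right ht)

theorem Q8_lt : Q8 < ⊤ := by
  rw [lt_top_iff_ne_top]
  intro h
  have h1 : (a 1 : CG) ∈ Q8 := by rw [h]; exact Subgroup.mem_top _
  have h2 : ¬ (a 1 : CG) ∈ sQ := by decide +kernel
  exact h2 h1

theorem B4_sup : B4 ⊔ A4 = Q8 := by
  apply le_antisymm
  · apply sup_le
    · have h : ∀ c ∈ sB, c ∈ sQ := by decide +kernel
      exact h
    · have h : ∀ c ∈ sA, c ∈ sQ := by decide +kernel
      exact h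
  · intro c hc
    have h : ∀ c ∈ sQ, ∃ q ∈ sB, ∃ t ∈ sA, c = q * t := by decide +kernel
    obtain ⟨q, hq, t, ht, rfl⟩ := h c hc
    exact Subgroup.mul_mem _ (Subgroup.mem_sup_left hq) (Subgroup.mem_sup_right ht)

theorem B4_lt : B4 < Q8 := by
  refine lt_of_le_of_ne ?_ ?_
  · rw [← B4_sup]
    exact le_sup_left
  · intro h
    have h1 : (a 3 : CG) ∈ Q8 := by
      have : (a 3 : CG) ∈ sQ := by decide +kernel
      exact this
    rw [← h] at h1
    have h2 : ¬ (a 3 : CG) ∈ sB := by decide +kernel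
    exact h2 h1

theorem X3_anti : ∀ y, y < ⊤ → y ⊔ X3 = ⊤ → ∀ z, z < ⊤ → z ⊔ X3 = ⊤ → y ≤ z → y = z := by
  intro y _ hy z hz' hz hyz
  apply ant X3 y z ⊤ hyz _ hy le_top
  intro t ht
  obtain ⟨h1, h2⟩ := Subgroup.mem_inf.1 ht
  by_cases ht1 : t = 1
  · rw [ht1]
    exact y.one_mem
  · exfalso
    have h : ∀ t ∈ sX, t ≠ 1 → ∀ u ∈ sX, u = 1 ∨ u = t ∨ u = t * t := by decide +kernel
    have h3 : X3 ≤ z := by
      intro u hu
      rcases h t h2 ht1 u hu with rfl | rfl | rfl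
      · exact z.one_mem
      · exact h1
      · exact z.mul_mem h1 h1
    rw [sup_eq_left.2 h3] at hz
    exact hz'.ne hz

theorem six_mem (y : Subgroup CG) (hy : y < Q8) (h : y ⊔ A4 = Q8) : (a 6 : CG) ∈ y := by
  have h1 : ¬ y ≤ A4 := by
    intro h1
    rw [sup_eq_right.2 h1] at h
    have h2 : (xa 0 : CG) ∈ Q8 := by
      have : (xa 0 : CG) ∈ sQ := by decide +kernel
      exact this
    rw [← h] at h2
    have h3 : ¬ (xa 0 : CG) ∈ sA := by decide +kernel
    exact h3 h2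
  obtain ⟨g, hg, hgA⟩ := SetLike.not_le_iff_exists.1 h1
  have h2 : ∀ g ∈ sQ, g ∉ sA → g * g = a 6 := by decide +kernel
  have h3 := h2 g (hy.le hg) hgA
  rw [← h3]
  exact y.mul_mem hg hg

theorem A4_anti : ∀ y, y < Q8 → y ⊔ A4 = Q8 → ∀ z, z < Q8 → z ⊔ A4 = Q8 → y ≤ z → y = z := by
  intro y hy' hy z hz' hz hyz
  apply ant A4 y z Q8 hyz _ hy hz'.le
  intro t ht
  obtain ⟨h1, h2⟩ := Subgroup.mem_inf.1 ht
  by_cases ht1 : t = 1
  · rw [ht1]
    exact y.one_mem
  · by_cases ht6 : t = a 6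
    · rw [ht6]
      exact six_mem y hy' hy
    · exfalso
      have h : ∀ t ∈ sA, t ≠ 1 → t ≠ a 6 → ∀ u ∈ sA, u = 1 ∨ u = t ∨ u = t * t ∨
          u = t * t * t := by decide +kernel
      have h3 : A4 ≤ z := by
        intro u hu
        rcases h t h2 ht1 ht6 u hu with rfl | rfl | rfl | rfl
        · exact z.one_mem
        · exact h1
        · exact z.mul_mem h1 h1
        · exact z.mul_mem (z.mul_mem h1 h1) h1
      rw [sup_eq_left.2 h3] at hz
      exact hz'.ne hz

theorem card_Z2 : Nat.card Z2 = 2 := by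
  have h1 : Nat.card Z2 = Nat.card {x // x ∈ sZ} := rfl
  rw [h1, Nat.card_eq_fintype_card, Fintype.card_coe]
  decide +kernel

theorem card_B4 : Nat.card B4 = 4 := by
  have h1 : Nat.card B4 = Nat.card {x // x ∈ sB} := rfl
  rw [h1, Nat.card_eq_fintype_card, Fintype.card_coe]
  decide +kernel

theorem Cp_map (x h : Subgroup CG) (y : Subgroup GG) (hy : y ∈ Cp (x.map sg) (h.map sg)) :
    ∃ y' : Subgroup CG, y = y'.map sg ∧ y' < h ∧ y' ⊔ x = h := by
  obtain ⟨h1, h2⟩ := hy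
  have h3 : y ≤ sg.range := h1.le.trans (Subgroup.map_le_range sg h)
  have h4 : (y.comap sg).map sg = y := Subgroup.map_comap_eq_self h3
  refine ⟨y.comap sg, h4.symm, ?_, ?_⟩
  · refine lt_of_le_of_ne ?_ ?_
    · rw [← Subgroup.map_le_map_iff_of_injective sg_inj, h4]
      exact h1.le
    · intro h5
      apply h1.ne
      rw [← h4, h5]
  · apply Subgroup.map_injective sg_inj
    rw [Subgroup.map_sup, h4, h2]

theorem Cp_anti (x h : Subgroup CG)
    (H : ∀ y, y < h → y ⊔ x = h → ∀ z, z < h → z ⊔ x = h → y ≤ z → y = z) :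
    ∀ y ∈ Cp (x.map sg) (h.map sg), ∀ z ∈ Cp (x.map sg) (h.map sg), y ≤ z → y = z := by
  intro y hy z hz hyz
  obtain ⟨y', rfl, h1, h2⟩ := Cp_map x h y hy
  obtain ⟨z', rfl, h3, h4⟩ := Cp_map x h z hz
  rw [Subgroup.map_le_map_iff_of_injective sg_inj] at hyz
  rw [H y' h1 h2 z' h3 h4 hyz]

theorem Cp_mem (x h y : Subgroup CG) (h1 : y < h) (h2 : y ⊔ x = h) :
    y.map sg ∈ Cp (x.map sg) (h.map sg) := by
  refine ⟨?_, ?_⟩
  · refine lt_of_le_of_ne (Subgroup.map_mono h1.le) ?_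
    intro h3
    exact h1.ne (Subgroup.map_injective sg_inj h3)
  · rw [← Subgroup.map_sup, h2]

theorem map_not_le (x k : Subgroup CG) (h : ¬ x ≤ k) : ¬ x.map sg ≤ k.map sg := by
  rwa [Subgroup.map_le_map_iff_of_injective sg_inj]

section
variable [Fintype (Subgroup GG)] [DecidableEq (Subgroup GG)] [LocallyFiniteOrder (Subgroup GG)]

theorem step4 : ¬ VE (IncidenceAlgebra ℚ (Subgroup GG)) (Smp (B4.map sg)) (Smp (Z2.map sg)) 1 := by
  apply cover_NV
  · refine lt_of_le_of_ne (Subgroup.map_mono ?_) ?_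
    · have h : ∀ c ∈ sZ, c ∈ sB := by decide +kernel
      exact h
    · intro h
      have h1 := congrArg (fun K : Subgroup GG => Nat.card K) h
      have h2 : Nat.card (Z2.map sg) = Nat.card (B4.map sg) := h1
      rw [Subgroup.card_map_of_injective sg_inj, Subgroup.card_map_of_injective sg_inj,
        card_Z2, card_B4] at h2
      omega
  · intro z h1 h2
    have c1 : Nat.card (Z2.map sg) = 2 := by
      rw [Subgroup.card_map_of_injective sg_inj, card_Z2]
    have c2 : Nat.card (B4.map sg) = 4 := by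
      rw [Subgroup.card_map_of_injective sg_inj, card_B4]
    have d1 := Subgroup.card_dvd_of_le h1
    have d2 := Subgroup.card_dvd_of_le h2.le
    rw [c1] at d1
    rw [c2] at d2
    have h3 : Nat.card z ≠ 4 := by
      intro h3
      apply h2.ne
      apply Subgroup.eq_of_le_of_card_ge h2.le
      rw [h3, c2]
    have h4 : Nat.card z ≤ 4 := Nat.le_of_dvd (by norm_num) d2
    have h5 : Nat.card z = 2 := by
      have h6 : 0 < Nat.card z := Nat.card_pos
      interval_cases (Nat.card z) <;> omega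
    symm
    apply Subgroup.eq_of_le_of_card_ge h1
    rw [h5, c1]

theorem step3 : ¬ VE (IncidenceAlgebra ℚ (Subgroup GG)) (Smp (Q8.map sg)) (Smp (Z2.map sg)) 2 := by
  apply rec_NV 0 (A4.map sg) (Q8.map sg) (Z2.map sg) _ _ (Cp_anti A4 Q8 A4_anti) (B4.map sg)
    (Cp_mem A4 Q8 B4 B4_lt B4_sup) step4
  · apply Subgroup.map_mono
    rw [← B4_sup]
    exact le_sup_right
  · apply map_not_le
    intro h
    have h1 : (a 3 : CG) ∈ A4 := by
      have : (a 3 : CG) ∈ sA := by decide +kernel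
      exact this
    have h2 : ¬ (a 3 : CG) ∈ sZ := by decide +kernel
    exact h2 (h h1)

theorem step2 : ¬ VE (IncidenceAlgebra ℚ (Subgroup GG)) (Smp ((⊤ : Subgroup CG).map sg))
    (Smp (Z2.map sg)) 3 := by
  apply rec_NV 1 (X3.map sg) ((⊤ : Subgroup CG).map sg) (Z2.map sg) _ _ (Cp_anti X3 ⊤ X3_anti)
    (Q8.map sg) (Cp_mem X3 ⊤ Q8 Q8_lt Q8_sup) step3
  · exact Subgroup.map_mono le_top
  · apply map_not_le
    intro h
    have h1 : (a 4 : CG) ∈ X3 := by
      have : (a 4 : CG) ∈ sX := by decide +kernel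
      exact this
    have h2 : ¬ (a 4 : CG) ∈ sZ := by decide +kernel
    exact h2 (h h1)

theorem step1 : ¬ VE (IncidenceAlgebra ℚ (Subgroup GG)) (Smp (⊤ : Subgroup GG))
    (Smp (Z2.map sg)) 4 := by
  have hb : 3 ≤ Nat.card ((⊤ : Subgroup GG).map pi) := by
    have h1 : (⊤ : Subgroup GG).map pi = ⊤ := by
      rw [← MonoidHom.range_eq_map, MonoidHom.range_eq_top]
      intro c
      exact ⟨sg c, rfl⟩
    rw [h1, Subgroup.card_top, card_CG]
    norm_num
  have hr : (⊤ : Subgroup CG).map sg = sg.range := (MonoidHom.range_eq_map sg).symm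
  apply rec_NV 2 NN ⊤ (Z2.map sg) le_top _ (comp_anti ⊤ hb) ((⊤ : Subgroup CG).map sg) _ step2
  · intro h
    exact NN_not_range (h.trans (Subgroup.map_le_range sg _))
  · have h1 := lt_NN ⊤ le_top
    have h2 := sup_NN ⊤ le_top
    rw [top_inf_eq] at h1 h2
    rw [hr]
    exact ⟨h1, h2⟩

end

end Pool.Agent.X317.GD
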