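import Mathlib
import Pool.Agent.X317.GD.Cls

/-!
# The group theoretic conditions
-/

set_option autoImplicit false
set_option linter.all false

namespace Pool.Agent.X317.GD

/-- the hypotheses on the group -/
structure Good (G : Type) [Group G] (V : Subgroup G) : Prop where
  card_V : Nat.card V = 8
  card_G : Nat.card G = 56
  sq : ∀ v ∈ V, v * v = 1
  out : ∃ k : G, k ∉ V
  tr : ∀ k : G, k ∉ V → ∀ v ∈ V, ∀ w ∈ V, v ≠ 1 → w ≠ 1 → ∃ n : Fin 7, k ^ n.1 * v * (k ^ n.1)⁻¹ = w

section
variable {G : Type} [Group G] [Finite G]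

theorem orders {V : Subgroup G} (h8 : Nat.card V = 8) (H : Subgroup G) (hH : H ≤ V) :
    Nat.card H = 1 ∨ Nat.card H = 2 ∨ Nat.card H = 4 ∨ Nat.card H = 8 := by
  have h1 := Subgroup.card_dvd_of_le hH
  rw [h8] at h1
  have h2 : Nat.card H ≤ 8 := Nat.le_of_dvd (by norm_num) h1
  have h3 : 0 < Nat.card H := Nat.card_pos
  interval_cases (Nat.card H) <;> revert h1 <;> decide

theorem ne_one_of_card (K : Subgroup G) (h : 1 < Nat.card K) : ∃ w ∈ K, w ≠ 1 := by
  by_contra hc
  push Not at hc
  have h1 : K = ⊥ := by
    rw [eq_bot_iff]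
    intro x hx
    exact Subgroup.mem_bot.2 (hc x hx)
  rw [h1, Subgroup.card_bot] at h
  exact lt_irrefl _ h

theorem two_le (L : Subgroup G) (x : G) (hx : x ∈ L) (h1 : x ≠ 1) : 2 ≤ Nat.card L := by
  by_contra hc
  have h2 : Nat.card L = 1 := by
    have : 0 < Nat.card L := Nat.card_pos
    omega
  rw [Subgroup.card_eq_one] at h2
  rw [h2] at hx
  exact h1 (Subgroup.mem_bot.1 hx)

theorem three_le (L : Subgroup G) (x y : G) (hx : x ∈ L) (hy : y ∈ L) (h1 : x ≠ 1) (h2 : y ≠ 1)
    (hxy : x ≠ y) : 3 ≤ Nat.card L := by
  let f : Fin 3 → L := ![1, ⟨x, hx⟩, ⟨y, hy⟩]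
  have hf : Function.Injective f := by
    intro i j hij
    have hij' : (f i : G) = (f j : G) := congrArg _ hij
    fin_cases i <;> fin_cases j <;> simp [f] at hij' ⊢ <;>
      first | exact h1 hij' | exact h1 hij'.symm | exact h2 hij' | exact h2 hij'.symm
            | exact hxy hij' | exact hxy hij'.symm
  have := Nat.card_le_card_of_injective f hf
  simpa using this

theorem L4 {V : Subgroup G} [V.Normal] (hV : Good G V) (H K : Subgroup G) (hH : H ≤ V) (hK : K ≤ V)
    (hc : Nat.card H ≤ Nat.card K) : ∃ g : G, H ≤ cj g K := by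
  obtain ⟨k, hk⟩ := hV.out
  rcases orders hV.card_V K hK with h1 | h1 | h1 | h1
  · -- order one
    have h2 : H = ⊥ := by
      rw [← Subgroup.card_eq_one]
      have : 0 < Nat.card H := Nat.card_pos
      omega
    rw [h2]
    exact ⟨1, bot_le⟩
  · -- order two
    rcases orders hV.card_V H hH with h2 | h2 | h2 | h2
    · rw [Subgroup.card_eq_one] at h2
      rw [h2]
      exact ⟨1, bot_le⟩
    · obtain ⟨v, hv, hv1⟩ := ne_one_of_card H (by omega)
      obtain ⟨w, hw, hw1⟩ := ne_one_of_card K (by omega)
      obtain ⟨n, hn⟩ := hV.tr k hk v (hH hv) w (hK hw) hv1 hw1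
      refine ⟨(k ^ n.1)⁻¹, half _ _ ?_⟩
      have := two_le (H ⊓ cj (k ^ n.1)⁻¹ K) v
        (Subgroup.mem_inf.2 ⟨hv, by rw [mem_cj, inv_inv, hn]; exact hw⟩) hv1
      omega
    · omega
    · omega
  · -- order four
    rcases orders hV.card_V H hH with h2 | h2 | h2 | h2
    · rw [Subgroup.card_eq_one] at h2
      rw [h2]
      exact ⟨1, bot_le⟩
    · obtain ⟨v, hv, hv1⟩ := ne_one_of_card H (by omega)
      obtain ⟨w, hw, hw1⟩ := ne_one_of_card K (by omega)
      obtain ⟨n, hn⟩ := hV.tr k hk v (hH hv) w (hK hw) hv1 hw1
      refine ⟨(k ^ n.1)⁻¹, half _ _ ?_⟩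
      have := two_le (H ⊓ cj (k ^ n.1)⁻¹ K) v
        (Subgroup.mem_inf.2 ⟨hv, by rw [mem_cj, inv_inv, hn]; exact hw⟩) hv1
      omega
    · -- pigeonhole
      classical
      let A := {x : H // x ≠ 1}
      let B := {x : K // x ≠ 1}
      have hn : ∀ p : A × B, ∃ n : Fin 7, k ^ n.1 * (p.1.1 : G) * (k ^ n.1)⁻¹ = (p.2.1 : G) := by
        rintro ⟨⟨⟨v, hv⟩, hv1⟩, ⟨⟨w, hw⟩, hw1⟩⟩
        exact hV.tr k hk v (hH hv) w (hK hw) (fun h => hv1 (Subtype.ext h))
          (fun h => hw1 (Subtype.ext h))
      choose f hf using hn
      haveI : Fintype A := Fintype.ofFinite _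
      haveI : Fintype B := Fintype.ofFinite _
      haveI : Fintype H := Fintype.ofFinite _
      haveI : Fintype K := Fintype.ofFinite _
      have cA : Fintype.card A = 3 := by
        have e1 : Fintype.card A = Fintype.card H - 1 := by
          have := Fintype.card_subtype_compl (fun x : H => x = 1)
          rw [Fintype.card_subtype_eq] at this
          rw [← this]
        rw [e1, ← Nat.card_eq_fintype_card, h2]
      have cB : Fintype.card B = 3 := by
        have e1 : Fintype.card B = Fintype.card K - 1 := by
          have := Fintype.card_subtype_compl (fun x : K => x = 1)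
          rw [Fintype.card_subtype_eq] at this
          rw [← this]
        rw [e1, ← Nat.card_eq_fintype_card, h1]
      have hcard : Fintype.card (Fin 7) < Fintype.card (A × B) := by
        rw [Fintype.card_prod, cA, cB, Fintype.card_fin]
        norm_num
      obtain ⟨p, q, hpq, hfpq⟩ := Fintype.exists_ne_map_eq_of_card_lt f hcard
      have h1p := hf p
      have h1q := hf q
      rw [← hfpq] at h1q
      have hne : (p.1.1 : G) ≠ (q.1.1 : G) := by
        intro h
        apply hpq
        have e1 : p.1 = q.1 := Subtype.ext (Subtype.ext h)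
        have e2 : p.2 = q.2 := by
          apply Subtype.ext
          apply Subtype.ext
          rw [← h1p, ← h1q, h]
        exact Prod.ext e1 e2
      refine ⟨(k ^ (f p).1)⁻¹, half _ _ ?_⟩
      have := three_le (H ⊓ cj (k ^ (f p).1)⁻¹ K) (p.1.1 : G) (q.1.1 : G)
        (Subgroup.mem_inf.2 ⟨p.1.1.2, by rw [mem_cj, inv_inv, h1p]; exact p.2.1.2⟩)
        (Subgroup.mem_inf.2 ⟨q.1.1.2, by rw [mem_cj, inv_inv, h1q]; exact q.2.1.2⟩)
        (fun h => p.1.2 (Subtype.ext h)) (fun h => q.1.2 (Subtype.ext h)) hne
      omega
    · omega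
  · -- order eight
    have h2 : K = V := by
      apply Subgroup.eq_of_le_of_card_ge hK
      rw [h1, hV.card_V]
    refine ⟨1, ?_⟩
    rw [h2, cj_one]
    exact hH

theorem cls_V {V : Subgroup G} [V.Normal] (hV : Good G V) (K : Subgroup G) (hK : K ≤ V) (c : ℕ)
    (hc : Nat.card K = 2 ^ (c + 1)) : ∃ y' : Cls G, ∀ x, x < Cls.mk K ↔ x ≤ y' := by
  haveI : Fact (Nat.Prime 2) := ⟨Nat.prime_two⟩
  obtain ⟨K0, hK0⟩ := Sylow.exists_subgroup_card_pow_prime (G := K) 2 (n := c)
    (by rw [hc]; exact pow_dvd_pow _ (Nat.le_succ c))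
  let K' : Subgroup G := K0.map K.subtype
  have hK'c : Nat.card K' = 2 ^ c := by
    rw [← hK0]
    exact Subgroup.card_map_of_injective K.subtype_injective
  have hK' : K' ≤ K := Subgroup.map_subtype_le _
  refine ⟨Cls.mk K', ?_⟩
  intro x
  induction x using Cls.ind with
  | h H =>
    constructor
    · intro h
      obtain ⟨g, hg, hlt⟩ := of_lt H K h
      have hHV : H ≤ V := hg.trans (cj_normal V g hK)
      have hdvd : Nat.card H ∣ 2 ^ (c + 1) := by
        rw [← hc, ← card_cj g K]
        exact Subgroup.card_dvd_of_le hg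
      obtain ⟨i, hi, hi2⟩ := (Nat.dvd_prime_pow Nat.prime_two).1 hdvd
      have hi3 : i ≤ c := by
        by_contra hcon
        have : i = c + 1 := by omega
        rw [this] at hi2
        omega
      have hle : Nat.card H ≤ Nat.card K' := by
        rw [hi2, hK'c]
        exact Nat.pow_le_pow_right (by norm_num) hi3
      obtain ⟨a, ha⟩ := L4 hV H K' hHV (hK'.trans hK) hle
      exact (mk_le H K').2 ⟨a, ha⟩
    · intro h
      refine lt_of_le_of_lt h (lt_of K' K 1 ?_ ?_)
      · rw [cj_one]
        exact hK'
      · rw [hK'c, hc]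
        exact Nat.pow_lt_pow_right (by norm_num) (Nat.lt_succ_self c)

theorem cls_cond {V : Subgroup G} [V.Normal] (hV : Good G V) (y : Cls G) (hy : y ≠ ⊤) :
    (∀ x : Cls G, ¬ x < y) ∨ ∃ y' : Cls G, ∀ x, x < y ↔ x ≤ y' := by
  induction y using Cls.ind with
  | h K =>
    by_cases hK : K ≤ V
    · rcases orders hV.card_V K hK with h1 | h1 | h1 | h1
      · left
        intro x
        induction x using Cls.ind with
        | h H =>
          intro h
          obtain ⟨g, hg, hlt⟩ := of_lt H K h
          have : 0 < Nat.card H := Nat.card_pos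
          omega
      · right
        exact cls_V hV K hK 0 (by rw [h1]; norm_num)
      · right
        exact cls_V hV K hK 1 (by rw [h1]; norm_num)
      · right
        exact cls_V hV K hK 2 (by rw [h1]; norm_num)
    · right
      obtain ⟨k, hkK, hkV⟩ := SetLike.not_le_iff_exists.1 hK
      by_cases hKV : ∃ v ∈ K, v ∈ V ∧ v ≠ 1
      · exfalso
        obtain ⟨v, hvK, hvV, hv1⟩ := hKV
        have hVK : V ≤ K := by
          intro w hw
          by_cases hw1 : w = 1
          · rw [hw1]
            exact K.one_mem
          · obtain ⟨n, hn⟩ := hV.tr k hkV v hvV w hw hv1 hw1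
            rw [← hn]
            exact K.mul_mem (K.mul_mem (K.pow_mem hkK _) hvK) (K.inv_mem (K.pow_mem hkK _))
        have h1 : Nat.card V ∣ Nat.card K := Subgroup.card_dvd_of_le hVK
        have h2 : Nat.card K ∣ Nat.card G := Subgroup.card_subgroup_dvd_card K
        rw [hV.card_V] at h1
        rw [hV.card_G] at h2
        have h3 : Nat.card K ≠ 8 := by
          intro h3
          have h4 : V = K := by
            apply Subgroup.eq_of_le_of_card_ge hVK
            rw [h3, hV.card_V]
          exact hK h4.ge
        obtain ⟨q, hq⟩ := h1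
        have h5 : q ∣ 7 := by
          have h6 : 8 * q ∣ 8 * 7 := by
            rw [← hq]
            exact h2
          exact Nat.dvd_of_mul_dvd_mul_left (by norm_num) h6
        rcases (Nat.dvd_prime (by norm_num : Nat.Prime 7)).1 h5 with h6 | h6
        · rw [h6] at hq
          exact h3 hq
        · rw [h6] at hq
          have h7 : K = ⊤ := by
            apply Subgroup.eq_top_of_card_eq
            rw [hq, hV.card_G]
          apply hy
          rw [h7]
          rfl
      · push Not at hKV
        -- K meets V trivially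
        have hinj : Function.Injective ((QuotientGroup.mk' V).comp K.subtype) := by
          rw [injective_iff_map_eq_one]
          intro a ha
          have h1 : (a : G) ∈ V := by
            have := ha
            rw [MonoidHom.comp_apply] at this
            exact (QuotientGroup.eq_one_iff (N := V) (a : G)).1 this
          exact Subtype.ext (hKV a a.2 h1)
        have hquo : Nat.card (G ⧸ V) = 7 := by
          have h1 := Subgroup.card_eq_card_quotient_mul_card_subgroup V
          rw [hV.card_V, hV.card_G] at h1
          omega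
        have hdv : Nat.card K ∣ 7 := by
          have h1 : Nat.card K = Nat.card ((QuotientGroup.mk' V).comp K.subtype).range :=
            Nat.card_congr (MonoidHom.ofInjective hinj).toEquiv
          rw [h1, ← hquo]
          exact Subgroup.card_subgroup_dvd_card _
        have hK1 : Nat.card K = 7 := by
          rcases (Nat.dvd_prime (by norm_num : Nat.Prime 7)).1 hdv with h6 | h6
          · exfalso
            rw [Subgroup.card_eq_one] at h6
            rw [h6] at hkK
            apply hkV
            rw [Subgroup.mem_bot.1 hkK]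
            exact V.one_mem
          · exact h6
        refine ⟨Cls.mk ⊥, ?_⟩
        intro x
        induction x using Cls.ind with
        | h H =>
          constructor
          · intro h
            obtain ⟨g, hg, hlt⟩ := of_lt H K h
            have h1 := Subgroup.card_dvd_of_le hg
            rw [card_cj, hK1] at h1
            rcases (Nat.dvd_prime (by norm_num : Nat.Prime 7)).1 h1 with h6 | h6
            · rw [Subgroup.card_eq_one] at h6
              rw [h6]
            · omega
          · intro h
            refine lt_of_le_of_lt h (lt_of ⊥ K 1 bot_le ?_)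
            rw [Subgroup.card_bot, hK1]
            norm_num

end

end Pool.Agent.X317.GD
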