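import Mathlib
import Pool.Agent.X317.GD.Grp

/-!
# The affine group of the field with eight elements
-/

set_option autoImplicit false
set_option linter.all false

namespace Pool.Agent.X317.GD

/-- the affine maps `x ↦ a x + b` -/
@[ext]
structure Aff (F : Type) [Field F] where
  /-- the linear part -/
  a : Fˣ
  /-- the translation part -/
  b : F

section
variable {F : Type} [Field F]

instance : Mul (Aff F) := ⟨fun x y => ⟨x.a * y.a, x.b + x.a * y.b⟩⟩
instance : One (Aff F) := ⟨⟨1, 0⟩⟩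
instance : Inv (Aff F) := ⟨fun x => ⟨x.a⁻¹, -((x.a⁻¹ : Fˣ) * x.b)⟩⟩

theorem mul_a (x y : Aff F) : (x * y).a = x.a * y.a := rfl
theorem mul_b (x y : Aff F) : (x * y).b = x.b + x.a * y.b := rfl
theorem one_a : (1 : Aff F).a = 1 := rfl
theorem one_b : (1 : Aff F).b = 0 := rfl
theorem inv_a (x : Aff F) : (x⁻¹).a = x.a⁻¹ := rfl
theorem inv_b (x : Aff F) : (x⁻¹).b = -((x.a⁻¹ : Fˣ) * x.b) := rfl

instance : Group (Aff F) := Group.ofLeftAxioms
  (by
    intro x y z
    apply Aff.ext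
    · rw [mul_a, mul_a, mul_a, mul_a, mul_assoc]
    · rw [mul_b, mul_b, mul_b, mul_b, mul_a, Units.val_mul]
      ring)
  (by
    intro x
    apply Aff.ext
    · rw [mul_a, one_a, one_mul]
    · rw [mul_b, one_a, one_b, Units.val_one]
      ring)
  (by
    intro x
    apply Aff.ext
    · rw [mul_a, inv_a, inv_mul_cancel]
      rfl
    · rw [mul_b, inv_a, inv_b, one_b]
      ring)

/-- the linear part as a homomorphism -/
def lin (F : Type) [Field F] : Aff F →* Fˣ where
  toFun x := x.a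
  map_one' := rfl
  map_mul' _ _ := rfl

/-- affine maps as pairs -/
def affEquiv (F : Type) [Field F] : Aff F ≃ Fˣ × F where
  toFun x := (x.a, x.b)
  invFun p := ⟨p.1, p.2⟩
  left_inv _ := rfl
  right_inv _ := rfl

/-- the translations -/
def trEquiv (F : Type) [Field F] : (lin F).ker ≃ F where
  toFun x := x.1.b
  invFun b := ⟨⟨1, b⟩, rfl⟩
  left_inv x := by
    apply Subtype.ext
    apply Aff.ext
    · exact ((MonoidHom.mem_ker).1 x.2).symm
    · rfl
  right_inv _ := rfl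

theorem conj_b (k v : Aff F) (hv : v.a = 1) : k * v * k⁻¹ = ⟨1, k.a * v.b⟩ := by
  apply Aff.ext
  · rw [mul_a, mul_a, inv_a, hv, mul_one, mul_inv_cancel]
  · rw [mul_b, mul_b, mul_a, inv_b, hv, mul_one]
    have h : (k.a : F) * (-(((k.a⁻¹ : Fˣ) : F) * k.b)) = - k.b := by
      rw [mul_neg, ← mul_assoc, Units.mul_inv, one_mul]
    rw [h]
    ring

theorem good (F : Type) [Field F] [CharP F 2] (h8 : Nat.card F = 8) : Good (Aff F) (lin F).ker := by
  haveI : Finite F := Nat.finite_of_card_ne_zero (by rw [h8]; norm_num)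
  have h7 : Nat.card Fˣ = 7 := by
    rw [Nat.card_units, h8]
  haveI : Fact (Nat.Prime 7) := ⟨by norm_num⟩
  refine ⟨?_, ?_, ?_, ?_, ?_⟩
  · rw [Nat.card_congr (trEquiv F), h8]
  · rw [Nat.card_congr (affEquiv F), Nat.card_prod, h7, h8]
  · intro v hv
    have hv' : v.a = 1 := MonoidHom.mem_ker.1 hv
    apply Aff.ext
    · rw [mul_a, hv', one_a, one_mul]
    · rw [mul_b, hv', Units.val_one, one_mul, one_b, CharTwo.add_self_eq_zero]
  · haveI : Nontrivial Fˣ := by
      rw [← Finite.one_lt_card_iff_nontrivial, h7]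
      norm_num
    obtain ⟨u, hu⟩ := exists_ne (1 : Fˣ)
    exact ⟨⟨u, 0⟩, fun h => hu (MonoidHom.mem_ker.1 h)⟩
  · intro k hk v hv w hw hv1 hw1
    have hv' : v.a = 1 := MonoidHom.mem_ker.1 hv
    have hw' : w.a = 1 := MonoidHom.mem_ker.1 hw
    have hvb : v.b ≠ 0 := fun h => hv1 (Aff.ext hv' h)
    have hwb : w.b ≠ 0 := fun h => hw1 (Aff.ext hw' h)
    have hk' : k.a ≠ 1 := fun h => hk (MonoidHom.mem_ker.2 h)
    obtain ⟨n, hn⟩ := mem_powers_of_prime_card (p := 7) h7 (g' := Units.mk0 (w.b / v.b)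
      (div_ne_zero hwb hvb)) hk'
    refine ⟨⟨n % 7, Nat.mod_lt _ (by norm_num)⟩, ?_⟩
    have hpow : (k ^ (n % 7)).a = k.a ^ n := by
      have h1 : (k ^ (n % 7)).a = k.a ^ (n % 7) := map_pow (lin F) k (n % 7)
      rw [h1]
      conv_rhs => rw [← Nat.div_add_mod n 7, pow_add, pow_mul]
      have h2 : k.a ^ 7 = 1 := by
        rw [← h7]
        exact pow_card_eq_one'
      rw [h2, one_pow, one_mul]
    show k ^ (n % 7) * v * (k ^ (n % 7))⁻¹ = w
    rw [conj_b _ _ hv', hpow]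
    have hn' : k.a ^ n = Units.mk0 (w.b / v.b) (div_ne_zero hwb hvb) := hn
    rw [hn']
    apply Aff.ext
    · exact hw'.symm
    · show w.b / v.b * v.b = w.b
      rw [div_mul_cancel₀ _ hvb]

end

end Pool.Agent.X317.GD
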