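import Mathlib
import Pool.Agent.X317.GD.Cat

/-!
# Functors on a poset of rank three
-/

set_option autoImplicit false
set_option linter.all false

namespace Pool.Agent.X317.GD

open CategoryTheory CategoryTheory.Limits

section
variable {V : Type} [PartialOrder V]

/-- the functor of a decreasing family of subspaces -/
def SF {B : Type} [AddCommGroup B] [Module ℚ B] (U : V → Submodule ℚ B) (hU : Antitone U) :
    FC Vᵒᵖ where
  obj x := ModuleCat.of ℚ (U x.unop)
  map f := ModuleCat.ofHom (Submodule.inclusion (hU (leOfHom f.unop)))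
  map_id x := rfl
  map_comp f g := rfl

theorem SF_map {B : Type} [AddCommGroup B] [Module ℚ B] (U : V → Submodule ℚ B) (hU : Antitone U)
    {x y : Vᵒᵖ} (f : x ⟶ y) (b : U x.unop) :
    (((SF U hU).map f).hom b : U y.unop).1 = b.1 := rfl

theorem epi_surj {J : Type} [SmallCategory J] {E X : FC J} (e : E ⟶ X) [Epi e] (j : J) :
    Function.Surjective (e.app j).hom := by
  have h : Epi (e.app j) := (NatTrans.epi_iff_epi_app e).1 inferInstance j
  exact (ModuleCat.epi_iff_surjective _).1 h

theorem nat_apply {J : Type} [SmallCategory J] {E X : FC J} (e : E ⟶ X) {i j : J} (f : i ⟶ j)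
    (z : E.obj i) : (e.app j).hom ((E.map f).hom z) = (X.map f).hom ((e.app i).hom z) := by
  have h := e.naturality f
  exact congrArg (fun g => g.hom z) h

theorem map_map {X : FC Vᵒᵖ} {x y z : V} (h1 : x ≤ y) (h2 : y ≤ z) (b : X.obj (Opposite.op z)) :
    (X.map (homOfLE h1).op).hom ((X.map (homOfLE h2).op).hom b) =
      (X.map (homOfLE (h1.trans h2)).op).hom b := by
  have h := X.map_comp (homOfLE h2).op (homOfLE h1).op
  exact (congrArg (fun g => g.hom b) h).symm

variable {ι : Type} [Fintype ι]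

/-- the subspaces of the sum of representables -/
def Uw (w : ι → V) (x : V) : Submodule ℚ (ι → ℚ) where
  carrier := {b | ∀ i, ¬ x ≤ w i → b i = 0}
  zero_mem' := fun i _ => rfl
  add_mem' := by
    intro a b ha hb i hi
    show a i + b i = 0
    rw [ha i hi, hb i hi, add_zero]
  smul_mem' := by
    intro c a ha i hi
    show c * a i = 0
    rw [ha i hi, mul_zero]

theorem Uw_anti (w : ι → V) : Antitone (Uw w) :=
  fun x y hxy b hb i hi => hb i (fun h => hi (hxy.trans h))

open Classical in
theorem Pw_proj (w : ι → V) : Projective (SF (Uw w) (Uw_anti w)) := by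
  constructor
  intro E X f e he
  have hδ : ∀ (x : V) (i : ι), x ≤ w i → (Pi.single i (1 : ℚ) : ι → ℚ) ∈ Uw w x := by
    intro x i hx j hj
    have hji : j ≠ i := by
      rintro rfl
      exact hj hx
    rw [Pi.single_eq_of_ne hji]
  have hn : ∀ i, ∃ n : E.obj (Opposite.op (w i)), (e.app (Opposite.op (w i))).hom n =
      (f.app (Opposite.op (w i))).hom (⟨Pi.single i 1, hδ (w i) i le_rfl⟩ : Uw w (w i)) :=
    fun i => epi_surj e _ _
  choose n hn using hn
  let t : ∀ (x : V) (i : ι), E.obj (Opposite.op x) := fun x i =>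
    if h : x ≤ w i then (E.map (homOfLE h).op).hom (n i) else 0
  have ht : ∀ (x y : V) (hxy : x ≤ y) (i : ι), y ≤ w i → (E.map (homOfLE hxy).op).hom (t y i) = t x i := by
    intro x y hxy i hy
    simp only [t]
    rw [dif_pos hy, dif_pos (hxy.trans hy), map_map]
  let F : ∀ x : V, (Uw w x) →ₗ[ℚ] E.obj (Opposite.op x) := fun x =>
    { toFun := fun b => ∑ i, b.1 i • t x i
      map_add' := by
        intro a b
        rw [← Finset.sum_add_distrib]
        refine Finset.sum_congr rfl fun i _ => ?_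
        show (a.1 i + b.1 i) • _ = _
        rw [add_smul]
      map_smul' := by
        intro c a
        rw [Finset.smul_sum]
        refine Finset.sum_congr rfl fun i _ => ?_
        show (c * a.1 i) • _ = c • (a.1 i • _)
        rw [mul_smul] }
  refine ⟨{ app := fun x => ModuleCat.ofHom (F x.unop), naturality := ?_ }, ?_⟩
  · intro x y g
    ext b
    show ∑ i, (b : Uw w x.unop).1 i • t y.unop i =
      (E.map g).hom (∑ i, (b : Uw w x.unop).1 i • t x.unop i)
    rw [map_sum]
    refine Finset.sum_congr rfl fun i _ => ?_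
    rw [map_smul]
    by_cases hi : x.unop ≤ w i
    · have := ht y.unop x.unop (leOfHom g.unop) i hi
      rw [← this]
      rfl
    · rw [(b : Uw w x.unop).2 i hi, zero_smul, zero_smul]
  · ext x b
    show (e.app x).hom (∑ i, (b : Uw w x.unop).1 i • t x.unop i) = (f.app x).hom b
    have hb : (b : Uw w x.unop) = ∑ i, (b : Uw w x.unop).1 i •
        (if h : x.unop ≤ w i then (⟨Pi.single i 1, hδ x.unop i h⟩ : Uw w x.unop) else 0) := by
      apply Subtype.ext
      rw [Submodule.coe_sum]
      funext j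
      rw [Finset.sum_apply, Finset.sum_eq_single j]
      · by_cases hj : x.unop ≤ w j
        · rw [dif_pos hj]
          show _ = (b : Uw w x.unop).1 j * (Pi.single j (1 : ℚ) : ι → ℚ) j
          rw [Pi.single_eq_same, mul_one]
        · rw [dif_neg hj, smul_zero, (b : Uw w x.unop).2 j hj]
          rfl
      · intro i _ hij
        by_cases hi : x.unop ≤ w i
        · rw [dif_pos hi]
          show (b : Uw w x.unop).1 i * (Pi.single i (1 : ℚ) : ι → ℚ) j = 0
          rw [Pi.single_eq_of_ne (Ne.symm hij), mul_zero]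
        · rw [dif_neg hi, smul_zero]
          rfl
      · intro h
        exact absurd (Finset.mem_univ j) h
    let fL : (Uw w x.unop) →ₗ[ℚ] X.obj x := (f.app x).hom
    let eL : E.obj x →ₗ[ℚ] X.obj x := (e.app x).hom
    have hfb : fL b = ∑ i, (b : Uw w x.unop).1 i • fL
        (if h : x.unop ≤ w i then (⟨Pi.single i 1, hδ x.unop i h⟩ : Uw w x.unop) else 0) := by
      conv_lhs => rw [hb]
      rw [map_sum]
      refine Finset.sum_congr rfl fun i _ => ?_
      exact map_smul _ _ _
    show eL (∑ i, (b : Uw w x.unop).1 i • t x.unop i) = fL b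
    rw [hfb, map_sum]
    refine Finset.sum_congr rfl fun i _ => ?_
    rw [map_smul]
    congr 1
    by_cases hi : x.unop ≤ w i
    · have e1 : t x.unop i = (E.map (homOfLE hi).op).hom (n i) := by
        simp only [t]
        rw [dif_pos hi]
      have h1 := nat_apply e (homOfLE hi).op (n i)
      have h2 := nat_apply f (homOfLE hi).op (⟨Pi.single i 1, hδ (w i) i le_rfl⟩ : Uw w (w i))
      rw [hn i] at h1
      rw [dif_pos hi, e1]
      exact h1.trans h2.symm
    · have e1 : t x.unop i = 0 := by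
        simp only [t]
        rw [dif_neg hi]
      rw [dif_neg hi, e1, map_zero, map_zero]

end

section nonproj
variable {V : Type} [PartialOrder V] [Fintype V] [OrderBot V]

/-- the subspaces of the test functor -/
def UN {B : Type} [AddCommGroup B] [Module ℚ B] (U : V → Submodule ℚ B) (x : V) :
    Submodule ℚ ((V → B) × B) where
  carrier := {b | (∀ c, b.1 c ∈ U c) ∧ (∀ c, ¬ (IsAtom c ∧ x ≤ c) → b.1 c = 0) ∧
    (x ≠ ⊥ → b.2 = 0) ∧ b.2 ∈ U ⊥}
  zero_mem' := ⟨fun c => Submodule.zero_mem _, fun c _ => rfl, fun _ => rfl, Submodule.zero_mem _⟩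
  add_mem' := by
    rintro a b ⟨h1, h2, h3, h4⟩ ⟨h1', h2', h3', h4'⟩
    refine ⟨fun c => Submodule.add_mem _ (h1 c) (h1' c), fun c hc => ?_, fun h => ?_,
      Submodule.add_mem _ h4 h4'⟩
    · show a.1 c + b.1 c = 0
      rw [h2 c hc, h2' c hc, add_zero]
    · show a.2 + b.2 = 0
      rw [h3 h, h3' h, add_zero]
  smul_mem' := by
    rintro r a ⟨h1, h2, h3, h4⟩
    refine ⟨fun c => Submodule.smul_mem _ _ (h1 c), fun c hc => ?_, fun h => ?_,
      Submodule.smul_mem _ _ h4⟩
    · show r • a.1 c = 0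
      rw [h2 c hc, smul_zero]
    · show r • a.2 = 0
      rw [h3 h, smul_zero]

theorem UN_anti {B : Type} [AddCommGroup B] [Module ℚ B] (U : V → Submodule ℚ B) :
    Antitone (UN U) := by
  rintro x y hxy b ⟨h1, h2, h3, h4⟩
  refine ⟨h1, fun c hc => h2 c (fun h => hc ⟨h.1, hxy.trans h.2⟩), fun hx => h3 ?_, h4⟩
  rintro rfl
  exact hx (le_bot_iff.1 hxy)

open Classical in
theorem nonproj {B : Type} [AddCommGroup B] [Module ℚ B] (U : V → Submodule ℚ B) (hU : Antitone U)
    (h1 : ∀ x : V, x = ⊥ ∨ IsAtom x ∨ U x = ⊥) (c1 c2 c3 : V) (hc1 : IsAtom c1) (hc2 : IsAtom c2)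
    (hc3 : IsAtom c3) (h12 : c1 ≠ c2) (h13 : c1 ≠ c3) (k1 : U c1) (k2 : U c2) (k3 : U c3)
    (hk : (k1 : B) + k2 + k3 = 0) (hk1 : (k1 : B) ≠ 0) : ¬ Projective (SF U hU) := by
  intro hP
  have hmem : ∀ (x : V) (b : UN U x), ∑ c, b.1.1 c + b.1.2 ∈ U x := by
    intro x b
    refine Submodule.add_mem _ (Submodule.sum_mem _ fun c _ => ?_) ?_
    · by_cases hc : IsAtom c ∧ x ≤ c
      · exact hU hc.2 (b.2.1 c)
      · rw [b.2.2.1 c hc]
        exact Submodule.zero_mem _
    · by_cases hx : x = ⊥
      · subst hx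
        exact b.2.2.2.2
      · rw [b.2.2.2.1 hx]
        exact Submodule.zero_mem _
  let π : SF (UN U) (UN_anti U) ⟶ SF U hU :=
    { app := fun x => ModuleCat.ofHom
        { toFun := fun b => (⟨∑ c, b.1.1 c + b.1.2, hmem x.unop b⟩ : U x.unop)
          map_add' := by
            intro a b
            apply Subtype.ext
            show ∑ c, (a.1.1 c + b.1.1 c) + (a.1.2 + b.1.2) =
              (∑ c, a.1.1 c + a.1.2) + (∑ c, b.1.1 c + b.1.2)
            rw [Finset.sum_add_distrib]
            abel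
          map_smul' := by
            intro r a
            apply Subtype.ext
            show ∑ c, (r • a.1.1 c) + (r • a.1.2) = r • (∑ c, a.1.1 c + a.1.2)
            rw [smul_add, Finset.smul_sum] }
      naturality := fun x y f => rfl }
  haveI : Epi π := by
    rw [NatTrans.epi_iff_epi_app]
    intro x
    rw [ModuleCat.epi_iff_surjective]
    intro k
    have hk : (k : U x.unop).1 ∈ U x.unop := (k : U x.unop).2
    rcases h1 x.unop with h | h | h
    · refine ⟨(⟨(0, (k : U x.unop).1), ⟨fun c => Submodule.zero_mem _, fun c _ => rfl,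
        fun hx => absurd h hx, h ▸ hk⟩⟩ : UN U x.unop), ?_⟩
      apply Subtype.ext
      show ∑ c : V, (0 : B) + (k : U x.unop).1 = (k : U x.unop).1
      rw [Finset.sum_const_zero, zero_add]
    · refine ⟨(⟨(Pi.single x.unop (k : U x.unop).1, 0), ⟨fun c => ?_, fun c hc => ?_,
        fun _ => rfl, Submodule.zero_mem _⟩⟩ : UN U x.unop), ?_⟩
      · by_cases hc : c = x.unop
        · subst hc
          show (Pi.single x.unop (k : U x.unop).1 : V → B) x.unop ∈ _
          rw [Pi.single_eq_same]
          exact hk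
        · show (Pi.single x.unop (k : U x.unop).1 : V → B) c ∈ _
          rw [Pi.single_eq_of_ne hc]
          exact Submodule.zero_mem _
      · show (Pi.single x.unop (k : U x.unop).1 : V → B) c = 0
        rw [Pi.single_eq_of_ne]
        rintro rfl
        exact hc ⟨h, le_rfl⟩
      · apply Subtype.ext
        show ∑ c : V, (Pi.single x.unop (k : U x.unop).1 : V → B) c + 0 = (k : U x.unop).1
        rw [add_zero, Finset.sum_pi_single']
        simp
    · refine ⟨0, ?_⟩
      rw [map_zero]
      have : (k : U x.unop).1 = 0 := (Submodule.mem_bot ℚ).1 (h.le hk)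
      exact (Subtype.ext this : (k : U x.unop) = 0).symm
  obtain ⟨s, hs⟩ := hP.factors (𝟙 (SF U hU)) π
  have key : ∀ (c : V) (hc : IsAtom c) (k : U c) (c' : V),
      ((s.app (Opposite.op c)).hom k : UN U c).1.1 c' = if c' = c then (k : B) else 0 := by
    intro c hc k c'
    set b := ((s.app (Opposite.op c)).hom k : UN U c) with hb
    have hz : ∀ d, d ≠ c → b.1.1 d = 0 := by
      intro d hd
      apply b.2.2.1
      rintro ⟨h2, h3⟩
      rcases h2.le_iff.1 h3 with h4 | h4
      · exact hc.1 h4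
      · exact hd h4.symm
    have h5 : (π.app (Opposite.op c)).hom b = k := by
      have := congrArg (fun f => (f.app (Opposite.op c)).hom k) hs
      exact this
    have h6 : ∑ d, b.1.1 d + b.1.2 = (k : B) := congrArg Subtype.val h5
    rw [b.2.2.2.1 hc.1, add_zero, Finset.sum_eq_single c (fun d _ hd => hz d hd)
      (fun h => absurd (Finset.mem_univ c) h)] at h6
    split_ifs with hcc
    · rw [hcc]
      exact h6
    · exact hz c' hcc
  have hnat : ∀ (c : V) (k : U c), (((s.app (Opposite.op ⊥)).hom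
      (⟨k.1, hU bot_le k.2⟩ : U ⊥) : UN U ⊥)).1 = ((s.app (Opposite.op c)).hom k : UN U c).1 := by
    intro c k
    have h := nat_apply s (homOfLE (bot_le : ⊥ ≤ c)).op k
    exact congrArg Subtype.val h
  let sL : (U ⊥) →ₗ[ℚ] (UN U ⊥) := (s.app (Opposite.op ⊥)).hom
  have hsum : sL (⟨k1.1, hU bot_le k1.2⟩ : U ⊥) + sL (⟨k2.1, hU bot_le k2.2⟩ : U ⊥) +
      sL (⟨k3.1, hU bot_le k3.2⟩ : U ⊥) = 0 := by
    have h7 : ((⟨k1.1, hU bot_le k1.2⟩ : U ⊥) + ⟨k2.1, hU bot_le k2.2⟩ +
        ⟨k3.1, hU bot_le k3.2⟩) = 0 := Subtype.ext hk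
    rw [← map_add, ← map_add, h7, map_zero]
  have h11 := congrArg (fun b : UN U ⊥ => b.1.1 c1) hsum
  have h12' : ((s.app (Opposite.op c1)).hom k1 : UN U c1).1.1 c1 +
      ((s.app (Opposite.op c2)).hom k2 : UN U c2).1.1 c1 +
      ((s.app (Opposite.op c3)).hom k3 : UN U c3).1.1 c1 = 0 := by
    rw [← hnat c1 k1, ← hnat c2 k2, ← hnat c3 k3]
    exact h11
  rw [key c1 hc1, key c2 hc2, key c3 hc3, if_pos rfl, if_neg h12, if_neg h13, add_zero,
    add_zero] at h12'
  exact hk1 h12'

end nonproj

end Pool.Agent.X317.GD
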