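import Mathlib
import Pool.Agent.X317.GD.Pos

/-!
# Projective dimension three over a poset of rank three
-/

set_option autoImplicit false
set_option linter.all false

namespace Pool.Agent.X317.GD

open CategoryTheory CategoryTheory.Limits

/-- objectwise criterion for short exactness -/
theorem shortExact_of {J : Type} [SmallCategory J] (S : ShortComplex (FC J))
    (h1 : ∀ j, Function.Injective (S.f.app j).hom)
    (h2 : ∀ j (b : S.X₂.obj j), (S.g.app j).hom b = 0 → ∃ a, (S.f.app j).hom a = b)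
    (h3 : ∀ j, Function.Surjective (S.g.app j).hom) : S.ShortExact where
  exact := by
    apply exact_of_ev
    intro j
    rw [ShortComplex.moduleCat_exact_iff]
    exact h2 j
  mono_f := by
    rw [NatTrans.mono_iff_mono_app]
    intro j
    rw [ModuleCat.mono_iff_injective]
    exact h1 j
  epi_g := by
    rw [NatTrans.epi_iff_epi_app]
    intro j
    rw [ModuleCat.epi_iff_surjective]
    exact h3 j

section
variable {V : Type} [PartialOrder V] [Fintype V] [BoundedOrder V]

/-- the constant functor -/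
abbrev ZZ (V : Type) [PartialOrder V] [BoundedOrder V] : FC Vᵒᵖ :=
  SF (Uw (fun _ : Unit => (⊤ : V))) (Uw_anti _)

/-- proper part -/
def U1 (x : V) : Submodule ℚ (Unit → ℚ) where
  carrier := {b | x = ⊤ → b = 0}
  zero_mem' := fun _ => rfl
  add_mem' := by
    intro a b ha hb hx
    rw [ha hx, hb hx, add_zero]
  smul_mem' := by
    intro c a ha hx
    rw [ha hx, smul_zero]

theorem U1_anti : Antitone (U1 : V → Submodule ℚ (Unit → ℚ)) := by
  intro x y hxy b hb hx
  subst hx
  exact hb (top_le_iff.1 hxy)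

/-- the coatoms -/
abbrev Co (V : Type) [PartialOrder V] [BoundedOrder V] : Type := {W : V // IsCoatom W}

open Classical in
/-- second syzygy -/
noncomputable def U2 (x : V) : Submodule ℚ (Co V → ℚ) where
  carrier := {b | (∀ i : Co V, ¬ x ≤ i.1 → b i = 0) ∧ ∑ i, b i = 0}
  zero_mem' := ⟨fun _ _ => rfl, by simp⟩
  add_mem' := by
    rintro a b ⟨h1, h2⟩ ⟨h3, h4⟩
    refine ⟨fun i hi => ?_, ?_⟩
    · show a i + b i = 0
      rw [h1 i hi, h3 i hi, add_zero]
    · show ∑ i, (a i + b i) = 0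
      rw [Finset.sum_add_distrib, h2, h4, add_zero]
  smul_mem' := by
    rintro c a ⟨h1, h2⟩
    refine ⟨fun i hi => ?_, ?_⟩
    · show c * a i = 0
      rw [h1 i hi, mul_zero]
    · show ∑ i, (c * a i) = 0
      rw [← Finset.mul_sum, h2, mul_zero]

theorem U2_anti : Antitone (U2 : V → Submodule ℚ (Co V → ℚ)) :=
  fun x y hxy b hb => ⟨fun i hi => hb.1 i (fun h => hi (hxy.trans h)), hb.2⟩

open Classical in
theorem pd3 (h1 : ∀ x : V, x = ⊥ ∨ IsAtom x ∨ IsCoatom x ∨ x = ⊤)
    (hco : ∀ x : V, x ≠ ⊤ → ∃ W, IsCoatom W ∧ x ≤ W) (c1 c2 c3 : V) (hc1 : IsAtom c1)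
    (hc2 : IsAtom c2) (hc3 : IsAtom c3) (h12 : c1 ≠ c2) (h13 : c1 ≠ c3) (W12 W13 W23 : Co V)
    (hW : W12 ≠ W13) (l1 : c1 ≤ W12.1) (l2 : c1 ≤ W13.1) (l3 : c2 ≤ W12.1) (l4 : c2 ≤ W23.1)
    (l5 : c3 ≤ W13.1) (l6 : c3 ≤ W23.1) (F : FC Vᵒᵖ) (q : ZZ V ⟶ F)
    (hq : ∀ x, Function.Surjective (q.app x).hom)
    (hker : ∀ (x : V) (b : Uw (fun _ : Unit => (⊤ : V)) x), (q.app (Opposite.op x)).hom b = 0 ↔
      (x = ⊤ → b.1 = 0)) : ¬ HasProjectiveDimensionLT F 3 := by
  intro hF
  -- first sequence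
  let i1 : SF (U1 : V → Submodule ℚ (Unit → ℚ)) U1_anti ⟶ ZZ V :=
    { app := fun x => ModuleCat.ofHom
        { toFun := fun b => (⟨b.1, fun i hi => absurd le_top hi⟩ :
            Uw (fun _ : Unit => (⊤ : V)) x.unop)
          map_add' := fun _ _ => rfl
          map_smul' := fun _ _ => rfl }
      naturality := fun x y f => rfl }
  have hz1 : i1 ≫ q = 0 := by
    ext x b
    exact (hker x.unop ⟨b.1, fun i hi => absurd le_top hi⟩).2 b.2
  have hS1 : (ShortComplex.mk i1 q hz1).ShortExact := by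
    apply shortExact_of
    · intro x a b hab
      exact Subtype.ext (congrArg (fun z : Uw (fun _ : Unit => (⊤ : V)) x.unop => z.1) hab)
    · intro x b hb
      refine ⟨(⟨b.1, (hker x.unop b).1 hb⟩ : U1 x.unop), ?_⟩
      rfl
    · exact hq
  have hP1 : Projective (ZZ V) := Pw_proj _
  have hK1 : HasProjectiveDimensionLT (SF (U1 : V → Submodule ℚ (Unit → ℚ)) U1_anti) 2 :=
    (hS1.hasProjectiveDimensionLT_X₃_iff 1 hP1).1 hF
  -- second sequence
  let w : Co V → V := fun i => i.1
  let i2 : SF (U2 : V → Submodule ℚ (Co V → ℚ)) U2_anti ⟶ SF (Uw w) (Uw_anti w) :=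
    { app := fun x => ModuleCat.ofHom
        { toFun := fun b => (⟨b.1, b.2.1⟩ : Uw w x.unop)
          map_add' := fun _ _ => rfl
          map_smul' := fun _ _ => rfl }
      naturality := fun x y f => rfl }
  have hsum : ∀ (x : V) (b : Uw w x), (fun _ : Unit => ∑ i, b.1 i) ∈ U1 x := by
    intro x b hx
    subst hx
    funext _
    show ∑ i, b.1 i = 0
    apply Finset.sum_eq_zero
    intro i _
    exact b.2 i (fun h => i.2.1 (top_le_iff.1 h))
  let q2 : SF (Uw w) (Uw_anti w) ⟶ SF (U1 : V → Submodule ℚ (Unit → ℚ)) U1_anti :=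
    { app := fun x => ModuleCat.ofHom
        { toFun := fun b => (⟨fun _ => ∑ i, b.1 i, hsum x.unop b⟩ : U1 x.unop)
          map_add' := by
            intro a b
            apply Subtype.ext
            funext _
            show ∑ i, (a.1 i + b.1 i) = ∑ i, a.1 i + ∑ i, b.1 i
            rw [Finset.sum_add_distrib]
          map_smul' := by
            intro c a
            apply Subtype.ext
            funext _
            show ∑ i, (c * a.1 i) = c * ∑ i, a.1 i
            rw [Finset.mul_sum] }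
      naturality := fun x y f => rfl }
  have hz2 : i2 ≫ q2 = 0 := by
    ext x b
    apply Subtype.ext
    funext _
    exact b.2.2
  have hS2 : (ShortComplex.mk i2 q2 hz2).ShortExact := by
    apply shortExact_of
    · intro x a b hab
      exact Subtype.ext (congrArg (fun z : Uw w x.unop => z.1) hab)
    · intro x b hb
      refine ⟨(⟨b.1, b.2, ?_⟩ : U2 x.unop), rfl⟩
      exact congrFun (congrArg (fun z : U1 x.unop => z.1) hb) ()
    · intro x b
      by_cases hx : x.unop = ⊤
      · refine ⟨0, ?_⟩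
        rw [map_zero]
        apply Subtype.ext
        exact (b.2 hx).symm
      · obtain ⟨W, hW1, hW2⟩ := hco x.unop hx
        refine ⟨(⟨Pi.single (⟨W, hW1⟩ : Co V) (b.1 ()), ?_⟩ : Uw w x.unop), ?_⟩
        · intro i hi
          rw [Pi.single_eq_of_ne]
          rintro rfl
          exact hi hW2
        · apply Subtype.ext
          funext u
          show ∑ i, (Pi.single (⟨W, hW1⟩ : Co V) (b.1 ()) : Co V → ℚ) i = b.1 u
          rw [Finset.sum_pi_single']
          simp
  have hP2 : Projective (SF (Uw w) (Uw_anti w)) := Pw_proj w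
  have hK2 : HasProjectiveDimensionLT (SF (U2 : V → Submodule ℚ (Co V → ℚ)) U2_anti) 1 :=
    (hS2.hasProjectiveDimensionLT_X₃_iff 0 hP2).1 hK1
  rw [← projective_iff_hasProjectiveDimensionLT_one] at hK2
  have hU2 : ∀ x : V, x = ⊥ ∨ IsAtom x ∨ U2 x = ⊥ := by
    intro x
    rcases h1 x with h | h | h | h
    · exact Or.inl h
    · exact Or.inr (Or.inl h)
    · refine Or.inr (Or.inr ?_)
      rw [eq_bot_iff]
      intro b hb
      have hz : ∀ i : Co V, i ≠ ⟨x, h⟩ → b i = 0 := by
        intro i hi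
        apply hb.1
        intro hxi
        rcases h.le_iff.1 hxi with h2 | h2
        · exact i.2.1 h2
        · exact hi (Subtype.ext h2)
      have h3 := hb.2
      rw [Finset.sum_eq_single (⟨x, h⟩ : Co V) (fun i _ hi => hz i hi)
        (fun h' => absurd (Finset.mem_univ _) h')] at h3
      rw [Submodule.mem_bot]
      funext i
      by_cases hi : i = ⟨x, h⟩
      · rw [hi]
        exact h3
      · exact hz i hi
    · refine Or.inr (Or.inr ?_)
      rw [eq_bot_iff]
      intro b hb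
      rw [Submodule.mem_bot]
      funext i
      apply hb.1
      rw [h]
      exact fun h' => i.2.1 (top_le_iff.1 h')
  have hk : ∀ (c : V) (A B : Co V), c ≤ A.1 → c ≤ B.1 →
      (Pi.single A (1 : ℚ) - Pi.single B (1 : ℚ) : Co V → ℚ) ∈ U2 c := by
    intro c A B hA hB
    refine ⟨fun i hi => ?_, ?_⟩
    · have e1 : i ≠ A := by
        rintro rfl
        exact hi hA
      have e2 : i ≠ B := by
        rintro rfl
        exact hi hB
      rw [Pi.sub_apply, Pi.single_eq_of_ne e1, Pi.single_eq_of_ne e2, sub_zero]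
    · simp only [Pi.sub_apply]
      rw [Finset.sum_sub_distrib, Finset.sum_pi_single', Finset.sum_pi_single']
      simp
  refine nonproj (U2 : V → Submodule ℚ (Co V → ℚ)) U2_anti hU2 c1 c2 c3 hc1 hc2 hc3 h12 h13
    ⟨_, hk c1 W12 W13 l1 l2⟩ ⟨_, hk c2 W23 W12 l4 l3⟩ ⟨_, hk c3 W13 W23 l5 l6⟩ ?_ ?_ hK2
  · show (Pi.single W12 (1 : ℚ) - Pi.single W13 (1 : ℚ) : Co V → ℚ) +
      (Pi.single W23 (1 : ℚ) - Pi.single W12 (1 : ℚ)) +
      (Pi.single W13 (1 : ℚ) - Pi.single W23 (1 : ℚ)) = 0
    abel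
  · intro h
    have h2 : (Pi.single W12 (1 : ℚ) - Pi.single W13 (1 : ℚ) : Co V → ℚ) W12 = 0 := by
      have h3 : (Pi.single W12 (1 : ℚ) - Pi.single W13 (1 : ℚ) : Co V → ℚ) = 0 := h
      rw [h3]
      rfl
    rw [Pi.sub_apply, Pi.single_eq_same, Pi.single_eq_of_ne hW, sub_zero] at h2
    exact one_ne_zero h2

end

end Pool.Agent.X317.GD
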