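import Mathlib
import Pool.Agent.X317.GD.Pos3

/-!
# The orbit category
-/

set_option autoImplicit false
set_option linter.all false

namespace Pool.Agent.X317.GD

open CategoryTheory CategoryTheory.Limits

/-- objects `G/H` of the orbit category -/
structure Orb (G : Type) [Group G] where
  /-- the subgroup -/
  H : Subgroup G

/-- the `G`-equivariant maps `G/H → G/K` -/
abbrev EqMap {G : Type} [Group G] (A B : Orb G) : Type :=
  {f : G ⧸ A.H → G ⧸ B.H // ∀ (g : G) (x : G ⧸ A.H), f (g • x) = g • f x}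

/-- composition of equivariant maps -/
def EqMap.cmp {G : Type} [Group G] {A B C : Orb G} (f : EqMap A B) (g : EqMap B C) : EqMap A C :=
  ⟨fun x => g.1 (f.1 x), fun a x => by
    show g.1 (f.1 (a • x)) = a • g.1 (f.1 x)
    rw [f.2, g.2]⟩

instance (G : Type) [Group G] : SmallCategory (Orb G) where
  Hom A B := EqMap A B
  id A := ⟨fun x => x, fun _ _ => rfl⟩
  comp f g := EqMap.cmp f g
  id_comp f := rfl
  comp_id f := rfl
  assoc f g h := rfl

variable {G : Type} [Group G]

theorem hom_ext {A B : Orb G} (f g : A ⟶ B) (h : ∀ x, f.1 x = g.1 x) : f = g :=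
  Subtype.ext (funext h)

/-- two equivariant maps agreeing on the base point are equal -/
theorem hom_ext1 {A B : Orb G} (f g : A ⟶ B)
    (h : f.1 ((1 : G) : G ⧸ A.H) = g.1 ((1 : G) : G ⧸ A.H)) : f = g := by
  apply hom_ext
  intro x
  induction x using QuotientGroup.induction_on with
  | H a =>
    have e : ((a : G) : G ⧸ A.H) = a • ((1 : G) : G ⧸ A.H) := by
      rw [MulAction.Quotient.smul_coe, smul_eq_mul, mul_one]
    rw [e, f.2, g.2, h]

/-- the morphism `G/S → G/H`, `gS ↦ g t`, for `S` fixing `t` -/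
def rho (S : Subgroup G) (A : Orb G) (t : G ⧸ A.H) (h : ∀ s ∈ S, s • t = t) :
    (Orb.mk S) ⟶ A :=
  ⟨fun x => Quotient.liftOn' x (fun g => g • t) (by
    intro a b hab
    have h1 : a⁻¹ * b ∈ S := QuotientGroup.leftRel_apply.1 hab
    show a • t = b • t
    have h2 : b = a * (a⁻¹ * b) := by group
    rw [h2, mul_smul, h _ h1]), by
    intro g x
    induction x using QuotientGroup.induction_on with
    | H a => exact mul_smul g a t⟩

theorem rho_one (S : Subgroup G) (A : Orb G) (t : G ⧸ A.H) (h : ∀ s ∈ S, s • t = t) :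
    (rho S A t h).1 ((1 : G) : G ⧸ S) = t := one_smul G t

variable (V : Subgroup G)

theorem fix_one {L L' : Subgroup G} (h : L ≤ L') (s : G) (hs : s ∈ L) :
    s • ((1 : G) : G ⧸ L') = ((1 : G) : G ⧸ L') := by
  rw [MulAction.Quotient.smul_coe, smul_eq_mul, mul_one, QuotientGroup.eq, mul_one]
  exact L'.inv_mem (h hs)

/-- the projection `G/L → G/L'` -/
def prj {L L' : Subgroup G} (h : L ≤ L') : (Orb.mk L) ⟶ (Orb.mk L') :=
  rho L (Orb.mk L') ((1 : G) : G ⧸ L') (fix_one h)

theorem prj_one {L L' : Subgroup G} (h : L ≤ L') :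
    (prj h).1 ((1 : G) : G ⧸ L) = ((1 : G) : G ⧸ L') :=
  rho_one L (Orb.mk L') ((1 : G) : G ⧸ L') (fix_one h)

theorem comp_val {A B C : Orb G} (f : A ⟶ B) (g : B ⟶ C) (x : G ⧸ A.H) :
    (f ≫ g).1 x = g.1 (f.1 x) := rfl

theorem id_val (A : Orb G) (x : G ⧸ A.H) : (𝟙 A : A ⟶ A).1 x = x := rfl

/-- the functor from the subgroups of `V` to the orbit category -/
def PhiF : (Set.Iic V) ⥤ Orb G where
  obj L := ⟨L.1⟩
  map {L L'} f := prj (L := L.1) (L' := L'.1) (leOfHom f)
  map_id L := by
    apply hom_ext1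
    exact prj_one _
  map_comp {A B C} f g := by
    apply hom_ext1
    rw [comp_val]
    refine (prj_one _).trans ?_
    exact ((congrArg (prj (L := B.1) (L' := C.1) (leOfHom g)).1
      (prj_one (L := A.1) (L' := B.1) (leOfHom f))).trans (prj_one _)).symm

theorem PhiF_one {L L' : Set.Iic V} (f : L ⟶ L') :
    ((PhiF V).map f).1 ((1 : G) : G ⧸ L.1) = ((1 : G) : G ⧸ L'.1) :=
  prj_one (L := L.1) (L' := L'.1) (leOfHom f)

/-- the part of the stabilizer in `V` -/
def st (A : Orb G) (t : G ⧸ A.H) : Set.Iic V :=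
  ⟨V ⊓ MulAction.stabilizer G t, Set.mem_Iic.2 inf_le_left⟩

theorem mem_st (A : Orb G) (t : G ⧸ A.H) (g : G) : g ∈ (st V A t).1 ↔ g ∈ V ∧ g • t = t := by
  unfold st
  rw [Subgroup.mem_inf, MulAction.mem_stabilizer_iff]

theorem st_le {A B : Orb G} (f : A ⟶ B) (t : G ⧸ A.H) : st V A t ≤ st V B (f.1 t) := by
  show (st V A t).1 ≤ (st V B (f.1 t)).1
  intro g hg
  rw [mem_st] at hg ⊢
  refine ⟨hg.1, ?_⟩
  rw [← f.2, hg.2]

/-- the canonical morphism `G/(V ∩ G_t) → G/H` -/
def rt (A : Orb G) (t : G ⧸ A.H) : (PhiF V).obj (st V A t) ⟶ A :=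
  rho (st V A t).1 A t (fun s hs => ((mem_st V A t s).1 hs).2)

theorem rt_one (A : Orb G) (t : G ⧸ A.H) :
    (rt V A t).1 ((1 : G) : G ⧸ (st V A t).1) = t := rho_one (st V A t).1 A t _

theorem rt_nat {A B : Orb G} (f : A ⟶ B) (t : G ⧸ A.H) :
    rt V A t ≫ f = (PhiF V).map (homOfLE (st_le V f t)) ≫ rt V B (f.1 t) := by
  apply hom_ext1
  rw [comp_val, comp_val]
  exact (congrArg f.1 (rt_one V A t)).trans (((congrArg (rt V B (f.1 t)).1
    (PhiF_one V (homOfLE (st_le V f t)))).trans (rt_one V B (f.1 t))).symm)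

/-- the right adjoint of the restriction -/
def RR (N : FC (Set.Iic V)ᵒᵖ) : FC (Orb G)ᵒᵖ where
  obj A := ModuleCat.of ℚ (∀ t : G ⧸ A.unop.H, N.obj (Opposite.op (st V A.unop t)))
  map {A B} f := ModuleCat.ofHom
    { toFun := fun n s => (N.map (homOfLE (st_le V f.unop s)).op).hom (n (f.unop.1 s))
      map_add' := by
        intro a b
        funext s
        exact map_add _ _ _
      map_smul' := by
        intro c a
        funext s
        exact map_smul _ _ _ }
  map_id A := by
    ext n s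
    have h : (homOfLE (st_le V (𝟙 A : A ⟶ A).unop s)).op = 𝟙 (Opposite.op (st V A.unop s)) :=
      Subsingleton.elim _ _
    show (N.map (homOfLE (st_le V (𝟙 A : A ⟶ A).unop s)).op).hom (n s) = n s
    rw [h]
    exact congrArg (fun k => (ModuleCat.Hom.hom k) (n s)) (N.map_id _)
  map_comp {A B C} f g := by
    ext n s
    exact (map_map (X := N) (st_le V g.unop s) (st_le V f.unop (g.unop.1 s)) _).symm

/-- functoriality of the right adjoint -/
def RRm {N N' : FC (Set.Iic V)ᵒᵖ} (e : N ⟶ N') : RR V N ⟶ RR V N' where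
  app A := ModuleCat.ofHom
    { toFun := fun n s => (e.app _).hom (n s)
      map_add' := by
        intro a b
        funext s
        exact map_add _ _ _
      map_smul' := by
        intro c a
        funext s
        exact map_smul _ _ _ }
  naturality A B f := by
    ext n
    funext s
    exact nat_apply e (homOfLE (st_le V f.unop s)).op (n (f.unop.1 s))

theorem RRm_epi {N N' : FC (Set.Iic V)ᵒᵖ} (e : N ⟶ N') [Epi e] : Epi (RRm V e) := by
  rw [NatTrans.epi_iff_epi_app]
  intro A
  rw [ModuleCat.epi_iff_surjective]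
  intro n
  have h : ∀ s, ∃ m, (e.app (Opposite.op (st V A.unop s))).hom m =
      (show ∀ t : G ⧸ A.unop.H, N'.obj (Opposite.op (st V A.unop t)) from n) s :=
    fun s => epi_surj e _ _
  choose m hm using h
  exact ⟨m, funext hm⟩

theorem st_one (L : Set.Iic V) : L ≤ st V ⟨L.1⟩ ((1 : G) : G ⧸ L.1) := by
  show L.1 ≤ (st V ⟨L.1⟩ ((1 : G) : G ⧸ L.1)).1
  intro g hg
  rw [mem_st]
  exact ⟨L.2 hg, fix_one le_rfl g hg⟩

theorem rt_id0 (L : Set.Iic V) : (PhiF V).map (homOfLE (st_one V L)) ≫
    rt V ⟨L.1⟩ ((1 : G) : G ⧸ L.1) = 𝟙 ((PhiF V).obj L) := by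
  apply hom_ext1
  rw [comp_val]
  exact (congrArg (rt V ⟨L.1⟩ ((1 : G) : G ⧸ L.1)).1
    (PhiF_one V (homOfLE (st_one V L)))).trans (rt_one V ⟨L.1⟩ ((1 : G) : G ⧸ L.1))

theorem rt_id (L : Set.Iic V) (Q : FC (Orb G)ᵒᵖ) (x : Q.obj (Opposite.op ((PhiF V).obj L))) :
    (Q.map ((PhiF V).map (homOfLE (st_one V L))).op).hom
      ((Q.map (rt V ⟨L.1⟩ ((1 : G) : G ⧸ L.1)).op).hom x) = x := by
  have h6 := rt_id0 V L
  have h7 := congrArg (fun k => (Q.map k.op).hom x) h6
  have h8 : (Q.map (𝟙 ((PhiF V).obj L)).op).hom x = x :=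
    congrArg (fun k => (ModuleCat.Hom.hom k) x) (Q.map_id _)
  refine Eq.trans ?_ (h7.trans h8)
  have h9 := congrArg (fun k => (ModuleCat.Hom.hom k) x)
    (Q.map_comp (rt V ⟨L.1⟩ ((1 : G) : G ⧸ L.1)).op ((PhiF V).map (homOfLE (st_one V L))).op)
  exact h9.symm

theorem rst_proj (Q : FC (Orb G)ᵒᵖ) (hQ : Projective Q) :
    Projective ((rst (PhiF V).op).obj Q) := by
  constructor
  intro N N' f e he
  haveI := RRm_epi V e
  -- the transpose of f
  let fb : Q ⟶ RR V N' :=
    { app := fun A => ModuleCat.ofHom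
        { toFun := fun x t => (f.app (Opposite.op (st V A.unop t))).hom
            ((Q.map (rt V A.unop t).op).hom x)
          map_add' := by
            intro a b
            funext s
            exact (congrArg _ (map_add _ a b)).trans (map_add _ _ _)
          map_smul' := by
            intro c a
            funext s
            exact (congrArg _ (map_smul _ c a)).trans (map_smul _ _ _) }
      naturality := by
        intro A B h
        ext x
        funext s
        show (f.app (Opposite.op (st V B.unop s))).hom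
          ((Q.map (rt V B.unop s).op).hom ((Q.map h).hom x)) =
          (N'.map (homOfLE (st_le V h.unop s)).op).hom
          ((f.app (Opposite.op (st V A.unop (h.unop.1 s)))).hom
            ((Q.map (rt V A.unop (h.unop.1 s)).op).hom x))
        have h1 := nat_apply f (homOfLE (st_le V h.unop s)).op
          ((Q.map (rt V A.unop (h.unop.1 s)).op).hom x)
        rw [← h1]
        congr 1
        have h2 := congrArg (fun g => (Q.map g.op).hom x) (rt_nat V h.unop s)
        try dsimp only at h2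
        rw [op_comp, op_comp, Q.map_comp, Q.map_comp] at h2
        exact h2 }
  obtain ⟨g, hg⟩ := hQ.factors fb (RRm V e)
  refine ⟨{ app := fun L => (ModuleCat.ofHom
      { toFun := fun x => (N.map (homOfLE (st_one V L.unop)).op).hom
            ((show ∀ t : G ⧸ L.unop.1, N.obj (Opposite.op (st V ⟨L.unop.1⟩ t)) from
              (g.app (Opposite.op ⟨L.unop.1⟩)).hom x) ((1 : G) : G ⧸ L.unop.1))
        map_add' := by
          intro a b
          have h1 := map_add (g.app (Opposite.op ⟨L.unop.1⟩)).hom a b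
          have h2 := congrFun h1 ((1 : G) : G ⧸ L.unop.1)
          exact (congrArg _ h2).trans (map_add _ _ _)
        map_smul' := by
          intro c a
          have h1 := map_smul (g.app (Opposite.op ⟨L.unop.1⟩)).hom c a
          have h2 := congrFun h1 ((1 : G) : G ⧸ L.unop.1)
          exact (congrArg _ h2).trans (map_smul _ _ _) }), naturality := ?_ }, ?_⟩
  · intro L L' h
    ext x
    have h1 := nat_apply g ((PhiF V).map h.unop).op x
    have h2 := congrFun h1 ((1 : G) : G ⧸ L'.unop.1)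
    have h3 := congrArg (N.map (homOfLE (st_one V L'.unop)).op).hom h2
    refine h3.trans ?_
    have h4 : ((PhiF V).map h.unop).1 ((1 : G) : G ⧸ L'.unop.1) = ((1 : G) : G ⧸ L.unop.1) :=
      PhiF_one V h.unop
    have key : ∀ (t : G ⧸ L.unop.1) (ht : t = ((1 : G) : G ⧸ L.unop.1))
        (hle : st V ⟨L'.unop.1⟩ ((1 : G) : G ⧸ L'.unop.1) ≤ st V ⟨L.unop.1⟩ t)
        (n : ∀ t : G ⧸ L.unop.1, N.obj (Opposite.op (st V ⟨L.unop.1⟩ t))),
        (N.map (homOfLE (st_one V L'.unop)).op).hom ((N.map (homOfLE hle).op).hom (n t)) =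
        (N.map h).hom ((N.map (homOfLE (st_one V L.unop)).op).hom (n ((1 : G) : G ⧸ L.unop.1))) := by
      intro t ht hle n
      subst ht
      rw [map_map]
      have h5 : h = (homOfLE (leOfHom h.unop)).op := Subsingleton.elim _ _
      rw [h5, map_map]
    exact key _ h4 _ _
  · ext L x
    have h1 := congrArg (fun k => (k.app (Opposite.op ⟨L.unop.1⟩)).hom x) hg
    have h2 := congrFun h1 ((1 : G) : G ⧸ L.unop.1)
    have h3 : (e.app _).hom ((show ∀ t : G ⧸ L.unop.1, N.obj (Opposite.op (st V ⟨L.unop.1⟩ t)) from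
          (g.app (Opposite.op ⟨L.unop.1⟩)).hom x) ((1 : G) : G ⧸ L.unop.1)) =
        (f.app (Opposite.op (st V ⟨L.unop.1⟩ ((1 : G) : G ⧸ L.unop.1)))).hom
          ((Q.map (rt V ⟨L.unop.1⟩ ((1 : G) : G ⧸ L.unop.1)).op).hom x) := h2
    have h4 := nat_apply e (homOfLE (st_one V L.unop)).op
      ((show ∀ t : G ⧸ L.unop.1, N.obj (Opposite.op (st V ⟨L.unop.1⟩ t)) from
          (g.app (Opposite.op ⟨L.unop.1⟩)).hom x) ((1 : G) : G ⧸ L.unop.1))
    refine h4.trans ?_
    rw [h3]
    have h5 := nat_apply f (homOfLE (st_one V L.unop)).op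
      ((Q.map (rt V ⟨L.unop.1⟩ ((1 : G) : G ⧸ L.unop.1)).op).hom x)
    refine h5.symm.trans ?_
    congr 1
    exact rt_id V L.unop Q x

end Pool.Agent.X317.GD
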