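import Mathlib
import Pool.Agent.X317.GD.Orb
import Pool.Agent.X317.GD.Grp

/-!
# The coefficient system of projective dimension three
-/

set_option autoImplicit false
set_option linter.all false

namespace Pool.Agent.X317.GD

open CategoryTheory CategoryTheory.Limits

section X
variable {G : Type} [Group G] (V : Subgroup G)

open Classical in
/-- the subspace of `ℚ` divided out -/
noncomputable def US (H : Subgroup G) : Submodule ℚ ℚ := if V ≤ H then ⊥ else ⊤

theorem le_of_hom [V.Normal] {A B : Orb G} (f : A ⟶ B) (h : V ≤ A.H) : V ≤ B.H := by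
  intro v hv
  obtain ⟨g, hg⟩ := QuotientGroup.mk_surjective (f.1 ((1 : G) : G ⧸ A.H))
  have h1 : g * v * g⁻¹ ∈ A.H := h (Subgroup.Normal.conj_mem inferInstance v hv g)
  have h2 : (g * v * g⁻¹) • ((1 : G) : G ⧸ A.H) = ((1 : G) : G ⧸ A.H) := by
    rw [MulAction.Quotient.smul_coe, smul_eq_mul, mul_one, QuotientGroup.eq, mul_one]
    exact A.H.inv_mem h1
  have h3 : (g * v * g⁻¹) • f.1 ((1 : G) : G ⧸ A.H) = f.1 ((1 : G) : G ⧸ A.H) := by
    rw [← f.2, h2]
  rw [← hg, MulAction.Quotient.smul_coe, smul_eq_mul, QuotientGroup.eq] at h3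
  have h4 : (g * v * g⁻¹ * g)⁻¹ * g = v⁻¹ := by group
  rw [h4] at h3
  have h5 := B.H.inv_mem h3
  rwa [inv_inv] at h5

theorem US_mono [V.Normal] {A B : Orb G} (f : A ⟶ B) : US V B.H ≤ US V A.H := by
  unfold US
  by_cases h : V ≤ A.H
  · rw [if_pos h, if_pos (le_of_hom V f h)]
  · rw [if_neg h]
    exact le_top

/-- the coefficient system with value `ℚ` on the subgroups containing `V` and zero elsewhere -/
noncomputable def XX [V.Normal] : FC (Orb G)ᵒᵖ where
  obj A := ModuleCat.of ℚ (ℚ ⧸ US V A.unop.H)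
  map {A B} f := ModuleCat.ofHom (Submodule.factor (US_mono V f.unop))
  map_id A := by
    ext
    rfl
  map_comp {A B C} f g := by
    ext
    rfl

/-- the projection from the constant functor -/
noncomputable def qq [V.Normal] : ZZ (Set.Iic V) ⟶ (rst (PhiF V).op).obj (XX V) where
  app L := ModuleCat.ofHom
    (((US V L.unop.1).mkQ.comp (LinearMap.proj ())).comp
      (Uw (fun _ : Unit => (⊤ : Set.Iic V)) L.unop).subtype)
  naturality L L' f := by
    ext x
    rfl

theorem qq_app [V.Normal] (x : Set.Iic V) (b : Uw (fun _ : Unit => (⊤ : Set.Iic V)) x) :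
    ((qq V).app (Opposite.op x)).hom b = (US V x.1).mkQ (b.1 ()) := rfl

theorem qq_surj [V.Normal] (x : (Set.Iic V)ᵒᵖ) : Function.Surjective ((qq V).app x).hom := by
  intro y
  obtain ⟨y, rfl⟩ := Submodule.mkQ_surjective (US V x.unop.1) y
  exact ⟨(⟨fun _ => y, fun i hi => absurd le_top hi⟩ :
    Uw (fun _ : Unit => (⊤ : Set.Iic V)) x.unop), rfl⟩

theorem qq_ker [V.Normal] (x : Set.Iic V) (b : Uw (fun _ : Unit => (⊤ : Set.Iic V)) x) :
    ((qq V).app (Opposite.op x)).hom b = 0 ↔ (x = ⊤ → b.1 = 0) := by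
  rw [qq_app]
  have h0 : (US V x.1).mkQ (b.1 ()) = 0 ↔ b.1 () ∈ US V x.1 :=
    Submodule.Quotient.mk_eq_zero _
  refine h0.trans ?_
  unfold US
  by_cases hx : x = ⊤
  · have h1 : V ≤ x.1 := by rw [hx]; exact le_rfl
    rw [if_pos h1, Submodule.mem_bot]
    constructor
    · intro h _
      funext i
      exact h
    · intro h
      rw [h hx]
      rfl
  · have h1 : ¬ V ≤ x.1 := fun h => hx (Subtype.ext (le_antisymm x.2 h))
    rw [if_neg h1]
    exact ⟨fun _ h => absurd h hx, fun _ => Submodule.mem_top⟩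

end X

section lat
variable {G : Type} [Group G] [Finite G] {V : Subgroup G}

theorem card_lt_of_lt {A B : Subgroup G} (h : A < B) : Nat.card A < Nat.card B := by
  by_contra hc
  push Not at hc
  exact h.ne (Subgroup.eq_of_le_of_card_ge h.le hc)

theorem atom_of (hV : Good G V) (x : Set.Iic V) (h : Nat.card x.1 = 2) : IsAtom x := by
  constructor
  · intro h0
    rw [h0] at h
    have : Nat.card ((⊥ : Set.Iic V).1) = 1 := Subgroup.card_bot
    omega
  · intro b hb
    have h1 : Nat.card b.1 < Nat.card x.1 := card_lt_of_lt hb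
    have h2 : 0 < Nat.card b.1 := Nat.card_pos
    have h3 : Nat.card b.1 = 1 := by omega
    exact Subtype.ext (Subgroup.card_eq_one.1 h3)

theorem coatom_of (hV : Good G V) (x : Set.Iic V) (h : Nat.card x.1 = 4) : IsCoatom x := by
  constructor
  · intro h0
    rw [h0] at h
    have : Nat.card ((⊤ : Set.Iic V).1) = 8 := hV.card_V
    omega
  · intro b hb
    have h1 : Nat.card x.1 < Nat.card b.1 := card_lt_of_lt hb
    have h3 : Nat.card b.1 = 8 := by
      rcases orders hV.card_V b.1 b.2 with h2 | h2 | h2 | h2 <;> omega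
    apply Subtype.ext
    apply Subgroup.eq_of_le_of_card_ge b.2
    rw [h3]
    exact hV.card_V.le

theorem lat1 (hV : Good G V) (x : Set.Iic V) : x = ⊥ ∨ IsAtom x ∨ IsCoatom x ∨ x = ⊤ := by
  rcases orders hV.card_V x.1 x.2 with h | h | h | h
  · left
    exact Subtype.ext (Subgroup.card_eq_one.1 h)
  · right; left
    exact atom_of hV x h
  · right; right; left
    exact coatom_of hV x h
  · right; right; right
    apply Subtype.ext
    apply Subgroup.eq_of_le_of_card_ge x.2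
    rw [h]
    exact hV.card_V.le

theorem lat2 (x : Set.Iic V) (hx : x ≠ ⊤) : ∃ W, IsCoatom W ∧ x ≤ W := by
  rcases eq_top_or_exists_le_coatom x with h | h
  · exact absurd h hx
  · exact h

theorem V_comm (hV : Good G V) (a b : G) (ha : a ∈ V) (hb : b ∈ V) : a * b = b * a := by
  have h1 := hV.sq a ha
  have h2 := hV.sq b hb
  have h3 := hV.sq (a * b) (V.mul_mem ha hb)
  have h4 : a * b = (a * b)⁻¹ := eq_inv_of_mul_eq_one_left h3
  have h5 : a = a⁻¹ := eq_inv_of_mul_eq_one_left h1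
  have h6 : b = b⁻¹ := eq_inv_of_mul_eq_one_left h2
  rw [h4, mul_inv_rev, ← h5, ← h6]

/-- the Klein four group generated by `a` and `b` -/
def K4 (hV : Good G V) (a b : G) (ha : a ∈ V) (hb : b ∈ V) : Subgroup G where
  carrier := {x | x = 1 ∨ x = a ∨ x = b ∨ x = a * b}
  one_mem' := Or.inl rfl
  mul_mem' := by
    have h1 := hV.sq a ha
    have h2 := hV.sq b hb
    have h3 := V_comm hV a b ha hb
    have e1 : a * (a * b) = b := by rw [← mul_assoc, h1, one_mul]
    have e2 : b * (a * b) = a := by rw [h3, ← mul_assoc, h2, one_mul]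
    have e3 : a * b * a = b := by rw [h3, mul_assoc, h1, mul_one]
    have e4 : a * b * b = a := by rw [mul_assoc, h2, mul_one]
    have e5 : a * b * (a * b) = 1 := hV.sq _ (V.mul_mem ha hb)
    rintro x y (rfl | rfl | rfl | rfl) (rfl | rfl | rfl | rfl) <;>
      simp only [Set.mem_setOf_eq, one_mul, mul_one, h1, h2, e1, e2, e3, e4, e5, ← h3, true_or, or_true]
  inv_mem' := by
    have h1 := hV.sq a ha
    have h2 := hV.sq b hb
    have e5 : a * b * (a * b) = 1 := hV.sq _ (V.mul_mem ha hb)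
    have i1 : a⁻¹ = a := (eq_inv_of_mul_eq_one_left h1).symm
    have i2 : b⁻¹ = b := (eq_inv_of_mul_eq_one_left h2).symm
    have i3 : (a * b)⁻¹ = a * b := (eq_inv_of_mul_eq_one_left e5).symm
    rintro x (rfl | rfl | rfl | rfl) <;>
      simp only [Set.mem_setOf_eq, inv_one, i1, i2, i3, true_or, or_true]

theorem mem_K4 (hV : Good G V) (a b : G) (ha : a ∈ V) (hb : b ∈ V) (x : G) :
    x ∈ K4 hV a b ha hb ↔ x = 1 ∨ x = a ∨ x = b ∨ x = a * b := Iff.rfl

theorem K4_le (hV : Good G V) (a b : G) (ha : a ∈ V) (hb : b ∈ V) : K4 hV a b ha hb ≤ V := by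
  intro x hx
  rcases (mem_K4 hV a b ha hb x).1 hx with rfl | rfl | rfl | rfl
  · exact V.one_mem
  · exact ha
  · exact hb
  · exact V.mul_mem ha hb

theorem K4_card (hV : Good G V) (a b : G) (ha : a ∈ V) (hb : b ∈ V) (ha1 : a ≠ 1) (hb1 : b ≠ 1)
    (hab : a ≠ b) : Nat.card (K4 hV a b ha hb) = 4 := by
  have h1 : 3 ≤ Nat.card (K4 hV a b ha hb) :=
    three_le _ a b (Or.inr (Or.inl rfl)) (Or.inr (Or.inr (Or.inl rfl))) ha1 hb1 hab
  have h2 : Nat.card (K4 hV a b ha hb) ≤ 4 := by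
    let f : Fin 4 → K4 hV a b ha hb := ![1, ⟨a, Or.inr (Or.inl rfl)⟩,
      ⟨b, Or.inr (Or.inr (Or.inl rfl))⟩, ⟨a * b, Or.inr (Or.inr (Or.inr rfl))⟩]
    have hf : Function.Surjective f := by
      rintro ⟨x, hx⟩
      rcases (mem_K4 hV a b ha hb x).1 hx with rfl | rfl | rfl | rfl
      · exact ⟨0, rfl⟩
      · exact ⟨1, rfl⟩
      · exact ⟨2, rfl⟩
      · exact ⟨3, rfl⟩
    have := Nat.card_le_card_of_surjective f hf
    simpa using this
  rcases orders hV.card_V _ (K4_le hV a b ha hb) with h | h | h | h <;> omega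

theorem zp_card (hV : Good G V) (a : G) (ha : a ∈ V) (ha1 : a ≠ 1) :
    Nat.card (Subgroup.zpowers a) = 2 := by
  rw [Nat.card_zpowers]
  apply orderOf_eq_prime
  · rw [pow_two]
    exact hV.sq a ha
  · exact ha1

theorem zp_ne (hV : Good G V) (a b : G) (ha : a ∈ V) (ha1 : a ≠ 1) (hb1 : b ≠ 1)
    (hab : a ≠ b) : Subgroup.zpowers a ≠ Subgroup.zpowers b := by
  intro h
  have h1 : 3 ≤ Nat.card (Subgroup.zpowers a) := by
    apply three_le _ a b (Subgroup.mem_zpowers a) _ ha1 hb1 hab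
    rw [h]
    exact Subgroup.mem_zpowers b
  rw [zp_card hV a ha ha1] at h1
  omega

theorem not_pd [V.Normal] (hV : Good G V) : ¬ HasProjectiveDimensionLT (XX V) 3 := by
  intro hX
  have hR := pd_rst (PhiF V).op (rst_proj V) 3 (XX V) hX
  revert hR
  obtain ⟨a, ha, ha1⟩ := ne_one_of_card V (by rw [hV.card_V]; norm_num)
  obtain ⟨b, hb, hb0⟩ : ∃ b ∈ V, b ∉ Subgroup.zpowers a := by
    by_contra hc
    push Not at hc
    have h1 : V ≤ Subgroup.zpowers a := hc
    have h2 := Subgroup.card_le_of_le h1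
    rw [hV.card_V, zp_card hV a ha ha1] at h2
    omega
  have hb1 : b ≠ 1 := by
    rintro rfl
    exact hb0 (Subgroup.one_mem _)
  have hab : a ≠ b := by
    rintro rfl
    exact hb0 (Subgroup.mem_zpowers a)
  obtain ⟨c, hc, hc0⟩ : ∃ c ∈ V, c ∉ K4 hV a b ha hb := by
    by_contra hc
    push Not at hc
    have h1 : V ≤ K4 hV a b ha hb := hc
    have h2 := Subgroup.card_le_of_le h1
    rw [hV.card_V, K4_card hV a b ha hb ha1 hb1 hab] at h2
    omega
  have hc1 : c ≠ 1 := by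
    rintro rfl
    exact hc0 (Subgroup.one_mem _)
  have hac : a ≠ c := by
    rintro rfl
    exact hc0 (Or.inr (Or.inl rfl))
  have hbc : b ≠ c := by
    rintro rfl
    exact hc0 (Or.inr (Or.inr (Or.inl rfl)))
  haveI : Fintype (Set.Iic V) := Fintype.ofFinite _
  have z : ∀ (x : G), x ∈ V → Subgroup.zpowers x ≤ V := fun x hx =>
    Subgroup.zpowers_le.2 hx
  refine pd3 (V := Set.Iic V) (lat1 hV) lat2 ⟨Subgroup.zpowers a, z a ha⟩
    ⟨Subgroup.zpowers b, z b hb⟩ ⟨Subgroup.zpowers c, z c hc⟩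
    (atom_of hV _ (zp_card hV a ha ha1)) (atom_of hV _ (zp_card hV b hb hb1))
    (atom_of hV _ (zp_card hV c hc hc1)) ?_ ?_
    ⟨⟨K4 hV a b ha hb, K4_le hV a b ha hb⟩, coatom_of hV _ (K4_card hV a b ha hb ha1 hb1 hab)⟩
    ⟨⟨K4 hV a c ha hc, K4_le hV a c ha hc⟩, coatom_of hV _ (K4_card hV a c ha hc ha1 hc1 hac)⟩
    ⟨⟨K4 hV b c hb hc, K4_le hV b c hb hc⟩, coatom_of hV _ (K4_card hV b c hb hc hb1 hc1 hbc)⟩
    ?_ ?_ ?_ ?_ ?_ ?_ ?_ _ (qq V) (qq_surj V) (qq_ker V)
  · intro h
    exact zp_ne hV a b ha ha1 hb1 hab (congrArg (fun x : Set.Iic V => x.1) h)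
  · intro h
    exact zp_ne hV a c ha ha1 hc1 hac (congrArg (fun x : Set.Iic V => x.1) h)
  · intro h
    apply hc0
    have h1 : K4 hV a b ha hb = K4 hV a c ha hc := congrArg (fun x : Co (Set.Iic V) => x.1.1) h
    rw [h1]
    exact Or.inr (Or.inr (Or.inl rfl))
  · exact Subgroup.zpowers_le.2 (show a ∈ K4 hV a b ha hb from Or.inr (Or.inl rfl))
  · exact Subgroup.zpowers_le.2 (show a ∈ K4 hV a c ha hc from Or.inr (Or.inl rfl))
  · exact Subgroup.zpowers_le.2 (show b ∈ K4 hV a b ha hb from Or.inr (Or.inr (Or.inl rfl)))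
  · exact Subgroup.zpowers_le.2 (show b ∈ K4 hV b c hb hc from Or.inr (Or.inl rfl))
  · exact Subgroup.zpowers_le.2 (show c ∈ K4 hV a c ha hc from Or.inr (Or.inr (Or.inl rfl)))
  · exact Subgroup.zpowers_le.2 (show c ∈ K4 hV b c hb hc from Or.inr (Or.inr (Or.inl rfl)))

end lat

end Pool.Agent.X317.GD
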